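import Mathlib

set_option autoImplicit false

namespace Pool.Agent.H96.Planted

/-- sum over all binary words of length `n` -/
noncomputable def S : ℕ → (List Bool → ℝ) → ℝ
  | 0, φ => φ []
  | n + 1, φ => S n (fun X => φ (false :: X)) + S n (fun X => φ (true :: X))

lemma S_zero (φ : List Bool → ℝ) : S 0 φ = φ [] := rfl

lemma S_succ (n : ℕ) (φ : List Bool → ℝ) :
    S (n + 1) φ = S n (fun X => φ (false :: X)) + S n (fun X => φ (true :: X)) := rfl

lemma S_congr {n : ℕ} {φ ψ : List Bool → ℝ} (h : ∀ X, X.length = n → φ X = ψ X) :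
    S n φ = S n ψ := by
  induction n generalizing φ ψ with
  | zero => exact h [] rfl
  | succ n ih =>
    rw [S_succ, S_succ, ih (fun X hX => h (false :: X) (by simp [hX])),
      ih (fun X hX => h (true :: X) (by simp [hX]))]

lemma S_mono {n : ℕ} {φ ψ : List Bool → ℝ} (h : ∀ X, X.length = n → φ X ≤ ψ X) :
    S n φ ≤ S n ψ := by
  induction n generalizing φ ψ with
  | zero => exact h [] rfl
  | succ n ih =>
    rw [S_succ, S_succ]
    exact add_le_add (ih (fun X hX => h (false :: X) (by simp [hX])))
      (ih (fun X hX => h (true :: X) (by simp [hX])))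

lemma S_add (n : ℕ) (φ ψ : List Bool → ℝ) : S n (fun X => φ X + ψ X) = S n φ + S n ψ := by
  induction n generalizing φ ψ with
  | zero => rfl
  | succ n ih => simp only [S_succ, ih]; ring

lemma S_mul_left (n : ℕ) (c : ℝ) (φ : List Bool → ℝ) : S n (fun X => c * φ X) = c * S n φ := by
  induction n generalizing φ with
  | zero => rfl
  | succ n ih => simp only [S_succ, ih]; ring

lemma S_mul_right (n : ℕ) (c : ℝ) (φ : List Bool → ℝ) : S n (fun X => φ X * c) = S n φ * c := by
  have := S_mul_left n c φ
  rw [mul_comm, ← this]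
  exact S_congr fun X _ => mul_comm _ _

lemma S_zero_fun (n : ℕ) : S n (fun _ => 0) = 0 := by
  have := S_mul_left n 0 (fun _ => (0 : ℝ))
  simpa using this

lemma S_const (n : ℕ) (c : ℝ) : S n (fun _ => c) = 2 ^ n * c := by
  induction n with
  | zero => simp [S_zero]
  | succ n ih => rw [S_succ, ih, pow_succ]; ring

lemma S_nonneg {n : ℕ} {φ : List Bool → ℝ} (h : ∀ X, X.length = n → 0 ≤ φ X) : 0 ≤ S n φ := by
  have := S_mono (n := n) (φ := fun _ => 0) h
  rwa [S_zero_fun] at this

lemma S_comm (n m : ℕ) (f : List Bool → List Bool → ℝ) :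
    S n (fun X => S m (fun Y => f X Y)) = S m (fun Y => S n (fun X => f X Y)) := by
  induction n generalizing f with
  | zero => rfl
  | succ n ih =>
    rw [S_succ, ih, ih, ← S_add]
    rfl

lemma S_neg (n : ℕ) (φ : List Bool → ℝ) : S n (fun X => - φ X) = - S n φ := by
  have := S_mul_left n (-1) φ
  simpa using this

lemma S_sum {ι : Type*} (n : ℕ) (s : Finset ι) (f : ι → List Bool → ℝ) :
    S n (fun X => ∑ i ∈ s, f i X) = ∑ i ∈ s, S n (f i) := by
  classical
  induction s using Finset.induction_on with
  | empty => simp [S_zero_fun]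
  | insert a s ha ih =>
    simp only [Finset.sum_insert ha]
    rw [S_add, ih]

/-- product of the two spins attached to two letters -/
def e (c x : Bool) : ℝ := if c = x then 1 else -1

lemma e_xor (c c' x x' : Bool) : e (xor c c') (xor x x') = e c x * e c' x' := by
  cases c <;> cases c' <;> cases x <;> cases x' <;> simp [e]

/-- the tilting function, with previous letter `c` -/
noncomputable def G (θ : ℝ) : Bool → List Bool → ℝ
  | _, [] => 1
  | c, x :: X => (1 - θ * e c x) * G θ x X

/-- the pair partition function with pending word `p` -/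
noncomputable def W (y : ℝ) : List Bool → List Bool → ℝ
  | [], p => if p = [] then 1 else 0
  | x :: X, [] => (1 + y) * W y X [] + 2 * y * W y X [x]
  | x :: X, a :: p => W y X (a :: p) + y * W y X (a :: p ++ [x]) +
      (if x = a then W y X p + y * W y X (p ++ [x]) else 0)

/-- the first-hitting partition function with pending word `p` -/
noncomputable def E (y : ℝ) : List Bool → List Bool → ℝ
  | [], p => if p = [] then 1 else 0
  | _ :: _, [] => 0
  | x :: X, a :: p => E y X (a :: p) + y * E y X (a :: p ++ [x]) +
      (if x = a then E y X p + y * E y X (p ++ [x]) else 0)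

lemma W_nonneg {y : ℝ} (hy : 0 ≤ y) (X p : List Bool) : 0 ≤ W y X p := by
  induction X generalizing p with
  | nil => unfold W; split_ifs <;> norm_num
  | cons x X ih =>
    cases p with
    | nil =>
      unfold W
      have h1 := ih []
      have h2 := ih [x]
      positivity
    | cons a p =>
      unfold W
      have h1 := ih (a :: p)
      have h2 := ih (a :: p ++ [x])
      have h3 := ih p
      have h4 := ih (p ++ [x])
      split_ifs <;> positivity

lemma E_nonneg {y : ℝ} (hy : 0 ≤ y) (X p : List Bool) : 0 ≤ E y X p := by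
  induction X generalizing p with
  | nil => unfold E; split_ifs <;> norm_num
  | cons x X ih =>
    cases p with
    | nil => unfold E; norm_num
    | cons a p =>
      unfold E
      have h1 := ih (a :: p)
      have h2 := ih (a :: p ++ [x])
      have h3 := ih p
      have h4 := ih (p ++ [x])
      split_ifs <;> positivity

lemma G_nonneg {θ : ℝ} (h0 : 0 ≤ θ) (h1 : θ ≤ 1) (c : Bool) (X : List Bool) : 0 ≤ G θ c X := by
  induction X generalizing c with
  | nil => simp [G]
  | cons x X ih =>
    unfold G
    apply mul_nonneg _ (ih x)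
    unfold e
    split_ifs <;> linarith

lemma G_pos {θ : ℝ} (h0 : 0 ≤ θ) (h1 : θ < 1) (c : Bool) (X : List Bool) : 0 < G θ c X := by
  induction X generalizing c with
  | nil => simp [G]
  | cons x X ih =>
    unfold G
    apply mul_pos _ (ih x)
    unfold e
    split_ifs <;> linarith

/-- tilted expectation of the pair partition function -/
noncomputable def U (θ y : ℝ) (n : ℕ) (p : List Bool) (c : Bool) : ℝ :=
  S n (fun X => G θ c X * W y X p) / 2 ^ n

/-- tilted expectation of the first-hitting partition function -/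
noncomputable def H (θ y : ℝ) (n : ℕ) (p : List Bool) (c : Bool) : ℝ :=
  S n (fun X => G θ c X * E y X p) / 2 ^ n

lemma U_zero (θ y : ℝ) (p : List Bool) (c : Bool) : U θ y 0 p c = if p = [] then 1 else 0 := by
  unfold U; simp [S_zero, G, W]

lemma H_zero (θ y : ℝ) (p : List Bool) (c : Bool) : H θ y 0 p c = if p = [] then 1 else 0 := by
  unfold H; simp [S_zero, G, E]

lemma H_nonneg {θ y : ℝ} (h0 : 0 ≤ θ) (h1 : θ ≤ 1) (hy : 0 ≤ y) (n : ℕ) (p : List Bool)
    (c : Bool) : 0 ≤ H θ y n p c :=
  div_nonneg (S_nonneg fun X _ => mul_nonneg (G_nonneg h0 h1 c X) (E_nonneg hy X p))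
    (by positivity)

lemma U_nonneg {θ y : ℝ} (h0 : 0 ≤ θ) (h1 : θ ≤ 1) (hy : 0 ≤ y) (n : ℕ) (p : List Bool)
    (c : Bool) : 0 ≤ U θ y n p c :=
  div_nonneg (S_nonneg fun X _ => mul_nonneg (G_nonneg h0 h1 c X) (W_nonneg hy X p))
    (by positivity)

/-- sum over the next letter with tilted weights -/
noncomputable def B (θ : ℝ) (c : Bool) (φ : Bool → ℝ) : ℝ :=
  (1 - θ * e c false) / 2 * φ false + (1 - θ * e c true) / 2 * φ true

lemma B_mono {θ : ℝ} (h0 : 0 ≤ θ) (h1 : θ ≤ 1) (c : Bool) {φ ψ : Bool → ℝ}
    (h : ∀ x, φ x ≤ ψ x) : B θ c φ ≤ B θ c ψ := by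
  unfold B
  have k1 : 0 ≤ (1 - θ * e c false) / 2 := by unfold e; split_ifs <;> linarith
  have k2 : 0 ≤ (1 - θ * e c true) / 2 := by unfold e; split_ifs <;> linarith
  exact add_le_add (mul_le_mul_of_nonneg_left (h _) k1) (mul_le_mul_of_nonneg_left (h _) k2)

lemma B_const (θ : ℝ) (c : Bool) (a : ℝ) : B θ c (fun _ => a) = a := by
  unfold B e
  cases c <;> simp <;> ring

lemma B_add (θ : ℝ) (c : Bool) (φ ψ : Bool → ℝ) :
    B θ c (fun x => φ x + ψ x) = B θ c φ + B θ c ψ := by
  unfold B; ring

lemma B_mul (θ : ℝ) (c : Bool) (a : ℝ) (φ : Bool → ℝ) :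
    B θ c (fun x => a * φ x) = a * B θ c φ := by
  unfold B; ring

lemma B_sum {ι : Type*} (θ : ℝ) (c : Bool) (s : Finset ι) (f : ι → Bool → ℝ) :
    B θ c (fun x => ∑ i ∈ s, f i x) = ∑ i ∈ s, B θ c (f i) := by
  unfold B
  rw [Finset.mul_sum, Finset.mul_sum, ← Finset.sum_add_distrib]

lemma S_G_succ (θ : ℝ) (n : ℕ) (c : Bool) (f : List Bool → ℝ) :
    S (n + 1) (fun X => G θ c X * f X) / 2 ^ (n + 1) =
      B θ c (fun x => S n (fun X => G θ x X * f (x :: X)) / 2 ^ n) := by
  rw [S_succ]
  have key : ∀ x : Bool, S n (fun X => G θ c (x :: X) * f (x :: X)) =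
      (1 - θ * e c x) * S n (fun X => G θ x X * f (x :: X)) := by
    intro x
    rw [← S_mul_left]
    refine S_congr fun X _ => ?_
    simp only [G]; ring
  rw [key false, key true]
  unfold B
  rw [pow_succ]
  field_simp

lemma U_succ_nil (θ y : ℝ) (n : ℕ) (c : Bool) :
    U θ y (n + 1) [] c = B θ c (fun x => (1 + y) * U θ y n [] x + 2 * y * U θ y n [x] x) := by
  unfold U
  rw [S_G_succ]
  congr 1
  funext x
  rw [mul_div_assoc', mul_div_assoc', ← add_div, ← S_mul_left, ← S_mul_left, ← S_add]
  congr 1
  refine S_congr fun X _ => ?_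
  simp only [W]; ring

lemma U_succ_cons (θ y : ℝ) (n : ℕ) (a : Bool) (p : List Bool) (c : Bool) :
    U θ y (n + 1) (a :: p) c = B θ c (fun x => U θ y n (a :: p) x + y * U θ y n (a :: p ++ [x]) x +
      (if x = a then U θ y n p x + y * U θ y n (p ++ [x]) x else 0)) := by
  unfold U
  rw [S_G_succ]
  congr 1
  funext x
  by_cases hx : x = a
  · simp only [if_pos hx]
    rw [mul_div_assoc', mul_div_assoc', ← add_div, ← add_div, ← add_div, ← S_mul_left,
      ← S_mul_left, ← S_add, ← S_add, ← S_add]
    congr 1
    refine S_congr fun X _ => ?_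
    simp only [W, if_pos hx]; ring
  · simp only [if_neg hx]
    rw [mul_div_assoc', ← add_div, add_zero, ← S_mul_left, ← S_add]
    congr 1
    refine S_congr fun X _ => ?_
    simp only [W, if_neg hx]; ring

lemma H_succ_nil (θ y : ℝ) (n : ℕ) (c : Bool) : H θ y (n + 1) [] c = 0 := by
  unfold H
  rw [S_G_succ]
  have : ∀ x, S n (fun X => G θ x X * E y (x :: X) []) / 2 ^ n = 0 := by
    intro x
    have : S n (fun X => G θ x X * E y (x :: X) []) = 0 := by
      rw [← S_zero_fun n]
      exact S_congr fun X _ => by simp [E]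
    rw [this, zero_div]
  simp only [this]
  exact B_const _ _ _

lemma H_succ_cons (θ y : ℝ) (n : ℕ) (a : Bool) (p : List Bool) (c : Bool) :
    H θ y (n + 1) (a :: p) c = B θ c (fun x => H θ y n (a :: p) x + y * H θ y n (a :: p ++ [x]) x +
      (if x = a then H θ y n p x + y * H θ y n (p ++ [x]) x else 0)) := by
  unfold H
  rw [S_G_succ]
  congr 1
  funext x
  by_cases hx : x = a
  · simp only [if_pos hx]
    rw [mul_div_assoc', mul_div_assoc', ← add_div, ← add_div, ← add_div, ← S_mul_left,
      ← S_mul_left, ← S_add, ← S_add, ← S_add]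
    congr 1
    refine S_congr fun X _ => ?_
    simp only [E, if_pos hx]; ring
  · simp only [if_neg hx]
    rw [mul_div_assoc', ← add_div, add_zero, ← S_mul_left, ← S_add]
    congr 1
    refine S_congr fun X _ => ?_
    simp only [E, if_neg hx]; ring

/-- Renewal inequality. -/
lemma renewal {θ y ρ : ℝ} (h0 : 0 ≤ θ) (h1 : θ ≤ 1) (hy : 0 ≤ y) (hρ : 0 < ρ) (n : ℕ)
    (hU : ∀ m ≤ n, ∀ c, U θ y m [] c ≤ ρ ^ m) (m : ℕ) (hm : m ≤ n) (p : List Bool) (c : Bool) :
    U θ y m p c ≤ ∑ l ∈ Finset.range (m + 1), H θ y l p c * ρ ^ (m - l) := by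
  induction m generalizing p c with
  | zero => simp [U_zero, H_zero]
  | succ m ih =>
    cases p with
    | nil =>
      refine le_trans (hU (m + 1) hm c) ?_
      rw [Finset.sum_range_succ']
      have : (0 : ℝ) ≤ ∑ k ∈ Finset.range (m + 1), H θ y (k + 1) [] c * ρ ^ (m + 1 - (k + 1)) :=
        Finset.sum_nonneg fun k _ => mul_nonneg (H_nonneg h0 h1 hy _ _ _) (by positivity)
      rw [H_zero]
      simp only [if_true, one_mul, Nat.sub_zero]
      linarith
    | cons a p =>
      rw [Finset.sum_range_succ', H_zero, if_neg (List.cons_ne_nil _ _), zero_mul, add_zero,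
        U_succ_cons]
      have hle : ∀ (q : List Bool) (x : Bool), U θ y m q x ≤
          ∑ l ∈ Finset.range (m + 1), H θ y l q x * ρ ^ (m - l) := fun q x => ih (by omega) q x
      refine le_trans (B_mono h0 h1 c (ψ := fun x => ∑ l ∈ Finset.range (m + 1),
        (H θ y l (a :: p) x + y * H θ y l (a :: p ++ [x]) x +
          (if x = a then H θ y l p x + y * H θ y l (p ++ [x]) x else 0)) * ρ ^ (m - l)) ?_) ?_
      · intro x
        have e1 := hle (a :: p) x
        have e2 := hle (a :: p ++ [x]) x
        have e3 := hle p x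
        have e4 := hle (p ++ [x]) x
        by_cases hx : x = a
        · simp only [if_pos hx]
          have : ∑ l ∈ Finset.range (m + 1),
              (H θ y l (a :: p) x + y * H θ y l (a :: p ++ [x]) x +
                (H θ y l p x + y * H θ y l (p ++ [x]) x)) * ρ ^ (m - l) =
              ∑ l ∈ Finset.range (m + 1), H θ y l (a :: p) x * ρ ^ (m - l) +
              y * ∑ l ∈ Finset.range (m + 1), H θ y l (a :: p ++ [x]) x * ρ ^ (m - l) +
              (∑ l ∈ Finset.range (m + 1), H θ y l p x * ρ ^ (m - l) +
              y * ∑ l ∈ Finset.range (m + 1), H θ y l (p ++ [x]) x * ρ ^ (m - l)) := by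
            rw [Finset.mul_sum, Finset.mul_sum, ← Finset.sum_add_distrib, ← Finset.sum_add_distrib,
              ← Finset.sum_add_distrib]
            exact Finset.sum_congr rfl fun l _ => by ring
          rw [this]
          have := mul_le_mul_of_nonneg_left e2 hy
          have := mul_le_mul_of_nonneg_left e4 hy
          linarith
        · simp only [if_neg hx, add_zero]
          have : ∑ l ∈ Finset.range (m + 1),
              (H θ y l (a :: p) x + y * H θ y l (a :: p ++ [x]) x) * ρ ^ (m - l) =
              ∑ l ∈ Finset.range (m + 1), H θ y l (a :: p) x * ρ ^ (m - l) +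
              y * ∑ l ∈ Finset.range (m + 1), H θ y l (a :: p ++ [x]) x * ρ ^ (m - l) := by
            rw [Finset.mul_sum, ← Finset.sum_add_distrib]
            exact Finset.sum_congr rfl fun l _ => by ring
          rw [this]
          have := mul_le_mul_of_nonneg_left e2 hy
          linarith
      · rw [B_sum]
        apply le_of_eq
        refine Finset.sum_congr rfl fun l _ => ?_
        rw [H_succ_cons, Nat.add_sub_add_right]
        unfold B
        ring

/-- growth bound for the tilted pair partition function -/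
lemma U_le_pow {θ y ρ : ℝ} (h0 : 0 ≤ θ) (h1 : θ ≤ 1) (hy : 0 ≤ y) (hρ : 0 < ρ) (K : ℝ)
    (hK : ∀ (m : ℕ) (x : Bool), ∑ l ∈ Finset.range (m + 1), H θ y l [x] x / ρ ^ l ≤ K)
    (hfin : 1 + y + 2 * y * K ≤ ρ) (n : ℕ) (c : Bool) : U θ y n [] c ≤ ρ ^ n := by
  have main : ∀ n, ∀ m ≤ n, ∀ c, U θ y m [] c ≤ ρ ^ m := by
    intro n
    induction n with
    | zero =>
      intro m hm c
      have : m = 0 := by omega
      subst this
      simp [U_zero]
    | succ n ih =>
      intro m hm c
      by_cases hmn : m ≤ n
      · exact ih m hmn c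
      · have : m = n + 1 := by omega
        subst this
        rw [U_succ_nil]
        refine le_trans (B_mono h0 h1 c (ψ := fun _ => ρ ^ (n + 1)) ?_) (le_of_eq (B_const _ _ _))
        intro x
        have a1 := ih n le_rfl x
        have a2 := renewal h0 h1 hy hρ n ih n le_rfl [x] x
        have a3 : ∑ l ∈ Finset.range (n + 1), H θ y l [x] x * ρ ^ (n - l) =
            ρ ^ n * ∑ l ∈ Finset.range (n + 1), H θ y l [x] x / ρ ^ l := by
          rw [Finset.mul_sum]
          refine Finset.sum_congr rfl fun l hl => ?_
          have hl' : l ≤ n := by simpa [Nat.lt_succ_iff] using hl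
          have : ρ ^ n = ρ ^ (n - l) * ρ ^ l := by rw [← pow_add]; congr 1; omega
          rw [this]
          field_simp
        rw [a3] at a2
        have a4 := hK n x
        have hρn : 0 < ρ ^ n := by positivity
        have a5 : U θ y n [x] x ≤ ρ ^ n * K :=
          a2.trans (mul_le_mul_of_nonneg_left a4 hρn.le)
        calc (1 + y) * U θ y n [] x + 2 * y * U θ y n [x] x
            ≤ (1 + y) * ρ ^ n + 2 * y * (ρ ^ n * K) := by
              apply add_le_add
              · exact mul_le_mul_of_nonneg_left a1 (by linarith)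
              · exact mul_le_mul_of_nonneg_left a5 (by linarith)
          _ = ρ ^ n * (1 + y + 2 * y * K) := by ring
          _ ≤ ρ ^ n * ρ := mul_le_mul_of_nonneg_left hfin hρn.le
          _ = ρ ^ (n + 1) := by rw [pow_succ]
  exact main n n le_rfl c

/-- generating function bound at `θ = 0` -/
lemma H0_sum_le {y R ρ : ℝ} (hy : 0 ≤ y) (hR : 0 < R) (hρ : 0 < ρ)
    (hfin : 1 + y / 2 + y * R + 1 / (2 * R) ≤ ρ) (m : ℕ) (p : List Bool) (c : Bool) :
    ∑ l ∈ Finset.range (m + 1), H 0 y l p c / ρ ^ l ≤ R ^ p.length := by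
  induction m generalizing p c with
  | zero =>
    simp only [zero_add, Finset.range_one, Finset.sum_singleton, H_zero, pow_zero, div_one]
    cases p with
    | nil => simp
    | cons a p => simp; positivity
  | succ m ih =>
    cases p with
    | nil =>
      rw [Finset.sum_range_succ']
      simp [H_succ_nil, H_zero]
    | cons a p =>
      rw [Finset.sum_range_succ', H_zero, if_neg (List.cons_ne_nil _ _), zero_div, add_zero]
      have e1 : ∑ k ∈ Finset.range (m + 1), H 0 y (k + 1) (a :: p) c / ρ ^ (k + 1) =
          (1 / ρ) * B 0 c (fun x => ∑ l ∈ Finset.range (m + 1), H 0 y l (a :: p) x / ρ ^ l +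
            y * ∑ l ∈ Finset.range (m + 1), H 0 y l (a :: p ++ [x]) x / ρ ^ l +
            (if x = a then ∑ l ∈ Finset.range (m + 1), H 0 y l p x / ρ ^ l +
              y * ∑ l ∈ Finset.range (m + 1), H 0 y l (p ++ [x]) x / ρ ^ l else 0)) := by
        have e2 : (fun x => ∑ l ∈ Finset.range (m + 1), H 0 y l (a :: p) x / ρ ^ l +
            y * ∑ l ∈ Finset.range (m + 1), H 0 y l (a :: p ++ [x]) x / ρ ^ l +
            (if x = a then ∑ l ∈ Finset.range (m + 1), H 0 y l p x / ρ ^ l +
              y * ∑ l ∈ Finset.range (m + 1), H 0 y l (p ++ [x]) x / ρ ^ l else 0)) =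
            fun x => ∑ l ∈ Finset.range (m + 1), (1 / ρ ^ l) * (H 0 y l (a :: p) x +
              y * H 0 y l (a :: p ++ [x]) x +
              (if x = a then H 0 y l p x + y * H 0 y l (p ++ [x]) x else 0)) := by
          funext x
          by_cases hx : x = a
          · simp only [if_pos hx, mul_add, Finset.sum_add_distrib, Finset.mul_sum]
            congr 1
            · congr 1
              · exact Finset.sum_congr rfl fun l _ => by ring
              · exact Finset.sum_congr rfl fun l _ => by ring
            · congr 1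
              · exact Finset.sum_congr rfl fun l _ => by ring
              · exact Finset.sum_congr rfl fun l _ => by ring
          · simp only [if_neg hx, add_zero, mul_add, Finset.sum_add_distrib, Finset.mul_sum]
            congr 1
            · exact Finset.sum_congr rfl fun l _ => by ring
            · exact Finset.sum_congr rfl fun l _ => by ring
        rw [e2, B_sum, Finset.mul_sum]
        refine Finset.sum_congr rfl fun l _ => ?_
        rw [H_succ_cons, B_mul, pow_succ]
        field_simp
      rw [e1]
      have e3 : B 0 c (fun x => ∑ l ∈ Finset.range (m + 1), H 0 y l (a :: p) x / ρ ^ l +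
            y * ∑ l ∈ Finset.range (m + 1), H 0 y l (a :: p ++ [x]) x / ρ ^ l +
            (if x = a then ∑ l ∈ Finset.range (m + 1), H 0 y l p x / ρ ^ l +
              y * ∑ l ∈ Finset.range (m + 1), H 0 y l (p ++ [x]) x / ρ ^ l else 0)) ≤
          B 0 c (fun x => R ^ (p.length + 1) + y * R ^ (p.length + 2) +
            (if x = a then R ^ p.length + y * R ^ (p.length + 1) else 0)) := by
        apply B_mono le_rfl zero_le_one
        intro x
        have a1 := ih (a :: p) x
        have a2 := ih (a :: p ++ [x]) x
        have a3 := ih p x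
        have a4 := ih (p ++ [x]) x
        simp only [List.length_cons, List.length_append, List.length_nil, zero_add] at a1 a2 a3 a4
        have b2 := mul_le_mul_of_nonneg_left a2 hy
        have b4 := mul_le_mul_of_nonneg_left a4 hy
        by_cases hx : x = a
        · simp only [if_pos hx]
          have : R ^ (p.length + 1 + 1) = R ^ (p.length + 2) := rfl
          linarith
        · simp only [if_neg hx]
          have : R ^ (p.length + 1 + 1) = R ^ (p.length + 2) := rfl
          linarith
      have e4 : B 0 c (fun x => R ^ (p.length + 1) + y * R ^ (p.length + 2) +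
            (if x = a then R ^ p.length + y * R ^ (p.length + 1) else 0)) =
          R ^ (p.length + 1) * (1 + y / 2 + y * R + 1 / (2 * R)) := by
        unfold B
        cases a <;> simp <;> field_simp <;> ring
      rw [e4] at e3
      rw [List.length_cons]
      have hRk : 0 < R ^ (p.length + 1) := by positivity
      calc (1 / ρ) * _ ≤ (1 / ρ) * (R ^ (p.length + 1) * (1 + y / 2 + y * R + 1 / (2 * R))) :=
            mul_le_mul_of_nonneg_left e3 (by positivity)
        _ ≤ (1 / ρ) * (R ^ (p.length + 1) * ρ) := by
            apply mul_le_mul_of_nonneg_left _ (by positivity)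
            exact mul_le_mul_of_nonneg_left hfin hRk.le
        _ = R ^ (p.length + 1) := by field_simp

end Pool.Agent.H96.Planted
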