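import Pool.Agent.H96.PlantedA

set_option autoImplicit false

namespace Pool.Agent.H96.Planted

lemma S_eq_zero {n : ℕ} {φ : List Bool → ℝ} (h : ∀ X, X.length = n → φ X = 0) : S n φ = 0 := by
  rw [← S_zero_fun n]
  exact S_congr h

/-- selected subword -/
def sel : List Bool → List Bool → List Bool
  | b :: s, x :: X => if b then x :: sel s X else sel s X
  | _, _ => []

/-- letterwise xor -/
def xr (X Y : List Bool) : List Bool := List.zipWith xor X Y

lemma xr_cons (x y : Bool) (X Y : List Bool) : xr (x :: X) (y :: Y) = xor x y :: xr X Y := rfl

lemma xr_self_cancel : ∀ (h X : List Bool), h.length = X.length → xr h (xr h X) = X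
  | [], [], _ => rfl
  | [], _ :: _, h => by simp at h
  | _ :: _, [], h => by simp at h
  | a :: h, x :: X, hl => by
    rw [xr_cons, xr_cons, xr_self_cancel h X (by simpa using hl)]
    cases a <;> cases x <;> rfl

lemma xr_length (h X : List Bool) (hl : h.length = X.length) : (xr h X).length = X.length := by
  unfold xr; simp [hl]

lemma S_xr (n : ℕ) (φ : List Bool → ℝ) (h : List Bool) (hh : h.length = n) :
    S n (fun X => φ (xr h X)) = S n φ := by
  induction n generalizing φ h with
  | zero =>
    have : h = [] := List.length_eq_zero_iff.mp hh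
    subst this
    rfl
  | succ n ih =>
    cases h with
    | nil => simp at hh
    | cons a h =>
      have hl : h.length = n := by simpa using hh
      rw [S_succ, S_succ]
      simp only [xr_cons]
      rw [ih (fun X => φ (xor a false :: X)) h hl, ih (fun X => φ (xor a true :: X)) h hl]
      cases a
      · simp
      · simp [add_comm]

lemma sel_xr : ∀ (s X Y : List Bool), X.length = Y.length →
    sel s (xr X Y) = xr (sel s X) (sel s Y)
  | [], X, Y, _ => by simp [sel, xr]
  | b :: s, [], [], _ => by simp [sel, xr]
  | b :: s, [], _ :: _, h => by simp at h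
  | b :: s, _ :: _, [], h => by simp at h
  | b :: s, x :: X, y :: Y, h => by
    have hl : X.length = Y.length := by simpa using h
    rw [xr_cons]
    cases b
    · simp only [sel]
      simpa using sel_xr s X Y hl
    · simp only [sel, if_true]
      rw [xr_cons, sel_xr s X Y hl]

/-- characters -/
def a : List Bool → Bool → List Bool → ℝ
  | b :: m, c, x :: X => (if b then e c x else 1) * a m x X
  | _, _, _ => 1

lemma a_xr : ∀ (m : List Bool) (c c' : Bool) (X Y : List Bool), X.length = Y.length →
    a m (xor c c') (xr X Y) = a m c X * a m c' Y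
  | [], c, c', X, Y, _ => by simp [a]
  | b :: m, c, c', [], [], _ => by simp [a, xr]
  | b :: m, _, _, [], _ :: _, h => by simp at h
  | b :: m, _, _, _ :: _, [], h => by simp at h
  | b :: m, c, c', x :: X, y :: Y, h => by
    have hl : X.length = Y.length := by simpa using h
    rw [xr_cons]
    simp only [a]
    rw [a_xr m x y X Y hl]
    cases b
    · simp
    · simp only [if_true]
      rw [e_xor]; ring

lemma a_sq : ∀ (m : List Bool) (c : Bool) (X : List Bool), a m c X = 1 ∨ a m c X = -1
  | [], c, X => by simp [a]
  | b :: m, c, [] => by simp [a]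
  | b :: m, c, x :: X => by
    simp only [a]
    have h := a_sq m x X
    have h2 : (if b then e c x else 1) = 1 ∨ (if b then e c x else 1) = -1 := by
      unfold e
      split_ifs <;> simp
    rcases h with h | h <;> rcases h2 with h2 | h2 <;> rw [h, h2] <;> simp

open Classical in
/-- positivity: sum of a character over a subgroup -/
lemma char_sum_nonneg (n : ℕ) (s s' m : List Bool) :
    0 ≤ S n (fun X => (if [false] ++ sel s X = sel s' X then (1 : ℝ) else 0) * a m false X) := by
  set C : List Bool → Prop := fun X => [false] ++ sel s X = sel s' X with hC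
  have hclosed : ∀ h X : List Bool, h.length = X.length → C h → C X → C (xr h X) := by
    intro h X hl h1 h2
    simp only [hC] at *
    rw [sel_xr s h X hl, sel_xr s' h X hl, ← h1, ← h2]
    simp [xr]
  by_cases hex : ∃ h : List Bool, h.length = n ∧ C h ∧ a m false h = -1
  · obtain ⟨h, hn, hCh, hah⟩ := hex
    have key : S n (fun X => (if C X then (1 : ℝ) else 0) * a m false X) =
        - S n (fun X => (if C X then (1 : ℝ) else 0) * a m false X) := by
      conv_lhs => rw [← S_xr n _ h hn]
      rw [← S_neg]
      refine S_congr fun X hX => ?_
      have hl : h.length = X.length := by rw [hn, hX]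
      have e1 : a m false (xr h X) = - a m false X := by
        have := a_xr m false false h X hl
        simp only [Bool.xor_false] at this
        rw [this, hah]; ring
      have e2 : C (xr h X) ↔ C X := by
        constructor
        · intro hc
          have := hclosed h (xr h X) (by rw [xr_length h X hl, hl]) hCh hc
          rwa [xr_self_cancel h X hl] at this
        · exact hclosed h X hl hCh
      rw [e1]
      by_cases hc : C X
      · rw [if_pos hc, if_pos (e2.mpr hc)]; ring
      · rw [if_neg hc, if_neg (fun h' => hc (e2.mp h'))]; ring
    have : S n (fun X => (if C X then (1 : ℝ) else 0) * a m false X) = 0 := by linarith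
    exact le_of_eq this.symm
  · push Not at hex
    apply S_nonneg
    intro X hX
    by_cases hc : C X
    · have h1 : a m false X = 1 := by
        rcases a_sq m false X with h | h
        · exact h
        · exact absurd h (hex X hX hc)
      rw [h1, mul_one]
      split_ifs <;> norm_num
    · rw [if_neg hc, zero_mul]

/-- weights of mask pairs with the first-hitting constraint -/
noncomputable def A (y : ℝ) : List Bool → List Bool → ℕ → ℝ
  | [], [], 0 => 1
  | b :: s, b' :: s', k + 1 =>
      (if b then y else 1) * A y s s' (k + 1 + b.toNat - b'.toNat)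
  | _, _, _ => 0

lemma A_nonneg {y : ℝ} (hy : 0 ≤ y) : ∀ (s s' : List Bool) (k : ℕ), 0 ≤ A y s s' k
  | [], [], 0 => by simp [A]
  | [], [], k + 1 => by simp [A]
  | [], _ :: _, _ => by simp [A]
  | _ :: _, [], _ => by simp [A]
  | _ :: _, _ :: _, 0 => by simp [A]
  | b :: s, b' :: s', k + 1 => by
    simp only [A]
    apply mul_nonneg _ (A_nonneg hy s s' _)
    split_ifs <;> linarith

open Classical in
/-- mask representation of the first-hitting partition function -/
lemma E_mask (y : ℝ) : ∀ (X p : List Bool),
    E y X p = S X.length (fun s => S X.length (fun s' =>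
      A y s s' p.length * (if p ++ sel s X = sel s' X then 1 else 0))) := by
  intro X
  induction X with
  | nil =>
    intro p
    cases p with
    | nil => simp [E, S_zero, A, sel]
    | cons b p => simp [E, S_zero, A]
  | cons x X ih =>
    intro p
    cases p with
    | nil =>
      simp only [E, List.length_cons, List.length_nil, S_succ]
      simp [A, S_zero_fun]
    | cons b p =>
      simp only [E, List.length_cons, S_succ]
      have t00 : S X.length (fun s => S X.length (fun s' =>
          A y (false :: s) (false :: s') (p.length + 1) *
            (if b :: p ++ sel (false :: s) (x :: X) = sel (false :: s') (x :: X) then 1 else 0))) =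
          E y X (b :: p) := by
        rw [ih (b :: p)]
        refine S_congr fun s _ => S_congr fun s' _ => ?_
        simp [A, sel]
      have t10 : S X.length (fun s => S X.length (fun s' =>
          A y (true :: s) (false :: s') (p.length + 1) *
            (if b :: p ++ sel (true :: s) (x :: X) = sel (false :: s') (x :: X) then 1 else 0))) =
          y * E y X (b :: p ++ [x]) := by
        rw [ih (b :: p ++ [x]), ← S_mul_left]
        refine S_congr fun s _ => ?_
        rw [← S_mul_left]
        refine S_congr fun s' _ => ?_
        simp [A, sel]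
      have t01 : S X.length (fun s => S X.length (fun s' =>
          A y (false :: s) (true :: s') (p.length + 1) *
            (if b :: p ++ sel (false :: s) (x :: X) = sel (true :: s') (x :: X) then 1 else 0))) =
          if x = b then E y X p else 0 := by
        by_cases hx : x = b
        · subst hx
          rw [if_pos rfl, ih p]
          refine S_congr fun s _ => S_congr fun s' _ => ?_
          simp [A, sel]
        · rw [if_neg hx]
          apply S_eq_zero
          intro s _
          apply S_eq_zero
          intro s' _
          have : b ≠ x := fun h => hx h.symm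
          simp [sel, this]
      have t11 : S X.length (fun s => S X.length (fun s' =>
          A y (true :: s) (true :: s') (p.length + 1) *
            (if b :: p ++ sel (true :: s) (x :: X) = sel (true :: s') (x :: X) then 1 else 0))) =
          if x = b then y * E y X (p ++ [x]) else 0 := by
        by_cases hx : x = b
        · subst hx
          rw [if_pos rfl, ih (p ++ [x]), ← S_mul_left]
          refine S_congr fun s _ => ?_
          rw [← S_mul_left]
          refine S_congr fun s' _ => ?_
          simp [A, sel]
        · rw [if_neg hx]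
          apply S_eq_zero
          intro s _
          apply S_eq_zero
          intro s' _
          have : b ≠ x := fun h => hx h.symm
          simp [sel, this]
      rw [S_add, S_add, t00, t10, t01, t11]
      split_ifs <;> ring

/-- number of `true`s, as an exponent -/
def cnt (m : List Bool) : ℕ := m.count true

lemma G_expand (θ : ℝ) : ∀ (X : List Bool) (c : Bool),
    G θ c X = S X.length (fun m => (-θ) ^ cnt m * a m c X) := by
  intro X
  induction X with
  | nil => intro c; simp [G, S_zero, cnt, a]
  | cons x X ih =>
    intro c
    simp only [G, List.length_cons, S_succ]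
    have t0 : S X.length (fun m => (-θ) ^ cnt (false :: m) * a (false :: m) c (x :: X)) = G θ x X := by
      rw [ih x]
      refine S_congr fun m _ => ?_
      simp [cnt, a]
    have t1 : S X.length (fun m => (-θ) ^ cnt (true :: m) * a (true :: m) c (x :: X)) =
        - θ * e c x * G θ x X := by
      rw [ih x, ← S_mul_left]
      refine S_congr fun m _ => ?_
      simp only [cnt, a, List.count_cons_self, pow_succ, if_true]
      ring
    rw [t0, t1]; ring

lemma S_pow_cnt (n : ℕ) (t : ℝ) : S n (fun m => t ^ cnt m) = (1 + t) ^ n := by
  induction n with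
  | zero => simp [S_zero, cnt]
  | succ n ih =>
    rw [S_succ]
    have t0 : S n (fun m => t ^ cnt (false :: m)) = (1 + t) ^ n := by
      rw [← ih]; exact S_congr fun m _ => by simp [cnt]
    have t1 : S n (fun m => t ^ cnt (true :: m)) = t * (1 + t) ^ n := by
      rw [← ih, ← S_mul_left]
      exact S_congr fun m _ => by simp [cnt, pow_succ, mul_comm]
    rw [t0, t1, pow_succ]; ring

lemma a_le_one (m : List Bool) (c : Bool) (X : List Bool) : a m c X ≤ 1 := by
  rcases a_sq m c X with h | h <;> rw [h]; norm_num

/-- The even-part bound. -/
lemma H_le_even_false {θ y : ℝ} (h0 : 0 ≤ θ) (hy : 0 ≤ y) (n : ℕ) :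
    H θ y n [false] false ≤ ((1 + θ) ^ n + (1 - θ) ^ n) / 2 * H 0 y n [false] false := by
  classical
  set α : List Bool → ℝ := fun m => S n (fun X => E y X [false] * a m false X) / 2 ^ n with hα
  have hα0 : ∀ m, 0 ≤ α m := by
    intro m
    apply div_nonneg _ (by positivity)
    have e1 : S n (fun X => E y X [false] * a m false X) =
        S n (fun s => S n (fun s' => A y s s' 1 *
          S n (fun X => (if [false] ++ sel s X = sel s' X then (1 : ℝ) else 0) * a m false X))) := by
      have e2 : S n (fun X => E y X [false] * a m false X) =
          S n (fun X => S n (fun s => S n (fun s' =>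
            A y s s' 1 * ((if [false] ++ sel s X = sel s' X then (1 : ℝ) else 0) * a m false X)))) := by
        refine S_congr fun X hX => ?_
        rw [E_mask, hX, ← S_mul_right]
        refine S_congr fun s _ => ?_
        rw [← S_mul_right]
        refine S_congr fun s' _ => ?_
        simp only [List.length_cons, List.length_nil, zero_add]
        ring
      rw [e2, S_comm]
      refine S_congr fun s _ => ?_
      rw [S_comm]
      refine S_congr fun s' _ => ?_
      rw [S_mul_left]
    rw [e1]
    exact S_nonneg fun s _ => S_nonneg fun s' _ =>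
      mul_nonneg (A_nonneg hy _ _ _) (char_sum_nonneg n s s' m)
  have hH0 : H 0 y n [false] false = S n (fun X => E y X [false]) / 2 ^ n := by
    unfold H
    congr 1
    refine S_congr fun X _ => ?_
    have : ∀ (c : Bool) (X : List Bool), G 0 c X = 1 := by
      intro c X
      induction X generalizing c with
      | nil => rfl
      | cons x X ih => simp [G, ih]
    rw [this, one_mul]
  have hα1 : ∀ m, α m ≤ H 0 y n [false] false := by
    intro m
    rw [hH0]
    apply div_le_div_of_nonneg_right _ (by positivity)
    refine S_mono fun X _ => ?_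
    have h1 := E_nonneg hy X [false]
    have h2 := a_le_one m false X
    nlinarith
  have hH : H θ y n [false] false = S n (fun m => (-θ) ^ cnt m * α m) := by
    unfold H
    have e2 : S n (fun X => G θ false X * E y X [false]) =
        S n (fun m => (-θ) ^ cnt m * S n (fun X => E y X [false] * a m false X)) := by
      have : S n (fun X => G θ false X * E y X [false]) =
          S n (fun X => S n (fun m => (-θ) ^ cnt m * (E y X [false] * a m false X))) := by
        refine S_congr fun X hX => ?_
        rw [G_expand, hX, ← S_mul_right]
        exact S_congr fun m _ => by ring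
      rw [this, S_comm]
      exact S_congr fun m _ => S_mul_left _ _ _
    rw [e2, div_eq_mul_inv, ← S_mul_right]
    refine S_congr fun m _ => ?_
    simp only [hα, div_eq_mul_inv]; ring
  rw [hH]
  have hb : ∀ m : List Bool, (-θ) ^ cnt m * α m ≤
      (θ ^ cnt m + (-θ) ^ cnt m) / 2 * H 0 y n [false] false := by
    intro m
    rcases Nat.even_or_odd (cnt m) with he | ho
    · rw [he.neg_pow]
      have : 0 ≤ θ ^ cnt m := by positivity
      have := mul_le_mul_of_nonneg_left (hα1 m) this
      linarith
    · rw [ho.neg_pow]
      have h1 : 0 ≤ θ ^ cnt m := by positivity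
      have := mul_nonneg h1 (hα0 m)
      linarith
  refine le_trans (S_mono fun m _ => hb m) (le_of_eq ?_)
  rw [S_mul_right]
  congr 1
  have : S n (fun m => (θ ^ cnt m + (-θ) ^ cnt m) / 2) =
      S n (fun m => (1 / 2) * θ ^ cnt m + (1 / 2) * (-θ) ^ cnt m) :=
    S_congr fun m _ => by ring
  rw [this, S_add, S_mul_left, S_mul_left, S_pow_cnt, S_pow_cnt]
  ring

/-- flip symmetry -/
lemma H_flip (θ y : ℝ) (n : ℕ) (p : List Bool) (c : Bool) :
    H θ y n (p.map not) (!c) = H θ y n p c := by
  induction n generalizing p c with
  | zero => rw [H_zero, H_zero]; simp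
  | succ n ih =>
    cases p with
    | nil => rw [List.map_nil, H_succ_nil, H_succ_nil]
    | cons b p =>
      rw [List.map_cons, H_succ_cons, H_succ_cons]
      have key : ∀ x : Bool, (H θ y n ((!b) :: p.map not) (!x) +
          y * H θ y n ((!b) :: p.map not ++ [!x]) (!x) +
          (if (!x) = (!b) then H θ y n (p.map not) (!x) +
            y * H θ y n (p.map not ++ [!x]) (!x) else 0)) =
          (H θ y n (b :: p) x + y * H θ y n (b :: p ++ [x]) x +
          (if x = b then H θ y n p x + y * H θ y n (p ++ [x]) x else 0)) := by
        intro x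
        have e1 : (!b) :: p.map not = (b :: p).map not := rfl
        have e2 : (!b) :: p.map not ++ [!x] = (b :: p ++ [x]).map not := by simp
        have e3 : p.map not ++ [!x] = (p ++ [x]).map not := by simp
        rw [e2, e1, e3, ih, ih, ih, ih]
        congr 1
        cases x <;> cases b <;> simp
      unfold B
      have k1 := key true
      have k2 := key false
      simp only [Bool.not_true, Bool.not_false] at k1 k2
      beta_reduce
      rw [k1, k2]
      cases c <;> simp [e] <;> ring

lemma H_single_flip (θ y : ℝ) (n : ℕ) (x : Bool) : H θ y n [x] x = H θ y n [false] false := by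
  cases x
  · rfl
  · exact H_flip θ y n [false] false

lemma H_le_even {θ y : ℝ} (h0 : 0 ≤ θ) (hy : 0 ≤ y) (n : ℕ) (x : Bool) :
    H θ y n [x] x ≤ ((1 + θ) ^ n + (1 - θ) ^ n) / 2 * H 0 y n [x] x := by
  rw [H_single_flip θ, H_single_flip 0]
  exact H_le_even_false h0 hy n

lemma H_one (θ y : ℝ) (x : Bool) : H θ y 1 [x] x = (1 - θ) / 2 := by
  rw [H_succ_cons]
  simp only [H_zero]
  unfold B
  cases x <;> simp [e]

/-- generating function bound for `θ > 0` -/
lemma H_sum_le {θ y ρ R₁ R₂ : ℝ} (h0 : 0 ≤ θ) (h1 : θ < 1) (hy : 0 ≤ y) (hρ : 0 < ρ)
    (hR₁ : 0 < R₁) (hR₂ : 0 < R₂)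
    (hf₁ : 1 + y / 2 + y * R₁ + 1 / (2 * R₁) ≤ ρ / (1 + θ))
    (hf₂ : 1 + y / 2 + y * R₂ + 1 / (2 * R₂) ≤ ρ / (1 - θ)) (hbig : θ / (2 * ρ) ≤ (R₁ + R₂) / 2)
    (m : ℕ) (x : Bool) :
    ∑ l ∈ Finset.range (m + 1), H θ y l [x] x / ρ ^ l ≤ (R₁ + R₂) / 2 - θ / (2 * ρ) := by
  have hpos1 : 0 < 1 + θ := by linarith
  have hpos2 : 0 < 1 - θ := by linarith
  cases m with
  | zero =>
    simp only [zero_add, Finset.range_one, Finset.sum_singleton, H_zero, pow_zero, div_one]
    simp only [List.cons_ne_self, if_false]
    simp
    linarith
  | succ m =>
    have s1 := H0_sum_le hy hR₁ (div_pos hρ hpos1) hf₁ (m + 1) [x] x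
    have s2 := H0_sum_le hy hR₂ (div_pos hρ hpos2) hf₂ (m + 1) [x] x
    simp only [List.length_cons, List.length_nil, zero_add, pow_one] at s1 s2
    have key : ∑ l ∈ Finset.range (m + 1 + 1), H θ y l [x] x / ρ ^ l ≤
        ∑ l ∈ Finset.range (m + 1 + 1), ((1 / 2) * (H 0 y l [x] x / (ρ / (1 + θ)) ^ l) +
          (1 / 2) * (H 0 y l [x] x / (ρ / (1 - θ)) ^ l) - (if l = 1 then θ / (2 * ρ) else 0)) := by
      apply Finset.sum_le_sum
      intro l _
      have e1 : (1 / 2) * (H 0 y l [x] x / (ρ / (1 + θ)) ^ l) +
          (1 / 2) * (H 0 y l [x] x / (ρ / (1 - θ)) ^ l) =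
          (((1 + θ) ^ l + (1 - θ) ^ l) / 2 * H 0 y l [x] x) / ρ ^ l := by
        rw [div_pow, div_pow]
        field_simp
      rw [e1]
      by_cases hl : l = 1
      · subst hl
        rw [if_pos rfl, H_one, H_one]
        apply le_of_eq
        field_simp
        ring
      · rw [if_neg hl, sub_zero]
        exact div_le_div_of_nonneg_right (H_le_even h0 hy l x) (by positivity)
    refine le_trans key ?_
    rw [Finset.sum_sub_distrib, Finset.sum_add_distrib, ← Finset.mul_sum, ← Finset.mul_sum,
      Finset.sum_ite_eq']
    rw [if_pos (by simp)]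
    linarith

end Pool.Agent.H96.Planted
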