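import Pool.Agent.H96.PlantedB

set_option autoImplicit false

open Filter Topology

namespace Pool.Agent.H96.Planted

/-- the small root `R` of `1 + y/2 + y R + 1/(2R) = ρ` -/
noncomputable def Rf (y ρ : ℝ) : ℝ :=
  ((ρ - 1 - y / 2) - Real.sqrt ((ρ - 1 - y / 2) ^ 2 - 2 * y)) / (2 * y)

lemma Rf_spec {y ρ : ℝ} (hy : 0 < y) (h1 : 0 < ρ - 1 - y / 2)
    (h2 : 0 < (ρ - 1 - y / 2) ^ 2 - 2 * y) :
    0 < Rf y ρ ∧ 1 + y / 2 + y * Rf y ρ + 1 / (2 * Rf y ρ) = ρ := by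
  set b := ρ - 1 - y / 2 with hb
  set s := Real.sqrt (b ^ 2 - 2 * y) with hs
  have hs2 : s ^ 2 = b ^ 2 - 2 * y := Real.sq_sqrt h2.le
  have hs0 : 0 ≤ s := Real.sqrt_nonneg _
  have hsb : s < b := by
    apply lt_of_pow_lt_pow_left₀ 2 h1.le
    rw [hs2]; linarith
  have hR : Rf y ρ = (b - s) / (2 * y) := rfl
  have hpos : 0 < Rf y ρ := by rw [hR]; apply div_pos <;> linarith
  refine ⟨hpos, ?_⟩
  have hbs : b - s ≠ 0 := by linarith
  have e : y * Rf y ρ + 1 / (2 * Rf y ρ) = b := by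
    rw [hR]
    field_simp
    nlinarith
  have : ρ = b + 1 + y / 2 := by rw [hb]; ring
  linarith

lemma exists_tilt {q : ℝ} (hq : 1 < q) :
    ∃ θ ρ : ℝ, 0 < θ ∧ θ ≤ 1 / 2 ∧ 0 < ρ ∧ Real.log ρ + θ ^ 2 < Real.log (2 * q - 1) ∧
      ∀ (n : ℕ) (c : Bool), U θ (2 * (q - 1) ^ 2 / q) n [] c ≤ ρ ^ n := by
  have hq0 : 0 < q := by linarith
  have hq1 : 0 < q - 1 := by linarith
  set y := 2 * (q - 1) ^ 2 / q with hy
  have hypos : 0 < y := by positivity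
  set ρ₀ := 2 * q - 1 with hρ₀
  have hρ₀pos : 0 < ρ₀ := by rw [hρ₀]; linarith
  have hb : ρ₀ - 1 - y / 2 = (q - 1) * (q + 1) / q := by
    rw [hρ₀, hy]; field_simp; ring
  have hbpos : 0 < ρ₀ - 1 - y / 2 := by rw [hb]; positivity
  have hdisc : (ρ₀ - 1 - y / 2) ^ 2 - 2 * y = ((q - 1) ^ 2 / q) ^ 2 := by
    rw [hb, hy]; field_simp; ring
  have hdiscpos : 0 < (ρ₀ - 1 - y / 2) ^ 2 - 2 * y := by rw [hdisc]; positivity
  have hR₀ : Rf y ρ₀ = 1 / (2 * (q - 1)) := by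
    unfold Rf
    rw [hdisc, Real.sqrt_sq (by positivity), hb, hy]
    field_simp
    ring
  -- differentiability
  have hdiff : DifferentiableAt ℝ (Rf y) ρ₀ := by
    unfold Rf
    apply DifferentiableAt.div_const
    apply DifferentiableAt.sub
    · exact ((differentiableAt_id.sub_const _).sub_const _)
    · apply DifferentiableAt.sqrt
      · exact (((differentiableAt_id.sub_const _).sub_const _).pow 2).sub_const _
      · exact ne_of_gt hdiscpos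
  obtain ⟨r', hr'⟩ : ∃ r', HasDerivAt (Rf y) r' ρ₀ := ⟨_, hdiff.hasDerivAt⟩
  -- choice of κ
  obtain ⟨κ, hκ, hκ2⟩ : ∃ κ : ℝ, 0 < κ ∧ κ * ρ₀ * (1 + 2 * y * |r'|) < y / ρ₀ := by
    refine ⟨y / (2 * ρ₀ ^ 2 * (1 + 2 * y * |r'|)), by positivity, ?_⟩
    have h : y / (2 * ρ₀ ^ 2 * (1 + 2 * y * |r'|)) * ρ₀ * (1 + 2 * y * |r'|) = y / ρ₀ / 2 := by
      have : 1 + 2 * y * |r'| ≠ 0 := by positivity
      field_simp
    rw [h]
    have : 0 < y / ρ₀ := by positivity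
    linarith
  -- the curve ρ(θ)
  have hcurve : HasDerivAt (fun θ : ℝ => ρ₀ * (1 - κ * θ)) (-(κ * ρ₀)) 0 := by
    have h1 : HasDerivAt (fun θ : ℝ => 1 - κ * θ) (-(κ * 1)) 0 := by
      simpa using ((hasDerivAt_id (0 : ℝ)).const_mul κ).const_sub 1
    exact (h1.const_mul ρ₀).congr_deriv (by ring)
  have hc1 : HasDerivAt (fun θ : ℝ => ρ₀ * (1 - κ * θ) / (1 + θ)) (-(κ * ρ₀) - ρ₀) 0 := by
    have h1 : HasDerivAt (fun θ : ℝ => 1 + θ) 1 0 := by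
      simpa using (hasDerivAt_id (0 : ℝ)).const_add 1
    exact (hcurve.fun_div h1 (by norm_num)).congr_deriv (by norm_num)
  have hc2 : HasDerivAt (fun θ : ℝ => ρ₀ * (1 - κ * θ) / (1 - θ)) (-(κ * ρ₀) + ρ₀) 0 := by
    have h1 : HasDerivAt (fun θ : ℝ => 1 - θ) (-1) 0 := by
      simpa using (hasDerivAt_id (0 : ℝ)).const_sub 1
    exact (hcurve.fun_div h1 (by norm_num)).congr_deriv (by norm_num)
  have hv1 : ρ₀ * (1 - κ * 0) / (1 + 0) = ρ₀ := by simp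
  have hv2 : ρ₀ * (1 - κ * 0) / (1 - 0) = ρ₀ := by simp
  have hd1 : HasDerivAt (fun θ : ℝ => Rf y (ρ₀ * (1 - κ * θ) / (1 + θ))) (r' * (-(κ * ρ₀) - ρ₀)) 0 := by
    have hr1 : HasDerivAt (Rf y) r' (ρ₀ * (1 - κ * 0) / (1 + 0)) := by rw [hv1]; exact hr'
    exact HasDerivAt.comp (0 : ℝ) hr1 hc1
  have hd2 : HasDerivAt (fun θ : ℝ => Rf y (ρ₀ * (1 - κ * θ) / (1 - θ))) (r' * (-(κ * ρ₀) + ρ₀)) 0 := by
    have hr1 : HasDerivAt (Rf y) r' (ρ₀ * (1 - κ * 0) / (1 - 0)) := by rw [hv2]; exact hr'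
    exact HasDerivAt.comp (0 : ℝ) hr1 hc2
  have hd3 : HasDerivAt (fun θ : ℝ => y * θ / (ρ₀ * (1 - κ * θ))) (y / ρ₀) 0 := by
    have h1 : HasDerivAt (fun θ : ℝ => y * θ) y 0 := by
      simpa using (hasDerivAt_id (0 : ℝ)).const_mul y
    exact (h1.fun_div hcurve (by simpa using hρ₀pos.ne')).congr_deriv (by simp; field_simp)
  set D : ℝ → ℝ := fun θ => 1 + y + y * (Rf y (ρ₀ * (1 - κ * θ) / (1 + θ)) +
    Rf y (ρ₀ * (1 - κ * θ) / (1 - θ))) - y * θ / (ρ₀ * (1 - κ * θ)) - ρ₀ * (1 - κ * θ) with hD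
  have hDderiv : HasDerivAt D (y * (r' * (-(κ * ρ₀) - ρ₀) + r' * (-(κ * ρ₀) + ρ₀)) - y / ρ₀ -
      -(κ * ρ₀)) 0 := by
    exact ((((hd1.add hd2).const_mul y).const_add (1 + y)).sub hd3).sub hcurve
  have hneg : y * (r' * (-(κ * ρ₀) - ρ₀) + r' * (-(κ * ρ₀) + ρ₀)) - y / ρ₀ - -(κ * ρ₀) < 0 := by
    have h1 : -r' ≤ |r'| := neg_le_abs r'
    have h2 : 0 < κ * ρ₀ * y := by positivity
    nlinarith
  have hD0 : D 0 = 0 := by
    simp only [hD, hv1, hv2, hR₀]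
    rw [hy, hρ₀]
    field_simp
    ring
  -- small θ with D θ < 0
  have hev : ∀ᶠ θ in 𝓝[>] (0 : ℝ), D θ < 0 := by
    have h1 := hasDerivAt_iff_tendsto_slope.mp hDderiv
    have h2 : ∀ᶠ θ in 𝓝[≠] (0 : ℝ), slope D 0 θ < 0 := h1.eventually (gt_mem_nhds hneg)
    have h3 : 𝓝[>] (0 : ℝ) ≤ 𝓝[≠] (0 : ℝ) := nhdsWithin_mono _ (fun x hx => ne_of_gt hx)
    filter_upwards [h3 h2, self_mem_nhdsWithin] with θ hθ hpos
    rw [slope_def_field, hD0, sub_zero, sub_zero] at hθ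
    have hpos' : (0 : ℝ) < θ := hpos
    by_contra hcon
    push Not at hcon
    have : 0 ≤ D θ / θ := div_nonneg hcon hpos'.le
    linarith
  -- other eventual conditions
  have hle : 𝓝[>] (0 : ℝ) ≤ 𝓝 (0 : ℝ) := nhdsWithin_le_nhds
  have ec1 : ∀ᶠ θ in 𝓝 (0 : ℝ), 0 < ρ₀ * (1 - κ * θ) / (1 + θ) - 1 - y / 2 := by
    have hc : ContinuousAt (fun θ : ℝ => ρ₀ * (1 - κ * θ) / (1 + θ) - 1 - y / 2) 0 :=
      (hc1.continuousAt.sub continuousAt_const).sub continuousAt_const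
    have : (0 : ℝ) < (fun θ : ℝ => ρ₀ * (1 - κ * θ) / (1 + θ) - 1 - y / 2) 0 := by
      simp only [hv1]; exact hbpos
    exact hc.eventually (lt_mem_nhds this)
  have ec2 : ∀ᶠ θ in 𝓝 (0 : ℝ), 0 < ρ₀ * (1 - κ * θ) / (1 - θ) - 1 - y / 2 := by
    have hc : ContinuousAt (fun θ : ℝ => ρ₀ * (1 - κ * θ) / (1 - θ) - 1 - y / 2) 0 :=
      (hc2.continuousAt.sub continuousAt_const).sub continuousAt_const
    have : (0 : ℝ) < (fun θ : ℝ => ρ₀ * (1 - κ * θ) / (1 - θ) - 1 - y / 2) 0 := by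
      simp only [hv2]; exact hbpos
    exact hc.eventually (lt_mem_nhds this)
  have ed1 : ∀ᶠ θ in 𝓝 (0 : ℝ), 0 < (ρ₀ * (1 - κ * θ) / (1 + θ) - 1 - y / 2) ^ 2 - 2 * y := by
    have hc : ContinuousAt (fun θ : ℝ => (ρ₀ * (1 - κ * θ) / (1 + θ) - 1 - y / 2) ^ 2 - 2 * y) 0 :=
      (((hc1.continuousAt.sub continuousAt_const).sub continuousAt_const).pow 2).sub
        continuousAt_const
    have : (0 : ℝ) < (fun θ : ℝ => (ρ₀ * (1 - κ * θ) / (1 + θ) - 1 - y / 2) ^ 2 - 2 * y) 0 := by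
      simp only [hv1]; exact hdiscpos
    exact hc.eventually (lt_mem_nhds this)
  have ed2 : ∀ᶠ θ in 𝓝 (0 : ℝ), 0 < (ρ₀ * (1 - κ * θ) / (1 - θ) - 1 - y / 2) ^ 2 - 2 * y := by
    have hc : ContinuousAt (fun θ : ℝ => (ρ₀ * (1 - κ * θ) / (1 - θ) - 1 - y / 2) ^ 2 - 2 * y) 0 :=
      (((hc2.continuousAt.sub continuousAt_const).sub continuousAt_const).pow 2).sub
        continuousAt_const
    have : (0 : ℝ) < (fun θ : ℝ => (ρ₀ * (1 - κ * θ) / (1 - θ) - 1 - y / 2) ^ 2 - 2 * y) 0 := by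
      simp only [hv2]; exact hdiscpos
    exact hc.eventually (lt_mem_nhds this)
  have eb : ∀ᶠ θ in 𝓝 (0 : ℝ), 0 < (Rf y (ρ₀ * (1 - κ * θ) / (1 + θ)) +
      Rf y (ρ₀ * (1 - κ * θ) / (1 - θ))) / 2 - θ / (2 * (ρ₀ * (1 - κ * θ))) := by
    have hc : ContinuousAt (fun θ : ℝ => (Rf y (ρ₀ * (1 - κ * θ) / (1 + θ)) +
      Rf y (ρ₀ * (1 - κ * θ) / (1 - θ))) / 2 - θ / (2 * (ρ₀ * (1 - κ * θ)))) 0 := by
      apply ContinuousAt.sub
      · exact (hd1.continuousAt.add hd2.continuousAt).div_const 2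
      · apply ContinuousAt.div continuousAt_id (continuousAt_const.mul hcurve.continuousAt)
        simp; exact hρ₀pos.ne'
    have : (0 : ℝ) < (fun θ : ℝ => (Rf y (ρ₀ * (1 - κ * θ) / (1 + θ)) +
      Rf y (ρ₀ * (1 - κ * θ) / (1 - θ))) / 2 - θ / (2 * (ρ₀ * (1 - κ * θ)))) 0 := by
      simp only [hv1, hv2, hR₀]
      rw [zero_div, sub_zero]
      positivity
    exact hc.eventually (lt_mem_nhds this)
  have hsmall : ∀ᶠ θ in 𝓝 (0 : ℝ), θ < min (1 / 2) (min κ (1 / (2 * κ))) :=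
    gt_mem_nhds (by positivity)
  obtain ⟨θ, h1, h2, h3, h4, h5, h6, h7, h8⟩ := (hev.and ((ec1.filter_mono hle).and
    ((ec2.filter_mono hle).and ((ed1.filter_mono hle).and ((ed2.filter_mono hle).and
    ((eb.filter_mono hle).and ((hsmall.filter_mono hle).and self_mem_nhdsWithin))))))).exists
  have hθ : 0 < θ := h8
  have hθ1 : θ < 1 / 2 := lt_of_lt_of_le h7 (min_le_left _ _)
  have hθ2 : θ < κ := lt_of_lt_of_le h7 ((min_le_right _ _).trans (min_le_left _ _))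
  have hθ3 : θ < 1 / (2 * κ) := lt_of_lt_of_le h7 ((min_le_right _ _).trans (min_le_right _ _))
  have hκθ : κ * θ < 1 / 2 := by
    have h := mul_lt_mul_of_pos_left hθ3 hκ
    have e : κ * (1 / (2 * κ)) = 1 / 2 := by field_simp
    linarith
  have hρpos : 0 < ρ₀ * (1 - κ * θ) := mul_pos hρ₀pos (by linarith)
  obtain ⟨hRa, hRa'⟩ := Rf_spec hypos h2 h4
  obtain ⟨hRb, hRb'⟩ := Rf_spec hypos h3 h5
  refine ⟨θ, ρ₀ * (1 - κ * θ), hθ, hθ1.le, hρpos, ?_, ?_⟩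
  · rw [Real.log_mul hρ₀pos.ne' (by linarith)]
    have := Real.log_le_sub_one_of_pos (show 0 < 1 - κ * θ by linarith)
    nlinarith
  · intro n c
    refine U_le_pow hθ.le (by linarith) hypos.le hρpos
      ((Rf y (ρ₀ * (1 - κ * θ) / (1 + θ)) + Rf y (ρ₀ * (1 - κ * θ) / (1 - θ))) / 2 -
        θ / (2 * (ρ₀ * (1 - κ * θ)))) ?_ ?_ n c
    · intro m x
      exact H_sum_le hθ.le (by linarith) hypos.le hρpos hRa hRb hRa'.le hRb'.le (by linarith) m x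
    · have : D θ < 0 := h1
      simp only [hD] at this
      have e : 2 * y * (θ / (2 * (ρ₀ * (1 - κ * θ)))) = y * θ / (ρ₀ * (1 - κ * θ)) := by
        field_simp
      have e2 : 2 * y * ((Rf y (ρ₀ * (1 - κ * θ) / (1 + θ)) +
        Rf y (ρ₀ * (1 - κ * θ) / (1 - θ))) / 2 - θ / (2 * (ρ₀ * (1 - κ * θ)))) =
        y * (Rf y (ρ₀ * (1 - κ * θ) / (1 + θ)) + Rf y (ρ₀ * (1 - κ * θ) / (1 - θ))) -
          y * θ / (ρ₀ * (1 - κ * θ)) := by
        rw [mul_sub, e]; ring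
      rw [e2]
      linarith

end Pool.Agent.H96.Planted
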