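import Pool.Agent.H96.PlantedC

set_option autoImplicit false

open Filter Topology

namespace Pool.Agent.H96.Planted

/-- the untilted partition function depends on the length of the pending word only -/
noncomputable def V (y : ℝ) : ℕ → ℕ → ℝ
  | 0, k => if k = 0 then 1 else 0
  | n + 1, 0 => (1 + y) * V y n 0 + 2 * y * V y n 1
  | n + 1, k + 1 => (1 + y / 2) * V y n (k + 1) + y * V y n (k + 2) + 1 / 2 * V y n k

lemma U_zero_eq_V (y : ℝ) (n : ℕ) (p : List Bool) (c : Bool) : U 0 y n p c = V y n p.length := by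
  induction n generalizing p c with
  | zero =>
    rw [U_zero]
    simp [V, List.length_eq_zero_iff]
  | succ n ih =>
    cases p with
    | nil =>
      rw [U_succ_nil]
      simp only [ih, List.length_nil, List.length_cons, zero_add]
      rw [B_const]
      simp [V]
    | cons a p =>
      rw [U_succ_cons]
      simp only [ih, List.length_append, List.length_cons, List.length_nil, zero_add, V]
      unfold B
      cases a <;> simp <;> ring

/-- the transfer operator -/
noncomputable def T (y : ℝ) (f : ℕ → ℝ) : ℕ → ℝ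
  | 0 => (1 + y) * f 0 + 2 * y * f 1
  | k + 1 => (1 + y / 2) * f (k + 1) + y * f (k + 2) + 1 / 2 * f k

lemma V_succ (y : ℝ) (n : ℕ) : V y (n + 1) = T y (V y n) := by
  funext k
  cases k with
  | zero => rfl
  | succ k => rfl

/-- reversible weights -/
noncomputable def π (y : ℝ) : ℕ → ℝ
  | 0 => 1
  | k + 1 => 2 * (2 * y) ^ (k + 1)

lemma π_nonneg {y : ℝ} (hy : 0 ≤ y) (k : ℕ) : 0 ≤ π y k := by
  cases k with
  | zero => simp [π]
  | succ k => unfold π; positivity

lemma V_support (y : ℝ) (n k : ℕ) (h : n < k) : V y n k = 0 := by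
  induction n generalizing k with
  | zero =>
    have : k ≠ 0 := by omega
    simp [V, this]
  | succ n ih =>
    cases k with
    | zero => omega
    | succ k =>
      simp only [V]
      rw [ih (k + 1) (by omega), ih (k + 2) (by omega), ih k (by omega)]
      ring

/-- discrete Green identity -/
lemma green (y : ℝ) (f g : ℕ → ℝ) (K : ℕ) :
    ∑ k ∈ Finset.range (K + 1), π y k * (T y f k * g k - f k * T y g k) =
      (if K = 0 then 2 * y else π y K * y) * (f (K + 1) * g K - f K * g (K + 1)) := by
  induction K with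
  | zero => simp [π, T]; ring
  | succ K ih =>
    rw [Finset.sum_range_succ, ih]
    cases K with
    | zero => simp [π, T]; ring
    | succ K =>
      simp only [π, T, if_neg (Nat.succ_ne_zero _)]
      ring

lemma green_V {y : ℝ} (n K : ℕ) (hK : n < K) (g : ℕ → ℝ) :
    ∑ k ∈ Finset.range (K + 1), π y k * (V y (n + 1) k * g k) =
      ∑ k ∈ Finset.range (K + 1), π y k * (V y n k * T y g k) := by
  have h := green y (V y n) g K
  rw [V_support y n K hK, V_support y n (K + 1) (by omega)] at h
  simp only [zero_mul, sub_zero, mul_zero, mul_sub, Finset.sum_sub_distrib] at h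
  rw [V_succ]
  linarith

lemma pair_shift {y : ℝ} (m n K : ℕ) (hm : m < K) :
    ∑ k ∈ Finset.range (K + 1), π y k * (V y (m + 1) k * V y n k) =
      ∑ k ∈ Finset.range (K + 1), π y k * (V y m k * V y (n + 1) k) := by
  rw [green_V m K hm (V y n), V_succ y n]

lemma pair_diag {y : ℝ} (n : ℕ) : ∀ (j K : ℕ), j ≤ n → 2 * n < K →
    ∑ k ∈ Finset.range (K + 1), π y k * (V y j k * V y (2 * n - j) k) = V y (2 * n) 0 := by
  intro j
  induction j with
  | zero =>
    intro K _ _
    rw [Finset.sum_eq_single 0]
    · simp [π, V]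
    · intro k _ hk
      simp [V, hk]
    · intro h; simp at h
  | succ j ih =>
    intro K hj hK
    have h1 := ih K (by omega) hK
    have h2 := pair_shift (y := y) j (2 * n - (j + 1)) K (by omega)
    rw [h2]
    have : 2 * n - (j + 1) + 1 = 2 * n - j := by omega
    rw [this, h1]

lemma eig {y R ρ : ℝ} (h0 : 1 + y + 2 * y * R = ρ) (hR : 0 < R)
    (h1 : 1 + y / 2 + y * R + 1 / (2 * R) = ρ) (n K : ℕ) (hK : n ≤ K) :
    ∑ k ∈ Finset.range (K + 1), π y k * (V y n k * R ^ k) = ρ ^ n := by
  induction n with
  | zero =>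
    rw [Finset.sum_eq_single 0]
    · simp [π, V]
    · intro k _ hk
      simp [V, hk]
    · intro h; simp at h
  | succ n ih =>
    rw [green_V n K (by omega) (fun k => R ^ k)]
    have hT : ∀ k, T y (fun k => R ^ k) k = ρ * R ^ k := by
      intro k
      cases k with
      | zero => simp only [T, pow_zero, mul_one, pow_one]; linarith
      | succ k =>
        simp only [T]
        rw [← h1]
        field_simp
        ring
    simp only [hT]
    have : ∀ k, π y k * (V y n k * (ρ * R ^ k)) = ρ * (π y k * (V y n k * R ^ k)) := by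
      intro k; ring
    simp only [this, ← Finset.mul_sum]
    rw [ih (by omega), pow_succ]; ring

lemma V_nonneg {y : ℝ} (hy : 0 ≤ y) (n k : ℕ) : 0 ≤ V y n k := by
  induction n generalizing k with
  | zero => simp only [V]; split_ifs <;> norm_num
  | succ n ih =>
    cases k with
    | zero => simp only [V]; have := ih 0; have := ih 1; positivity
    | succ k =>
      simp only [V]
      have := ih (k + 1); have := ih (k + 2); have := ih k
      positivity

lemma V_le {y R ρ : ℝ} (hy : 0 ≤ y) (h0 : 1 + y + 2 * y * R = ρ) (hR : 0 < R)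
    (h1 : 1 + y / 2 + y * R + 1 / (2 * R) = ρ) (n k : ℕ) : V y n k ≤ R ^ k * ρ ^ n := by
  have hρ : 0 < ρ := by rw [← h0]; positivity
  induction n generalizing k with
  | zero =>
    simp only [V, pow_zero, mul_one]
    split_ifs with h
    · simp [h]
    · positivity
  | succ n ih =>
    cases k with
    | zero =>
      simp only [V]
      have a0 := ih 0
      have a1 := ih 1
      simp only [pow_zero, one_mul, pow_one] at a0 a1 ⊢
      calc (1 + y) * V y n 0 + 2 * y * V y n 1 ≤ (1 + y) * ρ ^ n + 2 * y * (R * ρ ^ n) := by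
            apply add_le_add
            · exact mul_le_mul_of_nonneg_left a0 (by linarith)
            · exact mul_le_mul_of_nonneg_left a1 (by linarith)
        _ = (1 + y + 2 * y * R) * ρ ^ n := by ring
        _ = ρ ^ (n + 1) := by rw [h0, pow_succ]; ring
    | succ k =>
      simp only [V]
      have a0 := ih k
      have a1 := ih (k + 1)
      have a2 := ih (k + 2)
      calc (1 + y / 2) * V y n (k + 1) + y * V y n (k + 2) + 1 / 2 * V y n k
          ≤ (1 + y / 2) * (R ^ (k + 1) * ρ ^ n) + y * (R ^ (k + 2) * ρ ^ n) +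
            1 / 2 * (R ^ k * ρ ^ n) := by
            apply add_le_add (add_le_add _ _)
            · exact mul_le_mul_of_nonneg_left a0 (by norm_num)
            · exact mul_le_mul_of_nonneg_left a1 (by linarith)
            · exact mul_le_mul_of_nonneg_left a2 hy
        _ = R ^ (k + 1) * ρ ^ n * (1 + y / 2 + y * R + 1 / (2 * R)) := by field_simp; ring
        _ = R ^ (k + 1) * ρ ^ (n + 1) := by rw [h1, pow_succ ρ]; ring

section Explicit

variable {q : ℝ}

lemma qrel0 (hq : 1 < q) : 1 + 2 * (q - 1) ^ 2 / q + 2 * (2 * (q - 1) ^ 2 / q) * (1 / (2 * (q - 1)))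
    = 2 * q - 1 := by
  have h1 : q - 1 ≠ 0 := by linarith
  have h2 : q ≠ 0 := by linarith
  field_simp
  ring

lemma qrel1 (hq : 1 < q) : 1 + 2 * (q - 1) ^ 2 / q / 2 + 2 * (q - 1) ^ 2 / q * (1 / (2 * (q - 1))) +
    1 / (2 * (1 / (2 * (q - 1)))) = 2 * q - 1 := by
  have h1 : q - 1 ≠ 0 := by linarith
  have h2 : q ≠ 0 := by linarith
  field_simp
  ring

/-- upper bound for the annealed pair partition function -/
lemma V_upper (hq : 1 < q) (n : ℕ) : V (2 * (q - 1) ^ 2 / q) n 0 ≤ (2 * q - 1) ^ n := by
  have hq1 : 0 < q - 1 := by linarith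
  have hq0 : 0 < q := by linarith
  have := V_le (y := 2 * (q - 1) ^ 2 / q) (R := 1 / (2 * (q - 1))) (ρ := 2 * q - 1)
    (by positivity) (qrel0 hq) (by positivity) (qrel1 hq) n 0
  simpa using this

lemma geom_bound {r : ℝ} (h0 : 0 ≤ r) (h1 : r < 1) (K : ℕ) :
    ∑ k ∈ Finset.range K, r ^ (k + 1) ≤ r / (1 - r) := by
  have h := (summable_geometric_of_lt_one h0 h1)
  have h2 : ∑ k ∈ Finset.range K, r ^ k ≤ (1 - r)⁻¹ := by
    rw [← tsum_geometric_of_lt_one h0 h1]
    exact h.sum_le_tsum _ (fun _ _ => by positivity)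
  have h3 : ∑ k ∈ Finset.range K, r ^ (k + 1) = r * ∑ k ∈ Finset.range K, r ^ k := by
    rw [Finset.mul_sum]
    exact Finset.sum_congr rfl fun k _ => by rw [pow_succ]; ring
  rw [h3, div_eq_mul_inv]
  exact mul_le_mul_of_nonneg_left h2 h0

/-- lower bound for the annealed pair partition function, even lengths -/
lemma V_lower_even (hq : 1 < q) (n : ℕ) :
    (q - 1) / (q + 1) * (2 * q - 1) ^ (2 * n) ≤ V (2 * (q - 1) ^ 2 / q) (2 * n) 0 := by
  have hq1 : 0 < q - 1 := by linarith
  have hq0 : 0 < q := by linarith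
  set y := 2 * (q - 1) ^ 2 / q with hy
  have hypos : 0 < y := by positivity
  set R := 1 / (2 * (q - 1)) with hR
  have hRpos : 0 < R := by positivity
  set K := 2 * n + 1 with hK
  have e1 := eig (y := y) (R := R) (ρ := 2 * q - 1) (qrel0 hq) hRpos (qrel1 hq) n K (by omega)
  have e2 := pair_diag (y := y) n n K le_rfl (by omega)
  have e3 : 2 * n - n = n := by omega
  rw [e3] at e2
  have cs := Finset.sum_sq_le_sum_mul_sum_of_sq_le_mul (Finset.range (K + 1))
    (r := fun k => π y k * (V y n k * R ^ k)) (f := fun k => π y k * (V y n k * V y n k))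
    (g := fun k => π y k * (R ^ k) ^ 2)
    (fun k _ => mul_nonneg (π_nonneg hypos.le k) (mul_self_nonneg _))
    (fun k _ => mul_nonneg (π_nonneg hypos.le k) (by positivity))
    (fun k _ => le_of_eq (by ring))
  rw [e1, e2] at cs
  have hsum : ∑ k ∈ Finset.range (K + 1), π y k * (R ^ k) ^ 2 ≤ (q + 1) / (q - 1) := by
    rw [Finset.sum_range_succ']
    have h1 : ∀ k, π y (k + 1) * (R ^ (k + 1)) ^ 2 = 2 * (1 / q) ^ (k + 1) := by
      intro k
      have h2 : 1 / q = 2 * y * R ^ 2 := by
        rw [hy, hR]; field_simp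
      rw [h2, mul_pow]
      simp only [π]
      rw [← pow_mul, ← pow_mul, mul_comm 2 (k + 1)]
      ring
    simp only [h1, ← Finset.mul_sum]
    have h3 := geom_bound (r := 1 / q) (by positivity) (by rw [div_lt_one hq0]; exact hq) K
    have h4 : 1 / q / (1 - 1 / q) = 1 / (q - 1) := by
      have : q - 1 ≠ 0 := hq1.ne'
      field_simp
    rw [h4] at h3
    have h5 : (q + 1) / (q - 1) = 2 * (1 / (q - 1)) + 1 := by field_simp; ring
    rw [h5]
    simp only [π, pow_zero, one_pow, mul_one]
    linarith
  have hV : 0 ≤ V y (2 * n) 0 := V_nonneg hypos.le _ _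
  have h6 : ((2 * q - 1) ^ n) ^ 2 ≤ V y (2 * n) 0 * ((q + 1) / (q - 1)) :=
    cs.trans (mul_le_mul_of_nonneg_left hsum hV)
  have h7 : ((2 * q - 1) ^ n) ^ 2 = (2 * q - 1) ^ (2 * n) := by
    rw [← pow_mul, mul_comm n 2]
  rw [h7] at h6
  have h8 : V y (2 * n) 0 = (q - 1) / (q + 1) * (V y (2 * n) 0 * ((q + 1) / (q - 1))) := by
    have : q + 1 ≠ 0 := by linarith
    field_simp
  rw [h8]
  exact mul_le_mul_of_nonneg_left h6 (by positivity)

lemma V_mono_step {y : ℝ} (hy : 0 ≤ y) (n : ℕ) : V y n 0 ≤ V y (n + 1) 0 := by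
  simp only [V]
  have h0 := V_nonneg hy n 0
  have h1 := V_nonneg hy n 1
  have := mul_nonneg hy h0
  have := mul_nonneg hy h1
  linarith

/-- lower bound for the annealed pair partition function -/
lemma V_lower (hq : 1 < q) (n : ℕ) :
    (q - 1) / ((q + 1) * (2 * q - 1)) * (2 * q - 1) ^ n ≤ V (2 * (q - 1) ^ 2 / q) n 0 := by
  have hq1 : 0 < q - 1 := by linarith
  have hq0 : 0 < q := by linarith
  have hρ : 0 < 2 * q - 1 := by linarith
  rcases Nat.even_or_odd' n with ⟨m, hm | hm⟩
  · subst hm
    refine le_trans ?_ (V_lower_even hq m)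
    apply mul_le_mul_of_nonneg_right _ (by positivity)
    apply div_le_div_of_nonneg_left hq1.le (by positivity)
    nlinarith
  · subst hm
    refine le_trans ?_ ((V_lower_even hq m).trans (V_mono_step (by positivity) _))
    apply le_of_eq
    rw [pow_succ]
    have hρ' : 2 * q - 1 ≠ 0 := hρ.ne'
    have hq2 : q + 1 ≠ 0 := by linarith
    rw [div_mul_eq_mul_div, div_mul_eq_mul_div, div_eq_div_iff (by positivity) hq2]
    ring

end Explicit

/-- number of embeddings of the word `Y` into the word `X` -/
def Z : List Bool → List Bool → ℕ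
  | _, [] => 1
  | [], _ :: _ => 0
  | x :: X, b :: Y => Z X (b :: Y) + if x = b then Z X Y else 0

/-- coefficient of the pair partition function -/
noncomputable def Dc (M : ℕ) (X p : List Bool) : ℝ :=
  S M (fun Y => (Z X Y : ℝ) * (Z X (p ++ Y) : ℝ))

lemma Dc_nonneg (M : ℕ) (X p : List Bool) : 0 ≤ Dc M X p :=
  S_nonneg fun _ _ => by positivity

lemma Z_nil_right (X : List Bool) : Z X [] = 1 := by cases X <;> rfl

lemma Dc_zero (X p : List Bool) : Dc 0 X p = Z X p := by
  unfold Dc; simp [S_zero, Z_nil_right]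

lemma Dc_zero_cons (x : Bool) (X : List Bool) (a : Bool) (p : List Bool) :
    Dc 0 (x :: X) (a :: p) = Dc 0 X (a :: p) + (if x = a then Dc 0 X p else 0) := by
  simp only [Dc_zero, Z]
  split_ifs <;> push_cast <;> ring

lemma Dc_succ_nil (M : ℕ) (x : Bool) (X : List Bool) :
    Dc (M + 1) (x :: X) [] = Dc (M + 1) X [] + 2 * Dc M X [x] + Dc M X [] := by
  unfold Dc
  rw [S_succ, S_succ]
  simp only [List.nil_append, Z]
  rw [← S_mul_left]
  cases x
  · simp only [if_true, Bool.false_eq_true, if_false, add_zero, List.cons_append, List.nil_append]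
    rw [← S_add, ← S_add, ← S_add, ← S_add]
    refine S_congr fun Y _ => ?_
    push_cast
    ring
  · simp only [if_true, Bool.true_eq_false, if_false, add_zero, List.cons_append, List.nil_append]
    rw [← S_add, ← S_add, ← S_add, ← S_add]
    refine S_congr fun Y _ => ?_
    push_cast
    ring

lemma Dc_succ_cons (M : ℕ) (x : Bool) (X : List Bool) (a : Bool) (p : List Bool) :
    Dc (M + 1) (x :: X) (a :: p) = Dc (M + 1) X (a :: p) + Dc M X (a :: p ++ [x]) +
      (if x = a then Dc (M + 1) X p + Dc M X (p ++ [x]) else 0) := by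
  unfold Dc
  rw [S_succ, S_succ, S_succ]
  simp only [List.cons_append, Z, List.append_assoc, List.nil_append]
  by_cases hx : x = a
  · subst hx
    simp only [if_true]
    cases x
    · simp only [if_true, Bool.false_eq_true, if_false, add_zero]
      rw [← S_add, ← S_add, ← S_add, ← S_add, ← S_add, ← S_add]
      refine S_congr fun Y _ => ?_
      push_cast
      ring
    · simp only [if_true, Bool.true_eq_false, if_false, add_zero]
      rw [← S_add, ← S_add, ← S_add, ← S_add, ← S_add, ← S_add]
      refine S_congr fun Y _ => ?_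
      push_cast
      ring
  · simp only [if_neg hx, add_zero]
    cases x
    · simp only [if_true, Bool.false_eq_true, if_false, add_zero]
      rw [← S_add, ← S_add, ← S_add]
      refine S_congr fun Y _ => ?_
      push_cast
      ring
    · simp only [if_true, Bool.true_eq_false, if_false, add_zero]
      rw [← S_add, ← S_add, ← S_add]
      refine S_congr fun Y _ => ?_
      push_cast
      ring

/-- the pair partition function is the generating function of its coefficients -/
lemma sum_Dc (y : ℝ) : ∀ (X p : List Bool) (K : ℕ), X.length < K →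
    ∑ M ∈ Finset.range K, y ^ M * Dc M X p = W y X p := by
  intro X
  induction X with
  | nil =>
    intro p K hK
    obtain ⟨K, rfl⟩ : ∃ K', K = K' + 1 := ⟨K - 1, by omega⟩
    rw [Finset.sum_range_succ', Finset.sum_eq_zero]
    · rw [Dc_zero]
      cases p <;> simp [Z, W]
    · intro M _
      have : Dc (M + 1) [] p = 0 := by
        unfold Dc
        rw [S_succ]
        simp [Z, S_zero_fun]
      rw [this, mul_zero]
  | cons x X ih =>
    intro p K hK
    obtain ⟨K, rfl⟩ : ∃ K', K = K' + 1 := ⟨K - 1, by omega⟩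
    have hK1 : X.length < K := by simpa using hK
    have hK2 : X.length < K + 1 := by omega
    cases p with
    | nil =>
      rw [Finset.sum_range_succ']
      simp only [W]
      rw [← ih [] (K + 1) hK2, ← ih [x] K hK1]
      have hy1 := ih [] K hK1
      have h2 := ih [] (K + 1) hK2
      rw [Finset.sum_range_succ']
      simp only [Dc_succ_nil, Dc_zero, Z_nil_right]
      rw [Finset.sum_range_succ'] at h2
      simp only [Dc_zero, Z_nil_right] at h2
      have e : ∑ k ∈ Finset.range K, y ^ (k + 1) * (Dc (k + 1) X [] + 2 * Dc k X [x] + Dc k X []) =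
          ∑ k ∈ Finset.range K, y ^ (k + 1) * Dc (k + 1) X [] +
          2 * y * ∑ k ∈ Finset.range K, y ^ k * Dc k X [x] +
          y * ∑ k ∈ Finset.range K, y ^ k * Dc k X [] := by
        rw [Finset.mul_sum, Finset.mul_sum, ← Finset.sum_add_distrib, ← Finset.sum_add_distrib]
        exact Finset.sum_congr rfl fun k _ => by rw [pow_succ]; ring
      rw [e, hy1, ← h2]
      ring
    | cons a p =>
      rw [Finset.sum_range_succ']
      simp only [W, Dc_succ_cons, Dc_zero_cons]
      have e1 := ih (a :: p) (K + 1) hK2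
      have e2 := ih (a :: p ++ [x]) K hK1
      have e3 := ih p (K + 1) hK2
      have e4 := ih (p ++ [x]) K hK1
      rw [Finset.sum_range_succ'] at e1 e3
      by_cases hx : x = a
      · simp only [if_pos hx]
        rw [← e1, ← e2, ← e3, ← e4]
        have e : ∑ k ∈ Finset.range K, y ^ (k + 1) * (Dc (k + 1) X (a :: p) + Dc k X (a :: p ++ [x]) +
            (Dc (k + 1) X p + Dc k X (p ++ [x]))) =
            ∑ k ∈ Finset.range K, y ^ (k + 1) * Dc (k + 1) X (a :: p) +
            y * ∑ k ∈ Finset.range K, y ^ k * Dc k X (a :: p ++ [x]) +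
            (∑ k ∈ Finset.range K, y ^ (k + 1) * Dc (k + 1) X p +
            y * ∑ k ∈ Finset.range K, y ^ k * Dc k X (p ++ [x])) := by
          rw [Finset.mul_sum, Finset.mul_sum, ← Finset.sum_add_distrib, ← Finset.sum_add_distrib,
            ← Finset.sum_add_distrib]
          exact Finset.sum_congr rfl fun k _ => by rw [pow_succ]; ring
        rw [e]
        ring
      · simp only [if_neg hx, add_zero]
        rw [← e1, ← e2]
        have e : ∑ k ∈ Finset.range K, y ^ (k + 1) * (Dc (k + 1) X (a :: p) + Dc k X (a :: p ++ [x])) =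
            ∑ k ∈ Finset.range K, y ^ (k + 1) * Dc (k + 1) X (a :: p) +
            y * ∑ k ∈ Finset.range K, y ^ k * Dc k X (a :: p ++ [x]) := by
          rw [Finset.mul_sum, ← Finset.sum_add_distrib]
          exact Finset.sum_congr rfl fun k _ => by rw [pow_succ]; ring
        rw [e]
        ring

/-- annealed coefficient -/
noncomputable def ac (N M : ℕ) : ℝ := S N (fun X => Dc M X []) / 2 ^ N

lemma ac_nonneg (N M : ℕ) : 0 ≤ ac N M :=
  div_nonneg (S_nonneg fun _ _ => Dc_nonneg _ _ _) (by positivity)

lemma G_zero_theta (c : Bool) (X : List Bool) : G 0 c X = 1 := by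
  induction X generalizing c with
  | nil => rfl
  | cons x X ih => simp [G, ih]

lemma sum_ac (y : ℝ) (N : ℕ) : ∑ M ∈ Finset.range (N + 1), y ^ M * ac N M = V y N 0 := by
  have h := U_zero_eq_V y N [] false
  rw [List.length_nil] at h
  rw [← h]
  unfold U ac
  have e : S N (fun X => G 0 false X * W y X []) =
      ∑ M ∈ Finset.range (N + 1), y ^ M * S N (fun X => Dc M X []) := by
    have : S N (fun X => G 0 false X * W y X []) =
        S N (fun X => ∑ M ∈ Finset.range (N + 1), y ^ M * Dc M X []) := by
      refine S_congr fun X hX => ?_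
      rw [G_zero_theta, one_mul, sum_Dc y X [] (N + 1) (by omega)]
    rw [this, S_sum]
    exact Finset.sum_congr rfl fun M _ => S_mul_left _ _ _
  rw [e, Finset.sum_div]
  exact Finset.sum_congr rfl fun M _ => by rw [mul_div_assoc]

lemma Dc_mono_skip (M : ℕ) (x : Bool) (X : List Bool) : Dc M X [] ≤ Dc M (x :: X) [] := by
  cases M with
  | zero => rw [Dc_zero, Dc_zero, Z_nil_right, Z_nil_right]
  | succ M =>
    rw [Dc_succ_nil]
    have := Dc_nonneg M X [x]
    have := Dc_nonneg M X []
    linarith

lemma Dc_mono_use (M : ℕ) (x : Bool) (X : List Bool) : Dc M X [] ≤ Dc (M + 1) (x :: X) [] := by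
  rw [Dc_succ_nil]
  have := Dc_nonneg M X [x]
  have := Dc_nonneg (M + 1) X []
  linarith

lemma ac_mono_skip (N M : ℕ) : ac N M ≤ ac (N + 1) M := by
  unfold ac
  rw [S_succ, pow_succ]
  have h1 := S_mono (n := N) fun X _ => Dc_mono_skip M false X
  have h2 := S_mono (n := N) fun X _ => Dc_mono_skip M true X
  rw [div_le_div_iff₀ (by positivity) (by positivity)]
  have : (0 : ℝ) < 2 ^ N := by positivity
  nlinarith

lemma ac_mono_use (N M : ℕ) : ac N M ≤ ac (N + 1) (M + 1) := by
  unfold ac
  rw [S_succ, pow_succ]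
  have h1 := S_mono (n := N) fun X _ => Dc_mono_use M false X
  have h2 := S_mono (n := N) fun X _ => Dc_mono_use M true X
  rw [div_le_div_iff₀ (by positivity) (by positivity)]
  have : (0 : ℝ) < 2 ^ N := by positivity
  nlinarith

lemma ac_mono (N M i j : ℕ) : ac N M ≤ ac (N + i + j) (M + i) := by
  induction j with
  | zero =>
    induction i with
    | zero => exact le_rfl
    | succ i ih => exact ih.trans (ac_mono_use _ _)
  | succ j ih => exact ih.trans (ac_mono_skip _ _)

lemma ac_mono' {N M N' M' : ℕ} (h1 : M' ≤ M) (h2 : M - M' ≤ N - N') (h3 : N' ≤ N) :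
    ac N' M' ≤ ac N M := by
  have := ac_mono N' M' (M - M') (N - N' - (M - M'))
  have e1 : N' + (M - M') + (N - N' - (M - M')) = N := by omega
  have e2 : M' + (M - M') = M := by omega
  rwa [e1, e2] at this

end Pool.Agent.H96.Planted
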