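import Pool.Agent.H96.PlantedD

set_option autoImplicit false

open Filter Topology

namespace Pool.Agent.H96.Planted

/-- the density attached to the parameter `q` -/
noncomputable def αq (q : ℝ) : ℝ := 2 * q * (q - 1) / ((q + 1) * (2 * q - 1))

/-- log-fugacity -/
noncomputable def gq (q : ℝ) : ℝ := Real.log (2 * (q - 1) ^ 2 / q)

/-- log-growth rate -/
noncomputable def fq (q : ℝ) : ℝ := Real.log (2 * q - 1)

lemma hasDerivAt_fq {q : ℝ} (hq : 1 < q) : HasDerivAt fq (2 / (2 * q - 1)) q := by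
  have h1 : HasDerivAt (fun q : ℝ => 2 * q - 1) 2 q := by
    simpa using ((hasDerivAt_id q).const_mul 2).sub_const 1
  exact h1.log (by linarith)

lemma hasDerivAt_gq {q : ℝ} (hq : 1 < q) : HasDerivAt gq ((q + 1) / (q * (q - 1))) q := by
  have hq0 : q ≠ 0 := by linarith
  have hq1 : q - 1 ≠ 0 := by linarith
  have h1 : HasDerivAt (fun q : ℝ => 2 * (q - 1) ^ 2) (2 * (2 * (q - 1))) q := by
    have h0 : HasDerivAt (fun q : ℝ => q - 1) 1 q := (hasDerivAt_id q).sub_const 1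
    have := (h0.fun_pow 2).const_mul 2
    exact this.congr_deriv (by simp)
  have h2 : HasDerivAt (fun q : ℝ => 2 * (q - 1) ^ 2 / q)
      ((2 * (2 * (q - 1)) * q - 2 * (q - 1) ^ 2 * 1) / q ^ 2) q := h1.fun_div (hasDerivAt_id q) hq0
  have h3 : 2 * (q - 1) ^ 2 / q ≠ 0 := by positivity
  have h4 := h2.log h3
  exact h4.congr_deriv (by field_simp; ring)

lemma gq_strictMono {q q' : ℝ} (hq : 1 < q) (hq' : q < q') : gq q < gq q' := by
  unfold gq
  have hq0 : 0 < q := by linarith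
  have hq1 : 0 < q - 1 := by linarith
  have hq1' : 0 < q' - 1 := by linarith
  apply Real.log_lt_log (by positivity)
  rw [div_lt_div_iff₀ (by linarith) (by linarith)]
  have : 0 < (q' - q) * (q * q' - 1) := by
    apply mul_pos (by linarith)
    nlinarith
  nlinarith

lemma αq_rel {q : ℝ} (hq : 1 < q) : αq q * ((q + 1) / (q * (q - 1))) = 2 / (2 * q - 1) := by
  have hq0 : q ≠ 0 := by linarith
  have hq1 : q - 1 ≠ 0 := by linarith
  have hq2 : q + 1 ≠ 0 := by linarith
  have hq3 : 2 * q - 1 ≠ 0 := by linarith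
  unfold αq
  field_simp

/-- upper tail parameter -/
lemma exists_right {q ε : ℝ} (hq : 1 < q) (hε : 0 < ε) :
    ∃ q', q < q' ∧ fq q' - (αq q + ε) * gq q' < fq q - (αq q + ε) * gq q := by
  have hd : HasDerivAt (fun x => fq x - (αq q + ε) * gq x)
      (2 / (2 * q - 1) - (αq q + ε) * ((q + 1) / (q * (q - 1)))) q :=
    (hasDerivAt_fq hq).sub ((hasDerivAt_gq hq).const_mul _)
  have hneg : 2 / (2 * q - 1) - (αq q + ε) * ((q + 1) / (q * (q - 1))) < 0 := by
    rw [add_mul, αq_rel hq]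
    have : 0 < ε * ((q + 1) / (q * (q - 1))) := by
      apply mul_pos hε (div_pos (by linarith) (mul_pos (by linarith) (by linarith)))
    linarith
  have h1 := hasDerivAt_iff_tendsto_slope.mp hd
  have h2 : ∀ᶠ x in 𝓝[≠] q, slope (fun x => fq x - (αq q + ε) * gq x) q x < 0 :=
    h1.eventually (gt_mem_nhds hneg)
  have h3 : 𝓝[>] q ≤ 𝓝[≠] q := nhdsWithin_mono _ (fun x hx => ne_of_gt hx)
  obtain ⟨x, hx, hqx⟩ := ((h2.filter_mono h3).and self_mem_nhdsWithin).exists
  have hqx' : q < x := hqx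
  refine ⟨x, hqx', ?_⟩
  rw [slope_def_field] at hx
  by_contra hcon
  push Not at hcon
  have : 0 ≤ (fq x - (αq q + ε) * gq x - (fq q - (αq q + ε) * gq q)) / (x - q) :=
    div_nonneg (by linarith) (by linarith)
  linarith

/-- lower tail parameter -/
lemma exists_left {q ε : ℝ} (hq : 1 < q) (hε : 0 < ε) :
    ∃ q', 1 < q' ∧ q' < q ∧ fq q' - (αq q - ε) * gq q' < fq q - (αq q - ε) * gq q := by
  have hd : HasDerivAt (fun x => fq x - (αq q - ε) * gq x)
      (2 / (2 * q - 1) - (αq q - ε) * ((q + 1) / (q * (q - 1)))) q :=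
    (hasDerivAt_fq hq).sub ((hasDerivAt_gq hq).const_mul _)
  have hpos : 0 < 2 / (2 * q - 1) - (αq q - ε) * ((q + 1) / (q * (q - 1))) := by
    rw [sub_mul, αq_rel hq]
    have : 0 < ε * ((q + 1) / (q * (q - 1))) := by
      apply mul_pos hε (div_pos (by linarith) (mul_pos (by linarith) (by linarith)))
    linarith
  have h1 := hasDerivAt_iff_tendsto_slope.mp hd
  have h2 : ∀ᶠ x in 𝓝[≠] q, 0 < slope (fun x => fq x - (αq q - ε) * gq x) q x :=
    h1.eventually (lt_mem_nhds hpos)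
  have h3 : 𝓝[<] q ≤ 𝓝[≠] q := nhdsWithin_mono _ (fun x hx => ne_of_lt hx)
  have h4 : ∀ᶠ x in 𝓝[<] q, 1 < x := (lt_mem_nhds hq).filter_mono nhdsWithin_le_nhds
  obtain ⟨x, ⟨hx, h1x⟩, hqx⟩ := (((h2.filter_mono h3).and h4).and self_mem_nhdsWithin).exists
  have hqx' : x < q := hqx
  refine ⟨x, h1x, hqx', ?_⟩
  rw [slope_def_field] at hx
  by_contra hcon
  push Not at hcon
  have : (fq x - (αq q - ε) * gq x - (fq q - (αq q - ε) * gq q)) / (x - q) ≤ 0 :=
    div_nonpos_of_nonneg_of_nonpos (by linarith) (by linarith)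
  linarith

lemma exp_gq {q : ℝ} (hq : 1 < q) : Real.exp (gq q) = 2 * (q - 1) ^ 2 / q := by
  unfold gq
  have : 0 < q - 1 := by linarith
  exact Real.exp_log (by positivity)

lemma exp_fq {q : ℝ} (hq : 1 < q) : Real.exp (fq q) = 2 * q - 1 := by
  unfold fq
  exact Real.exp_log (by linarith)

lemma coeff_le {q : ℝ} (hq : 1 < q) (N M : ℕ) (hM : M ≤ N) :
    ac N M ≤ Real.exp (N * fq q - M * gq q) := by
  have hq1 : 0 < q - 1 := by linarith
  have hq0 : 0 < q := by linarith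
  have h1 := sum_ac (2 * (q - 1) ^ 2 / q) N
  have h2 := V_upper hq N
  rw [← h1] at h2
  have h3 : (2 * (q - 1) ^ 2 / q) ^ M * ac N M ≤
      ∑ M ∈ Finset.range (N + 1), (2 * (q - 1) ^ 2 / q) ^ M * ac N M :=
    Finset.single_le_sum (f := fun M => (2 * (q - 1) ^ 2 / q) ^ M * ac N M)
      (fun M _ => mul_nonneg (by positivity) (ac_nonneg N M)) (by simp; omega)
  have h4 := h3.trans h2
  rw [Real.exp_sub, Real.exp_nat_mul, Real.exp_nat_mul, exp_gq hq, exp_fq hq, le_div_iff₀ (by positivity)]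
  linarith

lemma concentration {q ε : ℝ} (hq : 1 < q) (hε : 0 < ε) :
    ∃ c : ℝ, 0 < c ∧ ∃ N₀ : ℕ, ∀ N ≥ N₀, ∃ M : ℕ, M ≤ N ∧ (αq q - ε) * N < M ∧
      (M : ℝ) < (αq q + ε) * N ∧
      c / (N + 1) * Real.exp (N * fq q - M * gq q) ≤ ac N M := by
  have hq1 : 0 < q - 1 := by linarith
  have hq0 : 0 < q := by linarith
  set c₀ := (q - 1) / ((q + 1) * (2 * q - 1)) with hc₀
  have hc₀pos : 0 < c₀ := by rw [hc₀]; apply div_pos hq1 (mul_pos (by linarith) (by linarith))
  obtain ⟨q₁, hq₁, hh₁⟩ := exists_right hq hε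
  obtain ⟨q₂, hq₂, hq₂', hh₂⟩ := exists_left hq hε
  set δ₁ := (fq q - (αq q + ε) * gq q) - (fq q₁ - (αq q + ε) * gq q₁) with hδ₁
  set δ₂ := (fq q - (αq q - ε) * gq q) - (fq q₂ - (αq q - ε) * gq q₂) with hδ₂
  have hδ₁pos : 0 < δ₁ := by rw [hδ₁]; linarith
  have hδ₂pos : 0 < δ₂ := by rw [hδ₂]; linarith
  set δ := min δ₁ δ₂ with hδ
  have hδpos : 0 < δ := lt_min hδ₁pos hδ₂pos
  -- eventually (N+1) exp(-δ N) < c₀/2
  have hev : ∀ᶠ N : ℕ in atTop, ((N : ℝ) + 1) * Real.exp (-(δ * N)) < c₀ / 2 := by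
    have h1 : Tendsto (fun x : ℝ => x * Real.exp (-x)) atTop (𝓝 0) := by
      have := Real.tendsto_pow_mul_exp_neg_atTop_nhds_zero 1
      simpa using this
    have h2 : Tendsto (fun x : ℝ => Real.exp (-x)) atTop (𝓝 0) := Real.tendsto_exp_neg_atTop_nhds_zero
    have h3 : Tendsto (fun N : ℕ => δ * (N : ℝ)) atTop atTop :=
      tendsto_natCast_atTop_atTop.const_mul_atTop hδpos
    have h4 : Tendsto (fun N : ℕ => (1 / δ) * ((δ * (N : ℝ)) * Real.exp (-(δ * N))) +
        Real.exp (-(δ * N))) atTop (𝓝 ((1 / δ) * 0 + 0)) :=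
      ((h1.comp h3).const_mul (1 / δ)).add (h2.comp h3)
    simp only [mul_zero, add_zero] at h4
    have h5 := h4.eventually (gt_mem_nhds (show (0 : ℝ) < c₀ / 2 by positivity))
    filter_upwards [h5] with N hN
    have e : (1 / δ) * ((δ * (N : ℝ)) * Real.exp (-(δ * N))) + Real.exp (-(δ * N)) =
        ((N : ℝ) + 1) * Real.exp (-(δ * N)) := by field_simp
    rw [← e]; exact hN
  obtain ⟨N₀, hN₀⟩ := eventually_atTop.mp hev
  refine ⟨c₀ / 2, by positivity, N₀, fun N hN => ?_⟩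
  have hsmall := hN₀ N hN
  by_contra hcon
  push Not at hcon
  have hlow := V_lower hq N
  rw [← sum_ac] at hlow
  have hN1 : (0 : ℝ) < (N : ℝ) + 1 := by positivity
  -- bound each term
  have hterm : ∀ M ∈ Finset.range (N + 1), (2 * (q - 1) ^ 2 / q) ^ M * ac N M ≤
      (c₀ / 2 / (N + 1)) * Real.exp (N * fq q) + Real.exp (N * fq q) * Real.exp (-(δ * N)) := by
    intro M hM
    have hMN : M ≤ N := by simpa [Nat.lt_succ_iff] using hM
    have hyM : (2 * (q - 1) ^ 2 / q) ^ M = Real.exp (M * gq q) := by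
      rw [Real.exp_nat_mul, exp_gq hq]
    rw [hyM]
    have hp1 : 0 ≤ (c₀ / 2 / (N + 1)) * Real.exp (N * fq q) := by positivity
    have hp2 : 0 ≤ Real.exp (N * fq q) * Real.exp (-(δ * N)) := by positivity
    have hNnn : (0 : ℝ) ≤ (N : ℝ) := Nat.cast_nonneg N
    by_cases hA : (M : ℝ) ≤ (αq q - ε) * N
    · have h1 := coeff_le hq₂ N M hMN
      have h2 : Real.exp (M * gq q) * ac N M ≤ Real.exp (M * gq q) * Real.exp (N * fq q₂ - M * gq q₂) :=
        mul_le_mul_of_nonneg_left h1 (Real.exp_pos _).le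
      rw [← Real.exp_add] at h2
      have h3 : M * gq q + (N * fq q₂ - M * gq q₂) ≤ N * fq q + -(δ * N) := by
        have hg : 0 < gq q - gq q₂ := by have := gq_strictMono hq₂ hq₂'; linarith
        have h4 : (M : ℝ) * (gq q - gq q₂) ≤ (αq q - ε) * N * (gq q - gq q₂) :=
          mul_le_mul_of_nonneg_right hA hg.le
        have h5 : δ * N ≤ δ₂ * N := mul_le_mul_of_nonneg_right (min_le_right _ _) hNnn
        have h6 : δ₂ * N = N * fq q - (αq q - ε) * N * gq q - N * fq q₂ + (αq q - ε) * N * gq q₂ := by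
          rw [hδ₂]; ring
        linarith
      have h7 := Real.exp_le_exp.mpr h3
      rw [Real.exp_add (N * fq q)] at h7
      linarith
    · by_cases hB : (αq q + ε) * N ≤ (M : ℝ)
      · have h1 := coeff_le (lt_trans hq hq₁) N M hMN
        have h2 : Real.exp (M * gq q) * ac N M ≤ Real.exp (M * gq q) * Real.exp (N * fq q₁ - M * gq q₁) :=
          mul_le_mul_of_nonneg_left h1 (Real.exp_pos _).le
        rw [← Real.exp_add] at h2
        have h3 : M * gq q + (N * fq q₁ - M * gq q₁) ≤ N * fq q + -(δ * N) := by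
          have hg : 0 < gq q₁ - gq q := by have := gq_strictMono hq hq₁; linarith
          have h4 : (αq q + ε) * N * (gq q₁ - gq q) ≤ (M : ℝ) * (gq q₁ - gq q) :=
            mul_le_mul_of_nonneg_right hB hg.le
          have h5 : δ * N ≤ δ₁ * N := mul_le_mul_of_nonneg_right (min_le_left _ _) hNnn
          have h6 : δ₁ * N = N * fq q - (αq q + ε) * N * gq q - N * fq q₁ + (αq q + ε) * N * gq q₁ := by
            rw [hδ₁]; ring
          linarith
        have h7 := Real.exp_le_exp.mpr h3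
        rw [Real.exp_add (N * fq q)] at h7
        linarith
      · push Not at hA hB
        have h1 := (hcon M hMN hA hB).le
        have h2 : Real.exp (M * gq q) * ac N M ≤
            Real.exp (M * gq q) * (c₀ / 2 / (N + 1) * Real.exp (N * fq q - M * gq q)) :=
          mul_le_mul_of_nonneg_left h1 (Real.exp_pos _).le
        have h3 : Real.exp (M * gq q) * (c₀ / 2 / (N + 1) * Real.exp (N * fq q - M * gq q)) =
            (c₀ / 2 / (N + 1)) * Real.exp (N * fq q) := by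
          rw [Real.exp_sub]
          field_simp
        linarith
  have hsum := Finset.sum_le_sum hterm
  rw [Finset.sum_const, Finset.card_range, nsmul_eq_mul] at hsum
  have hpow : (2 * q - 1) ^ N = Real.exp (N * fq q) := by rw [Real.exp_nat_mul, exp_fq hq]
  rw [hpow] at hlow
  have hE : 0 < Real.exp (N * fq q) := Real.exp_pos _
  have e1 : ((N + 1 : ℕ) : ℝ) * ((c₀ / 2 / (N + 1)) * Real.exp (N * fq q) +
      Real.exp (N * fq q) * Real.exp (-(δ * N))) =
      (c₀ / 2 + ((N : ℝ) + 1) * Real.exp (-(δ * N))) * Real.exp (N * fq q) := by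
    push_cast
    field_simp
  rw [e1] at hsum
  have h9 : c₀ * Real.exp (N * fq q) ≤
      (c₀ / 2 + ((N : ℝ) + 1) * Real.exp (-(δ * N))) * Real.exp (N * fq q) := hlow.trans hsum
  have h10 := le_of_mul_le_mul_right h9 hE
  linarith

/-- lower bound on the annealed coefficients, near density `αq q` -/
lemma ac_lower {q δ : ℝ} (hq : 1 < q) (hδ : 0 < δ) (hα0 : 0 < αq q) (hα1 : αq q < 1) :
    ∃ η : ℝ, 0 < η ∧ ∃ N₀ : ℕ, ∀ N ≥ N₀, ∀ M : ℕ, |(M : ℝ) - αq q * N| ≤ η * N →
      0 < ac N M ∧ N * fq q - M * gq q - δ * N ≤ Real.log (ac N M) := by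
  have hfq : 0 < fq q := Real.log_pos (by linarith)
  set L := |gq q| + fq q with hL
  have hLpos : 0 < L := by have := abs_nonneg (gq q); rw [hL]; linarith
  set κ := min (1 / 2) (δ / (2 * L)) with hκ
  have hκpos : 0 < κ := lt_min (by norm_num) (by positivity)
  have hκ1 : κ ≤ 1 / 2 := min_le_left _ _
  have hκ2 : κ * L ≤ δ / 2 := by
    have : κ ≤ δ / (2 * L) := min_le_right _ _
    calc κ * L ≤ δ / (2 * L) * L := mul_le_mul_of_nonneg_right this hLpos.le
      _ = δ / 2 := by field_simp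
  set μ := min (αq q) (1 - αq q) with hμ
  have hμpos : 0 < μ := lt_min hα0 (by linarith)
  have hμ1 : μ ≤ αq q := min_le_left _ _
  have hμ2 : μ ≤ 1 - αq q := min_le_right _ _
  set ε := κ * μ / 4 with hε
  have hεpos : 0 < ε := by positivity
  obtain ⟨c, hc, N₁, hN₁⟩ := concentration hq hεpos
  -- eventual conditions
  have ev1 : ∀ᶠ N : ℕ in atTop, (N₁ : ℝ) ≤ N / 2 ∧ 1 ≤ κ * μ / 2 * N ∧
      Real.log ((N : ℝ) + 1) - Real.log c ≤ δ / 2 * N := by
    have hN : Tendsto (fun N : ℕ => (N : ℝ)) atTop atTop := tendsto_natCast_atTop_atTop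
    have a1 : ∀ᶠ N : ℕ in atTop, (N₁ : ℝ) ≤ N / 2 := by
      have : Tendsto (fun N : ℕ => (N : ℝ) / 2) atTop atTop := hN.atTop_div_const (by norm_num)
      exact this.eventually (eventually_ge_atTop _)
    have a2 : ∀ᶠ N : ℕ in atTop, (1 : ℝ) ≤ κ * μ / 2 * N := by
      have : Tendsto (fun N : ℕ => κ * μ / 2 * (N : ℝ)) atTop atTop :=
        hN.const_mul_atTop (by positivity)
      exact this.eventually (eventually_ge_atTop _)
    have a3 : ∀ᶠ N : ℕ in atTop, Real.log ((N : ℝ) + 1) - Real.log c ≤ δ / 2 * N := by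
      have h1 : Tendsto (fun N : ℕ => Real.log ((N : ℝ) + 1) / ((N : ℝ) + 1)) atTop (𝓝 0) := by
        have h2 : Tendsto (fun x : ℝ => Real.log x / x) atTop (𝓝 0) := by
          have := Real.tendsto_pow_log_div_mul_add_atTop 1 0 1 one_ne_zero
          simpa using this
        exact h2.comp (tendsto_atTop_add_const_right _ _ hN)
      have h3 : Tendsto (fun N : ℕ => (δ / 4) * (N : ℝ)) atTop atTop :=
        hN.const_mul_atTop (by positivity)
      filter_upwards [h1.eventually (gt_mem_nhds (show (0 : ℝ) < δ / 4 by positivity)),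
        h3.eventually (eventually_ge_atTop (δ / 4 - Real.log c))] with N hN1 hN2
      have hpos : (0 : ℝ) < (N : ℝ) + 1 := by positivity
      rw [div_lt_iff₀ hpos] at hN1
      linarith
    filter_upwards [a1, a2, a3] with N b1 b2 b3
    exact ⟨b1, b2, b3⟩
  obtain ⟨N₀, hN₀⟩ := eventually_atTop.mp ev1
  refine ⟨ε, hεpos, N₀, fun N hN M hM => ?_⟩
  obtain ⟨c1, c2, c3⟩ := hN₀ N hN
  have hNnn : (0 : ℝ) ≤ (N : ℝ) := Nat.cast_nonneg N
  rw [abs_le] at hM
  obtain ⟨hM1, hM2⟩ := hM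
  -- sub-box
  set J := ⌊κ * N⌋₊ with hJ
  have hJ1 : (J : ℝ) ≤ κ * N := Nat.floor_le (by positivity)
  have hJ2 : κ * N < J + 1 := Nat.lt_floor_add_one _
  have hJN : J ≤ N := by
    have : (J : ℝ) ≤ N := by nlinarith
    exact_mod_cast this
  set N' := N - J with hN'
  have hN'cast : (N' : ℝ) = N - J := by rw [hN']; push_cast [Nat.cast_sub hJN]; ring
  have hN'ge : N₁ ≤ N' := by
    have : (N₁ : ℝ) ≤ N' := by rw [hN'cast]; nlinarith
    exact_mod_cast this
  obtain ⟨M', hM'N, hM'1, hM'2, hM'3⟩ := hN₁ N' hN'ge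
  have hN'le : (N' : ℝ) ≤ N := by rw [hN'cast]; have : (0 : ℝ) ≤ J := Nat.cast_nonneg J; linarith
  have hN'nn : (0 : ℝ) ≤ (N' : ℝ) := Nat.cast_nonneg N'
  have hεN : ε * N' ≤ ε * N := mul_le_mul_of_nonneg_left hN'le hεpos.le
  have hκμ : κ * μ * N = 4 * (ε * N) := by rw [hε]; ring
  have hJμ1 : μ * J ≤ αq q * J := mul_le_mul_of_nonneg_right hμ1 (Nat.cast_nonneg J)
  have hJμ2 : μ * J ≤ (1 - αq q) * J := mul_le_mul_of_nonneg_right hμ2 (Nat.cast_nonneg J)
  have hJμ3 : μ * (κ * N) ≤ μ * (J + 1) := mul_le_mul_of_nonneg_left hJ2.le hμpos.le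
  have hμle1 : μ ≤ 1 := by linarith
  have hαN' : αq q * N' = αq q * N - αq q * J := by rw [hN'cast]; ring
  -- M' ≤ M
  have hμJ : μ * (κ * N) = 4 * (ε * N) := by rw [← hκμ]; ring
  have hεN1 : 1 ≤ 2 * (ε * N) := by linarith
  have hMM : (M' : ℝ) ≤ M := by
    have x1 : (αq q + ε) * N' = αq q * N' + ε * N' := by ring
    linarith
  have hMM' : M' ≤ M := by exact_mod_cast hMM
  -- M - M' ≤ J
  have hMJ : (M : ℝ) - M' ≤ J := by
    have x1 : (αq q - ε) * N' = αq q * N' - ε * N' := by ring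
    linarith
  have hMJ' : M - M' ≤ N - N' := by
    have h1 : N - N' = J := by rw [hN']; omega
    rw [h1]
    have : ((M - M' : ℕ) : ℝ) ≤ J := by push_cast [Nat.cast_sub hMM']; exact hMJ
    exact_mod_cast this
  have hac := ac_mono' hMM' hMJ' (by omega : N' ≤ N)
  have hpos' : 0 < c / (N' + 1) * Real.exp (N' * fq q - M' * gq q) := by positivity
  have hpos : 0 < ac N M := lt_of_lt_of_le (lt_of_lt_of_le hpos' hM'3) hac
  refine ⟨hpos, ?_⟩
  have hlog := Real.log_le_log hpos' (hM'3.trans hac)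
  rw [Real.log_mul (by positivity) (by positivity), Real.log_exp, Real.log_div hc.ne' (by positivity)]
    at hlog
  have hlogN : Real.log ((N' : ℝ) + 1) ≤ Real.log ((N : ℝ) + 1) :=
    Real.log_le_log (by positivity) (by linarith)
  -- |(M - M') g| ≤ κ N |g|
  have hg : |((M : ℝ) - M') * gq q| ≤ κ * N * |gq q| := by
    rw [abs_mul, abs_of_nonneg (by linarith : (0 : ℝ) ≤ (M : ℝ) - M')]
    exact mul_le_mul_of_nonneg_right (hMJ.trans hJ1) (abs_nonneg _)
  have hg' := (abs_le.mp hg).1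
  have hf : (J : ℝ) * fq q ≤ κ * N * fq q := mul_le_mul_of_nonneg_right hJ1 hfq.le
  have hN'f : (N' : ℝ) * fq q = N * fq q - J * fq q := by rw [hN'cast]; ring
  have hfinal : κ * N * |gq q| + κ * N * fq q ≤ δ / 2 * N := by
    have : κ * N * |gq q| + κ * N * fq q = κ * L * N := by rw [hL]; ring
    rw [this]
    exact mul_le_mul_of_nonneg_right hκ2 hNnn
  rw [sub_mul] at hg'
  linarith

end Pool.Agent.H96.Planted
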