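import Pool.Agent.H96.PlantedE

set_option autoImplicit false

open Filter Topology

namespace Pool.Agent.H96.Planted

lemma log_one_sub_sq {θ : ℝ} (h1 : θ ≤ 1 / 2) (h0 : 0 ≤ θ) :
    -θ ^ 2 ≤ (Real.log (1 - θ) + Real.log (1 + θ)) / 2 := by
  have e : Real.log (1 - θ) + Real.log (1 + θ) = Real.log (1 - θ ^ 2) := by
    rw [← Real.log_mul (by linarith) (by linarith)]; congr 1; ring
  rw [e]
  have hpos : 0 < 1 - θ ^ 2 := by nlinarith
  have h := Real.one_sub_inv_le_log_of_pos hpos
  have hu : θ ^ 2 ≤ 1 / 4 := by nlinarith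
  have hu0 : 0 ≤ θ ^ 2 := sq_nonneg θ
  have h3 : -(2 * θ ^ 2) ≤ 1 - (1 - θ ^ 2)⁻¹ := by
    have h4 : (1 - θ ^ 2)⁻¹ ≤ 1 + 2 * θ ^ 2 := by
      rw [inv_le_comm₀ hpos (by positivity), inv_le_iff_one_le_mul₀ (by positivity)]
      generalize θ ^ 2 = u at *
      nlinarith
    linarith
  linarith

lemma logG_lower {θ : ℝ} (h0 : 0 ≤ θ) (h1 : θ ≤ 1 / 2) (n : ℕ) (c : Bool) :
    -(θ ^ 2) * n ≤ S n (fun X => Real.log (G θ c X)) / 2 ^ n := by
  induction n generalizing c with
  | zero => simp [S_zero, G]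
  | succ n ih =>
    have key : ∀ x : Bool, S n (fun X => Real.log (G θ c (x :: X))) =
        2 ^ n * Real.log (1 - θ * e c x) + S n (fun X => Real.log (G θ x X)) := by
      intro x
      rw [← S_const, ← S_add]
      refine S_congr fun X _ => ?_
      simp only [G]
      rw [Real.log_mul]
      · unfold e; split_ifs <;> linarith
      · exact (G_pos h0 (by linarith) x X).ne'
    rw [S_succ, key false, key true, pow_succ (2 : ℝ) n]
    have i1 := ih false
    have i2 := ih true
    have hl := log_one_sub_sq h1 h0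
    have hsum : Real.log (1 - θ * e c false) + Real.log (1 - θ * e c true) =
        Real.log (1 - θ) + Real.log (1 + θ) := by
      cases c <;> simp [e, add_comm]
    have e1 : (2 ^ n * Real.log (1 - θ * e c false) + S n (fun X => Real.log (G θ false X)) +
        (2 ^ n * Real.log (1 - θ * e c true) + S n (fun X => Real.log (G θ true X)))) / (2 ^ n * 2) =
        (Real.log (1 - θ * e c false) + Real.log (1 - θ * e c true)) / 2 +
        (S n (fun X => Real.log (G θ false X)) / 2 ^ n + S n (fun X => Real.log (G θ true X)) / 2 ^ n) / 2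
        := by field_simp; ring
    rw [e1, hsum]
    push_cast
    linarith

lemma Dc_ge_one : ∀ (X : List Bool) (M : ℕ), M ≤ X.length → 1 ≤ Dc M X [] := by
  intro X
  induction X with
  | nil =>
    intro M hM
    have : M = 0 := by simpa using hM
    subst this
    rw [Dc_zero, Z_nil_right]; norm_num
  | cons x X ih =>
    intro M hM
    cases M with
    | zero => rw [Dc_zero, Z_nil_right]; norm_num
    | succ M =>
      exact (ih M (by simpa using hM)).trans (Dc_mono_use M x X)

lemma Dc_le_W {y : ℝ} (hy : 0 ≤ y) (X : List Bool) (M : ℕ) (hM : M ≤ X.length) :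
    y ^ M * Dc M X [] ≤ W y X [] := by
  rw [← sum_Dc y X [] (X.length + 1) (by omega)]
  exact Finset.single_le_sum (f := fun M => y ^ M * Dc M X [])
    (fun M _ => mul_nonneg (by positivity) (Dc_nonneg M X [])) (by simp; omega)

/-- upper bound on the quenched free energy of the pair model -/
lemma quenched_upper {q θ ρ : ℝ} (hq : 1 < q) (h0 : 0 < θ) (h1 : θ ≤ 1 / 2) (hρ : 0 < ρ)
    (hU : ∀ (n : ℕ) (c : Bool), U θ (2 * (q - 1) ^ 2 / q) n [] c ≤ ρ ^ n) (N M : ℕ) (hM : M ≤ N) :
    S N (fun X => Real.log (Dc M X [])) / 2 ^ N ≤ N * Real.log ρ - M * gq q + θ ^ 2 * N := by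
  have hq1 : 0 < q - 1 := by linarith
  have hq0 : 0 < q := by linarith
  have hy : 0 < 2 * (q - 1) ^ 2 / q := by positivity
  set A : ℝ := Real.exp (N * Real.log ρ - M * gq q) with hA
  have hApos : 0 < A := Real.exp_pos _
  have hAe : A = ρ ^ N / (2 * (q - 1) ^ 2 / q) ^ M := by
    rw [hA, Real.exp_sub, Real.exp_nat_mul, Real.exp_nat_mul, exp_gq hq, Real.exp_log hρ]
  have h2N : (0 : ℝ) < 2 ^ N := by positivity
  -- pointwise
  have hpt : ∀ X : List Bool, X.length = N → Real.log (Dc M X []) ≤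
      (Real.log A - 1) + (1 / A) * (G θ false X * Dc M X []) + - Real.log (G θ false X) := by
    intro X hX
    have hD : 0 < Dc M X [] := lt_of_lt_of_le one_pos (Dc_ge_one X M (by omega))
    have hG : 0 < G θ false X := G_pos h0.le (by linarith) false X
    have h3 := Real.log_le_sub_one_of_pos (show 0 < G θ false X * Dc M X [] / A by positivity)
    rw [Real.log_div (by positivity) hApos.ne', Real.log_mul hG.ne' hD.ne'] at h3
    have h4 : G θ false X * Dc M X [] / A = (1 / A) * (G θ false X * Dc M X []) := by ring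
    rw [h4] at h3
    linarith
  have hS := S_mono hpt
  rw [S_add, S_add, S_const, S_mul_left, S_neg] at hS
  -- the tilted expectation
  have hE : S N (fun X => G θ false X * Dc M X []) ≤ 2 ^ N * A := by
    have h5 : (2 * (q - 1) ^ 2 / q) ^ M * S N (fun X => G θ false X * Dc M X []) ≤
        S N (fun X => G θ false X * W (2 * (q - 1) ^ 2 / q) X []) := by
      rw [← S_mul_left]
      refine S_mono fun X hX => ?_
      have h6 := Dc_le_W hy.le X M (by omega)
      have h7 := mul_le_mul_of_nonneg_left h6 (G_nonneg h0.le (by linarith) false X)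
      linarith
    have h8 := hU N false
    unfold U at h8
    rw [div_le_iff₀ h2N] at h8
    rw [hAe, ← mul_div_assoc, le_div_iff₀ (by positivity)]
    linarith
  have hE' : (1 / A) * S N (fun X => G θ false X * Dc M X []) ≤ 2 ^ N := by
    calc (1 / A) * S N (fun X => G θ false X * Dc M X []) ≤ (1 / A) * (2 ^ N * A) :=
          mul_le_mul_of_nonneg_left hE (by positivity)
      _ = 2 ^ N := by field_simp
  have hlogG := logG_lower h0.le h1 N false
  rw [le_div_iff₀ h2N] at hlogG
  have hlogA : Real.log A = N * Real.log ρ - M * gq q := Real.log_exp _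
  rw [div_le_iff₀ h2N, ← hlogA]
  nlinarith

lemma αq_pos {q : ℝ} (hq : 1 < q) : 0 < αq q := by
  unfold αq
  apply div_pos
  · exact mul_pos (by linarith) (by linarith)
  · exact mul_pos (by linarith) (by linarith)

lemma αq_lt_one {q : ℝ} (hq : 1 < q) : αq q < 1 := by
  unfold αq
  rw [div_lt_one (mul_pos (by linarith) (by linarith))]
  nlinarith

lemma exists_q {α : ℝ} (h0 : 0 < α) (h1 : α < 1) : ∃ q, 1 < q ∧ αq q = α := by
  set D := 4 - 4 * α + 9 * α ^ 2 with hD
  have hDpos : 0 < D := by rw [hD]; nlinarith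
  set s := Real.sqrt D with hs
  have hs2 : s ^ 2 = D := Real.sq_sqrt hDpos.le
  have hspos : 0 < s := Real.sqrt_pos.mpr hDpos
  have h1α : 0 < 4 * (1 - α) := by linarith
  set q := ((2 + α) + s) / (4 * (1 - α)) with hq
  have hq1 : 1 < q := by
    rw [hq, lt_div_iff₀ h1α]
    have : 2 - 5 * α < s := by
      by_cases hc : 2 - 5 * α ≤ 0
      · linarith
      · push Not at hc
        apply lt_of_pow_lt_pow_left₀ 2 hspos.le
        rw [hs2, hD]; nlinarith
    linarith
  have hquad : (2 - 2 * α) * q ^ 2 - (2 + α) * q + α = 0 := by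
    have e : q * (4 * (1 - α)) = (2 + α) + s := by rw [hq]; exact div_mul_cancel₀ _ h1α.ne'
    have h3 : s = q * (4 * (1 - α)) - (2 + α) := by linarith
    have h4 : (q * (4 * (1 - α)) - (2 + α)) ^ 2 = D := by rw [← h3, hs2]
    rw [hD] at h4
    have h5 : 8 * (1 - α) * ((2 - 2 * α) * q ^ 2 - (2 + α) * q + α) = 0 := by nlinarith
    have h6 : 8 * (1 - α) ≠ 0 := by linarith
    exact (mul_eq_zero.mp h5).resolve_left h6
  refine ⟨q, hq1, ?_⟩
  unfold αq
  rw [div_eq_iff (mul_pos (by linarith) (by linarith)).ne']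
  linarith

/-- quantitative quenched/annealed gap at the level of words -/
lemma main_list {α : ℝ} (h0 : 0 < α) (h1 : α < 1) :
    ∃ δ : ℝ, 0 < δ ∧ ∃ η : ℝ, 0 < η ∧ ∃ N₀ : ℕ, ∀ N ≥ N₀, ∀ M : ℕ, M ≤ N →
      |(M : ℝ) - α * N| ≤ η * N →
        0 < ac N M ∧ S N (fun X => Real.log (Dc M X [])) / 2 ^ N ≤ Real.log (ac N M) - δ * N := by
  obtain ⟨q, hq, rfl⟩ := exists_q h0 h1
  obtain ⟨θ, ρ, hθ, hθ1, hρ, hlt, hU⟩ := exists_tilt hq
  set δ := (Real.log (2 * q - 1) - (Real.log ρ + θ ^ 2)) / 2 with hδ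
  have hδpos : 0 < δ := by rw [hδ]; linarith
  obtain ⟨η, hη, N₀, hN₀⟩ := ac_lower hq hδpos h0 h1
  refine ⟨δ, hδpos, η, hη, N₀, fun N hN M hMN hM => ?_⟩
  obtain ⟨hpos, hlow⟩ := hN₀ N hN M hM
  refine ⟨hpos, ?_⟩
  have hup := quenched_upper hq hθ hθ1 hρ hU N M hMN
  have hfq : fq q = Real.log ρ + θ ^ 2 + 2 * δ := by
    rw [hδ]; unfold fq; ring
  rw [hfq] at hlow
  have : (N : ℝ) * (Real.log ρ + θ ^ 2 + 2 * δ) = N * Real.log ρ + θ ^ 2 * N + 2 * (δ * N) := by ring
  linarith

end Pool.Agent.H96.Planted
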