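import Mathlib

/-! Random sequential adsorption of `r`-mers on `{1,…,n}`: the model and the moment recursions. -/

open MeasureTheory ProbabilityTheory Filter Topology

namespace Pool.Agent.H96.Rsa

/-- The block of `r` consecutive sites starting at site `i`. -/
def block (r i : ℕ) : Finset ℕ := Finset.Ico i (i + r)

/-- The free positions when the sites in `A` are covered: those `i` for which the whole block of
`r` sites starting at `i` consists of uncovered sites of `{1, …, n}`. -/
def free (r n : ℕ) (A : Finset ℕ) : Finset ℕ :=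
  (Finset.Icc 1 n).filter fun i => block r i ⊆ Finset.Icc 1 n \ A

/-- The law of the number of `r`-mers placed in (at most) `k` further placements when the sites in
`A` are covered. Each placement is uniform among the free positions; when there is no free
position left, nothing more is placed. -/
noncomputable def placed (r n : ℕ) : ℕ → Finset ℕ → PMF ℕ
  | 0, _ => PMF.pure 0
  | k + 1, A =>
    if h : (free r n A).Nonempty then
      (PMF.uniformOfFinset (free r n A) h).bind
        fun i => (placed r n k (A ∪ block r i)).map (· + 1)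
    else PMF.pure 0

/-- The law of the jamming count `C_n`, the number of `r`-mers in the jammed configuration on
`{1, …, n}` (for `r ≥ 1`, `n` placements always suffice to reach jamming). -/
noncomputable def jammingCount (r n : ℕ) : PMF ℕ := placed r n n ∅

/-- positions left after a placement -/
def rest (r : ℕ) (S : Finset ℕ) (i : ℕ) : Finset ℕ :=
  (S.erase i).filter fun j => i + r ≤ j ∨ j + r ≤ i

lemma rest_card_lt {r : ℕ} {S : Finset ℕ} {i : ℕ} (hi : i ∈ S) :
    (rest r S i).card < S.card :=
  lt_of_le_of_lt (Finset.card_filter_le _ _) (Finset.card_erase_lt_of_mem hi)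

lemma mem_free {r n : ℕ} {A : Finset ℕ} {j : ℕ} : j ∈ free r n A ↔
    (1 ≤ j ∧ j ≤ n) ∧ ∀ x, j ≤ x → x < j + r → (1 ≤ x ∧ x ≤ n) ∧ x ∉ A := by
  rw [free, Finset.mem_filter, Finset.mem_Icc, Finset.subset_iff]
  simp only [block, Finset.mem_Ico, Finset.mem_sdiff, Finset.mem_Icc, and_imp]

lemma free_union {r : ℕ} (hr : 1 ≤ r) (n : ℕ) (A : Finset ℕ) (i : ℕ) :
    free r n (A ∪ block r i) = rest r (free r n A) i := by
  ext j
  simp only [mem_free, rest, block, Finset.mem_filter, Finset.mem_erase,
    Finset.mem_union, Finset.mem_Ico, not_or]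
  constructor
  · rintro ⟨h1, h2⟩
    have hj := h2 j le_rfl (by omega)
    refine ⟨⟨?_, h1, fun x hx hx' => ⟨(h2 x hx hx').1, (h2 x hx hx').2.1⟩⟩, ?_⟩
    · rintro rfl
      exact hj.2.2 ⟨le_refl _, by omega⟩
    · by_contra hcon
      push Not at hcon
      rcases le_total i j with h | h
      · exact hj.2.2 ⟨h, hcon.1⟩
      · exact (h2 i h hcon.2).2.2 ⟨le_refl _, by omega⟩
  · rintro ⟨⟨h0, h1, h2⟩, h3⟩
    refine ⟨h1, fun x hx hx' => ⟨(h2 x hx hx').1, (h2 x hx hx').2, fun hx'' => ?_⟩⟩
    omega

lemma free_empty {r : ℕ} (hr : 1 ≤ r) (n : ℕ) :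
    free r n ∅ = Finset.Ico 1 (1 + (n + 1 - r)) := by
  ext j
  simp only [mem_free, Finset.notMem_empty, not_false_eq_true, and_true, Finset.mem_Ico]
  constructor
  · rintro ⟨h1, h2⟩
    have := h2 (j + r - 1) (by omega) (by omega)
    omega
  · rintro ⟨h1, h2⟩
    refine ⟨⟨h1, by omega⟩, fun x hx hx' => ⟨by omega, by omega⟩⟩

/-! ### Moments as functions of the set of free positions -/

/-- mean number of placements -/
noncomputable def mean (r : ℕ) (S : Finset ℕ) : ℝ :=
  if S = ∅ then 0 else 1 + (∑ i ∈ S.attach, mean r (rest r S i)) / S.card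
termination_by S.card
decreasing_by exact rest_card_lt i.2

/-- second moment of the number of placements -/
noncomputable def sec (r : ℕ) (S : Finset ℕ) : ℝ :=
  if S = ∅ then 0 else
    1 + (∑ i ∈ S.attach, (2 * mean r (rest r S i) + sec r (rest r S i))) / S.card
termination_by S.card
decreasing_by exact rest_card_lt i.2

lemma mean_empty (r : ℕ) : mean r ∅ = 0 := by rw [mean]; simp

lemma sec_empty (r : ℕ) : sec r ∅ = 0 := by rw [sec]; simp

lemma card_mul_mean (r : ℕ) (S : Finset ℕ) :
    (S.card : ℝ) * mean r S = S.card + ∑ i ∈ S, mean r (rest r S i) := by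
  rcases S.eq_empty_or_nonempty with rfl | hS
  · simp
  · have hc : (S.card : ℝ) ≠ 0 := by
      exact_mod_cast (Finset.card_pos.mpr hS).ne'
    rw [mean, if_neg hS.ne_empty, Finset.sum_attach S (fun i => mean r (rest r S i))]
    field_simp

lemma card_mul_sec (r : ℕ) (S : Finset ℕ) :
    (S.card : ℝ) * sec r S = S.card + 2 * ∑ i ∈ S, mean r (rest r S i)
      + ∑ i ∈ S, sec r (rest r S i) := by
  rcases S.eq_empty_or_nonempty with rfl | hS
  · simp
  · have hc : (S.card : ℝ) ≠ 0 := by
      exact_mod_cast (Finset.card_pos.mpr hS).ne'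
    rw [sec, if_neg hS.ne_empty,
      Finset.sum_attach S (fun i => 2 * mean r (rest r S i) + sec r (rest r S i)),
      Finset.sum_add_distrib, ← Finset.mul_sum]
    field_simp
    ring

lemma mean_eq (r : ℕ) {S : Finset ℕ} (hS : S.Nonempty) :
    mean r S = 1 + (S.card : ℝ)⁻¹ * ∑ i ∈ S, mean r (rest r S i) := by
  have hc : (S.card : ℝ) ≠ 0 := by
    exact_mod_cast (Finset.card_pos.mpr hS).ne'
  have := card_mul_mean r S
  field_simp
  linarith

lemma sec_eq (r : ℕ) {S : Finset ℕ} (hS : S.Nonempty) :
    sec r S = 1 + (S.card : ℝ)⁻¹ * (2 * ∑ i ∈ S, mean r (rest r S i)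
      + ∑ i ∈ S, sec r (rest r S i)) := by
  have hc : (S.card : ℝ) ≠ 0 := by
    exact_mod_cast (Finset.card_pos.mpr hS).ne'
  have := card_mul_sec r S
  field_simp
  linarith

/-- two sets of positions do not interact -/
def Far (r : ℕ) (A B : Finset ℕ) : Prop := ∀ a ∈ A, ∀ b ∈ B, a ≠ b ∧ (a + r ≤ b ∨ b + r ≤ a)

lemma Far.rest_left {r : ℕ} {A B : Finset ℕ} (h : Far r A B) (i : ℕ) : Far r (rest r A i) B := by
  intro a ha b hb
  simp only [rest, Finset.mem_filter, Finset.mem_erase] at ha
  exact h a ha.1.2 b hb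

lemma Far.symm {r : ℕ} {A B : Finset ℕ} (h : Far r A B) : Far r B A := by
  intro a ha b hb
  have := h b hb a ha
  exact ⟨this.1.symm, this.2.symm⟩

lemma Far.disjoint {r : ℕ} {A B : Finset ℕ} (h : Far r A B) : Disjoint A B := by
  rw [Finset.disjoint_left]
  intro a ha hb
  exact (h a ha a hb).1 rfl

lemma rest_union_left {r : ℕ} {A B : Finset ℕ} (h : Far r A B) {i : ℕ} (hi : i ∈ A) :
    rest r (A ∪ B) i = rest r A i ∪ B := by
  ext j
  simp only [rest, Finset.mem_filter, Finset.mem_erase, Finset.mem_union]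
  constructor
  · rintro ⟨⟨h1, h2 | h2⟩, h3⟩
    · exact Or.inl ⟨⟨h1, h2⟩, h3⟩
    · exact Or.inr h2
  · rintro (⟨⟨h1, h2⟩, h3⟩ | h2)
    · exact ⟨⟨h1, Or.inl h2⟩, h3⟩
    · have := h i hi j h2
      exact ⟨⟨this.1.symm, Or.inr h2⟩, this.2⟩

lemma mean_union (r : ℕ) : ∀ (N : ℕ) (A B : Finset ℕ), A.card + B.card ≤ N → Far r A B →
    mean r (A ∪ B) = mean r A + mean r B := by
  intro N
  induction N with
  | zero =>
    intro A B hN _
    have hA : A = ∅ := Finset.card_eq_zero.mp (by omega)
    have hB : B = ∅ := Finset.card_eq_zero.mp (by omega)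
    subst hA hB
    simp [mean_empty]
  | succ N ih =>
    intro A B hN hF
    by_cases h0 : A.card + B.card = 0
    · have hA : A = ∅ := Finset.card_eq_zero.mp (by omega)
      have hB : B = ∅ := Finset.card_eq_zero.mp (by omega)
      subst hA hB
      simp [mean_empty]
    have hcard : (A ∪ B).card = A.card + B.card := Finset.card_union_of_disjoint hF.disjoint
    have h1 : ∑ i ∈ A, mean r (rest r (A ∪ B) i)
        = ∑ i ∈ A, mean r (rest r A i) + A.card * mean r B := by
      rw [Finset.sum_congr rfl (g := fun i => mean r (rest r A i) + mean r B)]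
      · rw [Finset.sum_add_distrib, Finset.sum_const, nsmul_eq_mul]
      · intro i hi
        rw [rest_union_left hF hi]
        exact ih _ _ (by have := rest_card_lt (r := r) hi; omega) (hF.rest_left i)
    have h2 : ∑ i ∈ B, mean r (rest r (A ∪ B) i)
        = ∑ i ∈ B, mean r (rest r B i) + B.card * mean r A := by
      rw [Finset.sum_congr rfl (g := fun i => mean r (rest r B i) + mean r A)]
      · rw [Finset.sum_add_distrib, Finset.sum_const, nsmul_eq_mul]
      · intro i hi
        rw [Finset.union_comm, rest_union_left hF.symm hi]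
        exact ih _ _ (by have := rest_card_lt (r := r) hi; omega) (hF.symm.rest_left i)
    have hpos : ((A.card : ℝ) + B.card) ≠ 0 := by exact_mod_cast h0
    have e := card_mul_mean r (A ∪ B)
    rw [hcard, Finset.sum_union hF.disjoint, h1, h2] at e
    have eA := card_mul_mean r A
    have eB := card_mul_mean r B
    push_cast at e
    apply mul_left_cancel₀ hpos
    linear_combination e - eA - eB

lemma sec_union (r : ℕ) : ∀ (N : ℕ) (A B : Finset ℕ), A.card + B.card ≤ N → Far r A B →
    sec r (A ∪ B) = sec r A + 2 * mean r A * mean r B + sec r B := by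
  intro N
  induction N with
  | zero =>
    intro A B hN _
    have hA : A = ∅ := Finset.card_eq_zero.mp (by omega)
    have hB : B = ∅ := Finset.card_eq_zero.mp (by omega)
    subst hA hB
    simp [mean_empty, sec_empty]
  | succ N ih =>
    intro A B hN hF
    by_cases h0 : A.card + B.card = 0
    · have hA : A = ∅ := Finset.card_eq_zero.mp (by omega)
      have hB : B = ∅ := Finset.card_eq_zero.mp (by omega)
      subst hA hB
      simp [mean_empty, sec_empty]
    have hcard : (A ∪ B).card = A.card + B.card := Finset.card_union_of_disjoint hF.disjoint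
    have m1 : ∑ i ∈ A, mean r (rest r (A ∪ B) i)
        = ∑ i ∈ A, mean r (rest r A i) + A.card * mean r B := by
      rw [Finset.sum_congr rfl (g := fun i => mean r (rest r A i) + mean r B)]
      · rw [Finset.sum_add_distrib, Finset.sum_const, nsmul_eq_mul]
      · intro i hi
        rw [rest_union_left hF hi]
        exact mean_union r _ _ _ le_rfl (hF.rest_left i)
    have m2 : ∑ i ∈ B, mean r (rest r (A ∪ B) i)
        = ∑ i ∈ B, mean r (rest r B i) + B.card * mean r A := by
      rw [Finset.sum_congr rfl (g := fun i => mean r (rest r B i) + mean r A)]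
      · rw [Finset.sum_add_distrib, Finset.sum_const, nsmul_eq_mul]
      · intro i hi
        rw [Finset.union_comm, rest_union_left hF.symm hi]
        exact mean_union r _ _ _ le_rfl (hF.symm.rest_left i)
    have h1 : ∑ i ∈ A, sec r (rest r (A ∪ B) i)
        = ∑ i ∈ A, sec r (rest r A i) + 2 * (∑ i ∈ A, mean r (rest r A i)) * mean r B
          + A.card * sec r B := by
      rw [Finset.sum_congr rfl (g := fun i => sec r (rest r A i)
        + 2 * mean r (rest r A i) * mean r B + sec r B)]
      · rw [Finset.sum_add_distrib, Finset.sum_add_distrib, Finset.sum_const, nsmul_eq_mul,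
          ← Finset.sum_mul, ← Finset.mul_sum]
      · intro i hi
        rw [rest_union_left hF hi]
        exact ih _ _ (by have := rest_card_lt (r := r) hi; omega) (hF.rest_left i)
    have h2 : ∑ i ∈ B, sec r (rest r (A ∪ B) i)
        = ∑ i ∈ B, sec r (rest r B i) + 2 * (∑ i ∈ B, mean r (rest r B i)) * mean r A
          + B.card * sec r A := by
      rw [Finset.sum_congr rfl (g := fun i => sec r (rest r B i)
        + 2 * mean r (rest r B i) * mean r A + sec r A)]
      · rw [Finset.sum_add_distrib, Finset.sum_add_distrib, Finset.sum_const, nsmul_eq_mul,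
          ← Finset.sum_mul, ← Finset.mul_sum]
      · intro i hi
        rw [Finset.union_comm, rest_union_left hF.symm hi]
        exact ih _ _ (by have := rest_card_lt (r := r) hi; omega) (hF.symm.rest_left i)
    have hpos : ((A.card : ℝ) + B.card) ≠ 0 := by exact_mod_cast h0
    have e := card_mul_sec r (A ∪ B)
    rw [hcard, Finset.sum_union hF.disjoint, Finset.sum_union hF.disjoint, m1, m2, h1, h2] at e
    have eA := card_mul_sec r A
    have eB := card_mul_sec r B
    have fA := card_mul_mean r A
    have fB := card_mul_mean r B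
    push_cast at e
    apply mul_left_cancel₀ hpos
    linear_combination e - eA - eB - 2 * mean r B * fA - 2 * mean r A * fB

/-! ### Intervals -/

lemma rest_Ico {r : ℕ} (hr : 1 ≤ r) (a N t : ℕ) (ht : t < N) :
    rest r (Finset.Ico a (a + N)) (a + t)
      = Finset.Ico a (a + (t + 1 - r)) ∪
        Finset.Ico (a + t + r) (a + t + r + (N - t - r)) := by
  ext j
  simp only [rest, Finset.mem_filter, Finset.mem_erase, Finset.mem_union, Finset.mem_Ico]
  omega

lemma far_Ico {r : ℕ} (hr : 1 ≤ r) (a N t : ℕ) (ht : t < N) :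
    Far r (Finset.Ico a (a + (t + 1 - r)))
        (Finset.Ico (a + t + r) (a + t + r + (N - t - r))) := by
  intro x hx y hy
  simp only [Finset.mem_Ico] at hx hy
  omega

/-- mean number of placements with `N` consecutive free positions -/
noncomputable def M (r N : ℕ) : ℝ := mean r (Finset.Ico 0 N)

/-- second moment with `N` consecutive free positions -/
noncomputable def S2 (r N : ℕ) : ℝ := sec r (Finset.Ico 0 N)

lemma sum_Ico_shift (a N : ℕ) (f : ℕ → ℝ) :
    ∑ i ∈ Finset.Ico a (a + N), f i = ∑ t ∈ Finset.range N, f (a + t) := by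
  rw [Finset.sum_Ico_eq_sum_range, Nat.add_sub_cancel_left]

lemma mean_Ico {r : ℕ} (hr : 1 ≤ r) : ∀ (N a : ℕ), mean r (Finset.Ico a (a + N)) = M r N := by
  intro N
  induction N using Nat.strong_induction_on with
  | _ N ih =>
    intro a
    rcases Nat.eq_zero_or_pos N with rfl | hN
    · simp [M]
    have key : ∀ b : ℕ, (N : ℝ) * mean r (Finset.Ico b (b + N))
        = N + ∑ t ∈ Finset.range N, (M r (t + 1 - r) + M r (N - t - r)) := by
      intro b
      have e := card_mul_mean r (Finset.Ico b (b + N))
      rw [Nat.card_Ico, Nat.add_sub_cancel_left, sum_Ico_shift] at e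
      rw [e]
      congr 1
      apply Finset.sum_congr rfl
      intro t ht
      rw [Finset.mem_range] at ht
      rw [rest_Ico hr b N t ht, mean_union r _ _ _ le_rfl (far_Ico hr b N t ht),
        ih _ (by omega), ih _ (by omega)]
    have hN' : (N : ℝ) ≠ 0 := by exact_mod_cast hN.ne'
    apply mul_left_cancel₀ hN'
    rw [key a, M]
    have := key 0
    rw [Nat.zero_add] at this
    rw [this]

lemma sec_Ico {r : ℕ} (hr : 1 ≤ r) : ∀ (N a : ℕ), sec r (Finset.Ico a (a + N)) = S2 r N := by
  intro N
  induction N using Nat.strong_induction_on with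
  | _ N ih =>
    intro a
    rcases Nat.eq_zero_or_pos N with rfl | hN
    · simp [S2]
    have key : ∀ b : ℕ, (N : ℝ) * sec r (Finset.Ico b (b + N))
        = N + 2 * ∑ t ∈ Finset.range N, (M r (t + 1 - r) + M r (N - t - r))
          + ∑ t ∈ Finset.range N, (S2 r (t + 1 - r) + 2 * M r (t + 1 - r) * M r (N - t - r)
            + S2 r (N - t - r)) := by
      intro b
      have e := card_mul_sec r (Finset.Ico b (b + N))
      rw [Nat.card_Ico, Nat.add_sub_cancel_left, sum_Ico_shift, sum_Ico_shift] at e
      rw [e]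
      congr 1
      · congr 2
        apply Finset.sum_congr rfl
        intro t ht
        rw [Finset.mem_range] at ht
        rw [rest_Ico hr b N t ht, mean_union r _ _ _ le_rfl (far_Ico hr b N t ht),
          mean_Ico hr, mean_Ico hr]
      · apply Finset.sum_congr rfl
        intro t ht
        rw [Finset.mem_range] at ht
        rw [rest_Ico hr b N t ht, sec_union r _ _ _ le_rfl (far_Ico hr b N t ht),
          mean_Ico hr, mean_Ico hr, ih _ (by omega), ih _ (by omega)]
    have hN' : (N : ℝ) ≠ 0 := by exact_mod_cast hN.ne'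
    apply mul_left_cancel₀ hN'
    rw [key a, S2]
    have := key 0
    rw [Nat.zero_add] at this
    rw [this]

lemma M_rec {r : ℕ} (hr : 1 ≤ r) (N : ℕ) : (N : ℝ) * M r N
    = N + ∑ t ∈ Finset.range N, (M r (t + 1 - r) + M r (N - t - r)) := by
  have e := card_mul_mean r (Finset.Ico 0 (0 + N))
  rw [Nat.card_Ico, Nat.add_sub_cancel_left, sum_Ico_shift, mean_Ico hr] at e
  rw [e]
  congr 1
  apply Finset.sum_congr rfl
  intro t ht
  rw [Finset.mem_range] at ht
  rw [rest_Ico hr 0 N t ht, mean_union r _ _ _ le_rfl (far_Ico hr 0 N t ht),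
    mean_Ico hr, mean_Ico hr]

lemma S2_rec {r : ℕ} (hr : 1 ≤ r) (N : ℕ) : (N : ℝ) * S2 r N
    = N + 2 * ∑ t ∈ Finset.range N, (M r (t + 1 - r) + M r (N - t - r))
          + ∑ t ∈ Finset.range N, (S2 r (t + 1 - r) + 2 * M r (t + 1 - r) * M r (N - t - r)
            + S2 r (N - t - r)) := by
  have e := card_mul_sec r (Finset.Ico 0 (0 + N))
  rw [Nat.card_Ico, Nat.add_sub_cancel_left, sum_Ico_shift, sum_Ico_shift, sec_Ico hr] at e
  rw [e]
  congr 1
  · congr 2
    apply Finset.sum_congr rfl
    intro t ht
    rw [Finset.mem_range] at ht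
    rw [rest_Ico hr 0 N t ht, mean_union r _ _ _ le_rfl (far_Ico hr 0 N t ht),
      mean_Ico hr, mean_Ico hr]
  · apply Finset.sum_congr rfl
    intro t ht
    rw [Finset.mem_range] at ht
    rw [rest_Ico hr 0 N t ht, sec_union r _ _ _ le_rfl (far_Ico hr 0 N t ht),
      mean_Ico hr, mean_Ico hr, sec_Ico hr, sec_Ico hr]

/-- `E (C_n + 1)` -/
noncomputable def x (r n : ℕ) : ℝ := 1 + M r (n + 1 - r)

/-- `E (C_n + 1)^2` -/
noncomputable def y (r n : ℕ) : ℝ := 1 + 2 * M r (n + 1 - r) + S2 r (n + 1 - r)

lemma x_small {r n : ℕ} (h : n < r) : x r n = 1 := by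
  have : n + 1 - r = 0 := by omega
  simp [x, this, M, mean_empty]

lemma y_small {r n : ℕ} (h : n < r) : y r n = 1 := by
  have : n + 1 - r = 0 := by omega
  simp [y, this, M, S2, mean_empty, sec_empty]

lemma x_rec {r : ℕ} (hr : 1 ≤ r) (m : ℕ) :
    ((m : ℝ) + 1) * x r (m + r) = 2 * ∑ j ∈ Finset.range (m + 1), x r j := by
  have h1 : m + r + 1 - r = m + 1 := by omega
  have e := M_rec hr (m + 1)
  have h2 : ∑ t ∈ Finset.range (m + 1), (M r (t + 1 - r) + M r (m + 1 - t - r))
      = ∑ t ∈ Finset.range (m + 1), (x r t - 1) + ∑ t ∈ Finset.range (m + 1), (x r t - 1) := by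
    rw [Finset.sum_add_distrib]
    congr 1
    · apply Finset.sum_congr rfl
      intro t _
      simp [x]
    · rw [← Finset.sum_range_reflect]
      apply Finset.sum_congr rfl
      intro t ht
      rw [Finset.mem_range] at ht
      simp only [x]
      have : m + 1 - (m + 1 - 1 - t) - r = t + 1 - r := by omega
      rw [this]
      ring
  rw [h2, Finset.sum_sub_distrib] at e
  simp only [Finset.sum_const, Finset.card_range, nsmul_eq_mul, mul_one] at e
  push_cast at e
  rw [x, h1]
  linear_combination e

lemma y_rec {r : ℕ} (hr : 1 ≤ r) (m : ℕ) :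
    ((m : ℝ) + 1) * y r (m + r) = 2 * ∑ j ∈ Finset.range (m + 1), y r j
      + 2 * ∑ j ∈ Finset.range (m + 1), x r j * x r (m - j) := by
  have h1 : m + r + 1 - r = m + 1 := by omega
  have e := M_rec hr (m + 1)
  have e2 := S2_rec hr (m + 1)
  have key : ∑ j ∈ Finset.range (m + 1), (y r j + y r (m - j) + 2 * (x r j * x r (m - j)))
      = 4 * ((m : ℝ) + 1) + 4 * ∑ t ∈ Finset.range (m + 1), (M r (t + 1 - r) + M r (m + 1 - t - r))
        + ∑ t ∈ Finset.range (m + 1), (S2 r (t + 1 - r)
          + 2 * M r (t + 1 - r) * M r (m + 1 - t - r) + S2 r (m + 1 - t - r)) := by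
    have : (4 : ℝ) * ((m : ℝ) + 1) = ∑ t ∈ Finset.range (m + 1), (4 : ℝ) := by
      simp only [Finset.sum_const, Finset.card_range, nsmul_eq_mul]
      push_cast
      ring
    rw [this, Finset.mul_sum, ← Finset.sum_add_distrib, ← Finset.sum_add_distrib]
    apply Finset.sum_congr rfl
    intro t ht
    rw [Finset.mem_range] at ht
    have h3 : m - t + 1 - r = m + 1 - t - r := by omega
    simp only [x, y, h3]
    ring
  have hrefl : ∑ j ∈ Finset.range (m + 1), y r (m - j) = ∑ j ∈ Finset.range (m + 1), y r j := by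
    rw [← Finset.sum_range_reflect]
    apply Finset.sum_congr rfl
    intro t ht
    rw [Finset.mem_range] at ht
    congr 1
    omega
  rw [Finset.sum_add_distrib, Finset.sum_add_distrib, hrefl, ← Finset.mul_sum] at key
  push_cast at e e2
  rw [y, h1]
  linear_combination e2 + 2 * e - key

end Pool.Agent.H96.Rsa
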