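import Pool.Agent.H96.RsaA

/-! The variance of the jamming count in terms of the moment recursions. -/

open MeasureTheory ProbabilityTheory Filter Topology

namespace Pool.Agent.H96.Rsa

lemma toMeasure_placed_succ (r n k : ℕ) (A : Finset ℕ) (h : (free r n A).Nonempty) :
    (placed r n (k + 1) A).toMeasure = ((free r n A).card : ENNReal)⁻¹ •
      ∑ i ∈ free r n A, (placed r n k (A ∪ block r i)).toMeasure.map (· + 1) := by
  ext s hs
  rw [placed, dif_pos h, PMF.toMeasure_bind_apply _ _ _ hs]
  rw [tsum_eq_sum (s := free r n A)]
  · rw [Measure.smul_apply, Measure.finsetSum_apply, smul_eq_mul, Finset.mul_sum]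
    apply Finset.sum_congr rfl
    intro i hi
    rw [PMF.uniformOfFinset_apply, if_pos hi, PMF.toMeasure_map _ _ (measurable_of_countable _)]
  · intro b hb
    rw [PMF.uniformOfFinset_apply, if_neg hb, zero_mul]

lemma integrable_placed (r n : ℕ) : ∀ (k : ℕ) (A : Finset ℕ) (f : ℕ → ℝ),
    Integrable f (placed r n k A).toMeasure := by
  intro k
  induction k with
  | zero =>
    intro A f
    rw [placed, PMF.toMeasure_pure]
    exact integrable_dirac (by simp)
  | succ k ih =>
    intro A f
    by_cases h : (free r n A).Nonempty
    · rw [toMeasure_placed_succ r n k A h]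
      apply Integrable.smul_measure
      · rw [integrable_finsetSum_measure]
        intro i _
        rw [integrable_map_measure (by fun_prop) (by fun_prop)]
        exact ih _ _
      · have := Finset.card_pos.mpr h
        simp [this.ne']
    · rw [placed, dif_neg h, PMF.toMeasure_pure]
      exact integrable_dirac (by simp)

lemma integral_placed_succ (r n k : ℕ) (A : Finset ℕ) (h : (free r n A).Nonempty) (f : ℕ → ℝ) :
    ∫ c, f c ∂(placed r n (k + 1) A).toMeasure = ((free r n A).card : ℝ)⁻¹ *
      ∑ i ∈ free r n A, ∫ c, f (c + 1) ∂(placed r n k (A ∪ block r i)).toMeasure := by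
  rw [toMeasure_placed_succ r n k A h, integral_smul_measure, integral_finsetSum_measure]
  · rw [smul_eq_mul, ENNReal.toReal_inv, ENNReal.toReal_natCast]
    congr 1
    apply Finset.sum_congr rfl
    intro i _
    rw [integral_map (by fun_prop) (by fun_prop)]
  · intro i _
    rw [integrable_map_measure (by fun_prop) (by fun_prop)]
    exact integrable_placed r n k _ _

lemma integral_mean {r : ℕ} (hr : 1 ≤ r) (n : ℕ) : ∀ (k : ℕ) (A : Finset ℕ),
    (free r n A).card ≤ k → ∫ c, (c : ℝ) ∂(placed r n k A).toMeasure = mean r (free r n A) := by
  intro k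
  induction k with
  | zero =>
    intro A hA
    have : free r n A = ∅ := Finset.card_eq_zero.mp (by omega)
    rw [this, mean_empty, placed, PMF.toMeasure_pure, integral_dirac]
    simp
  | succ k ih =>
    intro A hA
    by_cases h : (free r n A).Nonempty
    · rw [integral_placed_succ r n k A h, mean_eq r h]
      have hc : ((free r n A).card : ℝ) ≠ 0 := by
        exact_mod_cast (Finset.card_pos.mpr h).ne'
      rw [Finset.sum_congr rfl (g := fun i => 1 + mean r (rest r (free r n A) i))]
      · rw [Finset.sum_add_distrib, Finset.sum_const, nsmul_eq_mul]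
        field_simp
      · intro i hi
        push_cast
        rw [integral_add (integrable_placed _ _ _ _ _) (integrable_placed _ _ _ _ _), ih,
          free_union hr]
        · simp [add_comm]
        · rw [free_union hr]
          have := rest_card_lt (r := r) hi
          omega
    · rw [placed, dif_neg h, PMF.toMeasure_pure, integral_dirac,
        Finset.not_nonempty_iff_eq_empty.mp h, mean_empty]
      simp

lemma integral_sec {r : ℕ} (hr : 1 ≤ r) (n : ℕ) : ∀ (k : ℕ) (A : Finset ℕ),
    (free r n A).card ≤ k →
      ∫ c, (c : ℝ) ^ 2 ∂(placed r n k A).toMeasure = sec r (free r n A) := by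
  intro k
  induction k with
  | zero =>
    intro A hA
    have : free r n A = ∅ := Finset.card_eq_zero.mp (by omega)
    rw [this, sec_empty, placed, PMF.toMeasure_pure, integral_dirac]
    simp
  | succ k ih =>
    intro A hA
    by_cases h : (free r n A).Nonempty
    · rw [integral_placed_succ r n k A h, sec_eq r h]
      have hc : ((free r n A).card : ℝ) ≠ 0 := by
        exact_mod_cast (Finset.card_pos.mpr h).ne'
      rw [Finset.sum_congr rfl (g := fun i => 1 + (2 * mean r (rest r (free r n A) i)
        + sec r (rest r (free r n A) i)))]
      · rw [Finset.sum_add_distrib, Finset.sum_const, nsmul_eq_mul, Finset.sum_add_distrib,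
          ← Finset.mul_sum]
        field_simp
      · intro i hi
        have hlt := rest_card_lt (r := r) hi
        have e : ∀ c : ℕ, ((c + 1 : ℕ) : ℝ) ^ 2 = 1 + (2 * (c : ℝ) + (c : ℝ) ^ 2) := by
          intro c; push_cast; ring
        simp only [e]
        rw [integral_add (integrable_placed _ _ _ _ _) (integrable_placed _ _ _ _ _),
          integral_add (integrable_placed _ _ _ _ _) (integrable_placed _ _ _ _ _),
          integral_const_mul, ih, integral_mean hr, free_union hr]
        · simp
        · rw [free_union hr]; omega
        · rw [free_union hr]; omega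
    · rw [placed, dif_neg h, PMF.toMeasure_pure, integral_dirac,
        Finset.not_nonempty_iff_eq_empty.mp h, sec_empty]
      simp

/-- The variance of the jamming count. -/
lemma variance_jammingCount {r : ℕ} (hr : 1 ≤ r) (n : ℕ) :
    variance (fun c : ℕ => (c : ℝ)) (jammingCount r n).toMeasure = y r n - x r n ^ 2 := by
  have hcard : (free r n ∅).card ≤ n := by
    rw [free_empty hr, Nat.card_Ico]; omega
  rw [variance_eq_sub]
  · simp only [Pi.pow_apply, jammingCount]
    rw [integral_mean hr n n ∅ hcard, integral_sec hr n n ∅ hcard, free_empty hr,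
      mean_Ico hr, sec_Ico hr, x, y]
    ring
  · rw [memLp_two_iff_integrable_sq (by fun_prop)]
    exact integrable_placed _ _ _ _ _

end Pool.Agent.H96.Rsa
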