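import Mathlib

/-! Sequence-level analysis of the RSA moment recursions. -/

open Filter Topology

namespace Pool.Agent.H96.Rsa

lemma lin_geom (r n : ℕ) {q : ℝ} (hq : 0 ≤ q) :
    ((n : ℝ) + r) * (q / 2) ^ n ≤ (1 + r) * q ^ n := by
  have h1 : (n : ℝ) + r ≤ (1 + r) * 2 ^ n := by
    have h2 : (n : ℝ) ≤ 2 ^ n := by exact_mod_cast (Nat.lt_two_pow_self (n := n)).le
    have h3 : (1 : ℝ) ≤ 2 ^ n := one_le_pow₀ (by norm_num)
    nlinarith [(Nat.cast_nonneg r : (0 : ℝ) ≤ r)]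
  rw [div_pow]
  have hq' : 0 ≤ q ^ n := pow_nonneg hq n
  calc ((n : ℝ) + r) * (q ^ n / 2 ^ n) ≤ ((1 + r) * 2 ^ n) * (q ^ n / 2 ^ n) :=
        mul_le_mul_of_nonneg_right h1 (by positivity)
    _ = (1 + r) * q ^ n := by field_simp

lemma decay {d e : ℕ → ℝ} {r : ℕ} {q K : ℝ} (hr : 1 ≤ r) (hq0 : 0 < q) (hq1 : q < 1)
    (hd : ∀ n, 0 ≤ d n) (he : ∀ m, e m ≤ K * q ^ m)
    (hrec : ∀ m : ℕ, d (m + r) ≤
      2 / ((m : ℝ) + 2) * ∑ i ∈ Finset.range (r - 1), d (m + 1 + i) + e m) :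
    ∃ K', 0 ≤ K' ∧ ∀ n, d n ≤ K' * q ^ n := by
  obtain ⟨m0, hm0⟩ := exists_nat_ge (4 * ((r : ℝ) - 1) / q ^ (r - 1))
  have hqr : 0 < q ^ (r - 1) := pow_pos hq0 _
  have hqr' : 0 < q ^ r := pow_pos hq0 _
  set S := ∑ n ∈ Finset.range (m0 + r), d n / q ^ n with hS
  have hSnn : 0 ≤ S := Finset.sum_nonneg fun n _ => div_nonneg (hd n) (pow_nonneg hq0.le _)
  set K' := max (2 * |K| / q ^ r) S with hK'
  have hK'0 : 0 ≤ K' := le_trans hSnn (le_max_right _ _)
  refine ⟨K', hK'0, fun n => ?_⟩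
  induction n using Nat.strong_induction_on with
  | _ n ih =>
    by_cases hn : n < m0 + r
    · have h1 : d n / q ^ n ≤ S := Finset.single_le_sum
        (f := fun n => d n / q ^ n)
        (fun n _ => div_nonneg (hd n) (pow_nonneg hq0.le _)) (Finset.mem_range.mpr hn)
      have h2 : d n / q ^ n ≤ K' := h1.trans (le_max_right _ _)
      rwa [div_le_iff₀ (pow_pos hq0 _)] at h2
    · obtain ⟨m, rfl⟩ : ∃ m, n = m + r := ⟨n - r, by omega⟩
      have hm : m0 ≤ m := by omega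
      have h1 : ∑ i ∈ Finset.range (r - 1), d (m + 1 + i) ≤ ((r : ℝ) - 1) * (K' * q ^ (m + 1)) := by
        have : ((r : ℝ) - 1) * (K' * q ^ (m + 1))
            = ∑ i ∈ Finset.range (r - 1), K' * q ^ (m + 1) := by
          rw [Finset.sum_const, Finset.card_range, nsmul_eq_mul, Nat.cast_sub hr, Nat.cast_one]
        rw [this]
        apply Finset.sum_le_sum
        intro i hi
        rw [Finset.mem_range] at hi
        refine (ih (m + 1 + i) (by omega)).trans ?_
        apply mul_le_mul_of_nonneg_left _ hK'0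
        exact pow_le_pow_of_le_one hq0.le hq1.le (by omega)
      have h2 : 4 * ((r : ℝ) - 1) ≤ ((m : ℝ) + 2) * q ^ (r - 1) := by
        rw [div_le_iff₀ hqr] at hm0
        refine hm0.trans ?_
        apply mul_le_mul_of_nonneg_right _ hqr.le
        have : (m0 : ℝ) ≤ m := by exact_mod_cast hm
        linarith
      have h3 : 2 / ((m : ℝ) + 2) * (((r : ℝ) - 1) * (K' * q ^ (m + 1)))
          ≤ K' * q ^ (m + r) / 2 := by
        have hm2 : 0 < (m : ℝ) + 2 := by positivity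
        have e1 : q ^ (m + r) = q ^ (m + 1) * q ^ (r - 1) := by
          rw [← pow_add]; congr 1; omega
        rw [div_mul_eq_mul_div, div_le_iff₀ hm2, e1]
        have hc : 0 ≤ K' * q ^ (m + 1) := mul_nonneg hK'0 (pow_nonneg hq0.le _)
        nlinarith [mul_le_mul_of_nonneg_left h2 hc]
      have h4 : K * q ^ m ≤ K' * q ^ (m + r) / 2 := by
        have hq' : 0 ≤ q ^ m := pow_nonneg hq0.le _
        have h5 : 2 * |K| / q ^ r ≤ K' := le_max_left _ _
        rw [div_le_iff₀ hqr'] at h5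
        rw [pow_add]
        have h6 : K * q ^ m ≤ |K| * q ^ m := mul_le_mul_of_nonneg_right (le_abs_self K) hq'
        nlinarith [mul_le_mul_of_nonneg_right h5 hq']
      have h7 := hrec m
      have h8 := he m
      have h9 : 2 / ((m : ℝ) + 2) * ∑ i ∈ Finset.range (r - 1), d (m + 1 + i)
          ≤ 2 / ((m : ℝ) + 2) * (((r : ℝ) - 1) * (K' * q ^ (m + 1))) :=
        mul_le_mul_of_nonneg_left h1 (by positivity)
      linarith

lemma conv {u c : ℕ → ℝ} {r : ℕ} {q K : ℝ} (hr : 1 ≤ r) (hq0 : 0 < q) (hq1 : q < 1)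
    (hc : ∀ m, |c m| ≤ K * q ^ m)
    (hrec : ∀ m : ℕ, ((m : ℝ) + 1) * u (m + r)
      = 2 * ∑ j ∈ Finset.range (m + 1), u j + c m) :
    ∃ L K', 0 ≤ K' ∧ ∀ n : ℕ, |u n - L * (n + r)| ≤ K' * ((n + r) * q ^ n) := by
  have hr' : (1 : ℝ) ≤ r := by exact_mod_cast hr
  set a : ℕ → ℝ := fun n => u n / ((n : ℝ) + r) with ha
  have hpos : ∀ n : ℕ, 0 < (n : ℝ) + r := fun n => by positivity
  have hu : ∀ n, u n = a n * ((n : ℝ) + r) := fun n => by
    rw [ha]; field_simp
  have key : ∀ m : ℕ, a (m + r + 1) - a (m + r)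
      = 2 * ((m : ℝ) + 1 + r) / (((m : ℝ) + 2) * (m + 1 + 2 * r)) * (a (m + 1) - a (m + r))
        + (c (m + 1) - c m) / (((m : ℝ) + 2) * (m + 1 + 2 * r)) := by
    intro m
    have h1 := hrec m
    have h2 := hrec (m + 1)
    rw [Finset.sum_range_succ _ (m + 1)] at h2
    have e : m + 1 + r = m + r + 1 := by omega
    rw [e, hu (m + r + 1), hu (m + 1)] at h2
    rw [hu (m + r)] at h1
    push_cast at h1 h2
    have hA : ((m : ℝ) + 2) ≠ 0 := by positivity
    have hB : ((m : ℝ) + 1 + 2 * r) ≠ 0 := by positivity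
    field_simp
    linear_combination h2 - h1
  have hdrec : ∀ m : ℕ, |a (m + r + 1) - a (m + r)| ≤
      2 / ((m : ℝ) + 2) * ∑ i ∈ Finset.range (r - 1), |a (m + 1 + i + 1) - a (m + 1 + i)|
        + (|c (m + 1)| + |c m|) := by
    intro m
    rw [key m]
    refine (abs_add_le _ _).trans (add_le_add ?_ ?_)
    · rw [abs_mul]
      have htel : a (m + r) - a (m + 1)
          = ∑ i ∈ Finset.range (r - 1), (a (m + 1 + i + 1) - a (m + 1 + i)) := by
        have := Finset.sum_range_sub (fun i => a (m + 1 + i)) (r - 1)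
        have e : m + 1 + (r - 1) = m + r := by omega
        simp only [e, Nat.add_zero] at this
        rw [← this]
        rfl
      have h1 : |a (m + 1) - a (m + r)|
          ≤ ∑ i ∈ Finset.range (r - 1), |a (m + 1 + i + 1) - a (m + 1 + i)| := by
        rw [abs_sub_comm, htel]
        exact Finset.abs_sum_le_sum_abs _ _
      apply mul_le_mul _ h1 (abs_nonneg _) (by positivity)
      rw [abs_of_nonneg (by positivity), div_le_div_iff₀ (by positivity) (by positivity)]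
      have : (0 : ℝ) ≤ m := Nat.cast_nonneg m
      nlinarith
    · rw [abs_div, abs_of_pos (a := ((m : ℝ) + 2) * (m + 1 + 2 * r)) (by positivity)]
      have h1 : |c (m + 1) - c m| ≤ |c (m + 1)| + |c m| := abs_sub _ _
      refine (div_le_self (abs_nonneg _) ?_).trans h1
      have : (0 : ℝ) ≤ m := Nat.cast_nonneg m
      nlinarith
  have hK : 0 ≤ K := by
    have := (abs_nonneg _).trans (hc 0)
    simpa using this
  obtain ⟨K', hK'0, hK'⟩ := decay (d := fun n => |a (n + 1) - a n|)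
    (e := fun m => |c (m + 1)| + |c m|) (q := q) (K := 2 * K) hr hq0 hq1 (fun n => abs_nonneg _)
    (fun m => by
      have h1 := hc m
      have h2 := hc (m + 1)
      have h3 : K * q ^ (m + 1) ≤ K * q ^ m :=
        mul_le_mul_of_nonneg_left (pow_le_pow_of_le_one hq0.le hq1.le (by omega)) hK
      linarith) hdrec
  have hdist : ∀ n, dist (a n) (a (n + 1)) ≤ K' * q ^ n := by
    intro n
    rw [dist_comm, Real.dist_eq]
    exact hK' n
  obtain ⟨L, hL⟩ := cauchySeq_tendsto_of_complete (cauchySeq_of_le_geometric q K' hq1 hdist)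
  refine ⟨L, K' / (1 - q), div_nonneg hK'0 (by linarith), fun n => ?_⟩
  have h1 := dist_le_of_le_geometric_of_tendsto q K' hq1 hdist hL n
  rw [Real.dist_eq] at h1
  rw [hu n, ← sub_mul, abs_mul, abs_of_pos (hpos n)]
  calc |a n - L| * ((n : ℝ) + r) ≤ K' * q ^ n / (1 - q) * ((n : ℝ) + r) :=
        mul_le_mul_of_nonneg_right h1 (hpos n).le
    _ = K' / (1 - q) * (((n : ℝ) + r) * q ^ n) := by ring

/-- difference operator on sequences -/
def dd (f : ℕ → ℝ) : ℕ → ℝ
  | 0 => f 0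
  | n + 1 => f (n + 1) - f n

lemma sum_dd (f : ℕ → ℝ) (n : ℕ) : ∑ i ∈ Finset.range (n + 1), dd f i = f n := by
  induction n with
  | zero => simp [dd]
  | succ n ih => rw [Finset.sum_range_succ, ih, dd]; ring

lemma summable_dd {f : ℕ → ℝ} {t : ℝ} (hs : Summable fun n => f n * t ^ n) :
    Summable fun n => dd f n * t ^ n := by
  rw [← summable_nat_add_iff 1]
  have h1 := (summable_nat_add_iff (f := fun n => f n * t ^ n) 1).mpr hs
  have h2 := hs.mul_left t
  refine (h1.sub h2).congr fun n => ?_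
  simp only [dd]
  ring

lemma tsum_dd {f : ℕ → ℝ} {t : ℝ} (hs : Summable fun n => f n * t ^ n) :
    ∑' n, dd f n * t ^ n = (1 - t) * ∑' n, f n * t ^ n := by
  have h1 := (summable_nat_add_iff (f := fun n => f n * t ^ n) 1).mpr hs
  have h2 := hs.mul_left t
  rw [(summable_dd hs).tsum_eq_zero_add]
  have e : ∀ n, dd f (n + 1) * t ^ (n + 1) = f (n + 1) * t ^ (n + 1) - t * (f n * t ^ n) := by
    intro n
    simp only [dd]
    ring
  simp only [e]
  rw [h1.tsum_sub h2, tsum_mul_left]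
  have h3 := hs.tsum_eq_zero_add
  simp only [dd, pow_zero, mul_one] at h3 ⊢
  linear_combination -h3

lemma abel2 {f : ℕ → ℝ} {L : ℝ}
    (hs : ∀ t : ℝ, 0 ≤ t → t < 1 → Summable fun n => f n * t ^ n)
    (h : Tendsto (fun n => f (n + 1) - f n) atTop (𝓝 L)) :
    Tendsto (fun t : ℝ => (1 - t) ^ 2 * ∑' n, f n * t ^ n) (𝓝[<] 1) (𝓝 L) := by
  have h1 : Tendsto (fun n => ∑ i ∈ Finset.range n, dd (dd f) i) atTop (𝓝 L) := by
    rw [← tendsto_add_atTop_iff_nat 2]
    refine h.congr fun n => ?_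
    rw [sum_dd]
    rfl
  have h2 := Real.tendsto_tsum_powerSeries_nhdsWithin_lt h1
  refine h2.congr' ?_
  have : Set.Ioo (0 : ℝ) 1 ∈ 𝓝[<] (1 : ℝ) := Ioo_mem_nhdsLT (by norm_num)
  filter_upwards [this] with t ht
  rw [tsum_dd (summable_dd (hs t ht.1.le ht.2)), tsum_dd (hs t ht.1.le ht.2)]
  ring

end Pool.Agent.H96.Rsa
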