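import Pool.Agent.H96.RsaC

/-! Power series of the RSA moment sequences and their closed forms. -/

open Filter Topology MeasureTheory

namespace Pool.Agent.H96.Rsa

/-- growth condition -/
def Growth (f : ℕ → ℝ) : Prop := ∀ n : ℕ, |f n| ≤ ((n : ℝ) + 1) ^ 2

lemma summable_growth_bound (k : ℕ) {t : ℝ} (ht : |t| < 1) :
    Summable fun n : ℕ => ((n : ℝ) + 1) ^ k * |t| ^ n := by
  rcases eq_or_ne t 0 with rfl | h0
  · apply summable_of_ne_finset_zero (s := {0})
    intro b hb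
    have : b ≠ 0 := by simpa using hb
    simp [this]
  have h := summable_pow_mul_geometric_of_norm_lt_one (R := ℝ) k (r := |t|) (by simpa using ht)
  have h1 := (summable_nat_add_iff 1).mpr h
  have h2 := h1.mul_left (|t|⁻¹)
  refine h2.congr fun n => ?_
  have : |t| ≠ 0 := by simpa using h0
  push_cast
  rw [pow_succ]
  field_simp

lemma Growth.summable_norm {f : ℕ → ℝ} (hf : Growth f) {t : ℝ} (ht : |t| < 1) :
    Summable fun n => ‖f n * t ^ n‖ := by
  refine Summable.of_nonneg_of_le (fun n => norm_nonneg _) (fun n => ?_)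
    (summable_growth_bound 2 ht)
  rw [norm_mul, norm_pow, Real.norm_eq_abs, Real.norm_eq_abs]
  exact mul_le_mul_of_nonneg_right (hf n) (by positivity)

lemma Growth.summable {f : ℕ → ℝ} (hf : Growth f) {t : ℝ} (ht : |t| < 1) :
    Summable fun n => f n * t ^ n := (hf.summable_norm ht).of_norm

/-- The shifted series `∑ f (m + r) t^(m+1)` and its derivative. -/
lemma hasDerivAt_shift {f : ℕ → ℝ} (hf : Growth f) (r : ℕ) {t : ℝ} (ht : |t| < 1) :
    HasDerivAt (fun s : ℝ => ∑' m : ℕ, f (m + r) * s ^ (m + 1))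
      (∑' m : ℕ, ((m : ℝ) + 1) * f (m + r) * t ^ m) t := by
  obtain ⟨ρ, h1, h2⟩ := exists_between ht
  have hρ0 : 0 ≤ ρ := (abs_nonneg t).trans h1.le
  have hbd : ∀ (m : ℕ), |f (m + r)| ≤ ((r : ℝ) + 1) ^ 2 * ((m : ℝ) + 1) ^ 2 := by
    intro m
    refine (hf _).trans ?_
    rw [← mul_pow]
    apply pow_le_pow_left₀ (by positivity)
    push_cast
    nlinarith [(Nat.cast_nonneg m : (0 : ℝ) ≤ m), (Nat.cast_nonneg r : (0 : ℝ) ≤ r),
      mul_nonneg (Nat.cast_nonneg m : (0 : ℝ) ≤ m) (Nat.cast_nonneg r : (0 : ℝ) ≤ r)]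
  have hsum : Summable fun m : ℕ => ((r : ℝ) + 1) ^ 2 * (((m : ℝ) + 1) ^ 3 * ρ ^ m) := by
    have := (summable_growth_bound 3 (t := ρ) (by rwa [abs_of_nonneg hρ0])).mul_left
      (((r : ℝ) + 1) ^ 2)
    rwa [abs_of_nonneg hρ0] at this
  refine hasDerivAt_tsum_of_isPreconnected
    (g := fun (m : ℕ) (s : ℝ) => f (m + r) * s ^ (m + 1))
    (g' := fun (m : ℕ) (s : ℝ) => ((m : ℝ) + 1) * f (m + r) * s ^ m)
    (u := fun m : ℕ => ((r : ℝ) + 1) ^ 2 * (((m : ℝ) + 1) ^ 3 * ρ ^ m))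
    (t := Set.Ioo (-ρ) ρ) (y₀ := t) hsum
    isOpen_Ioo isPreconnected_Ioo ?_ ?_ (abs_lt.mp h1) ?_ (abs_lt.mp h1)
  · intro m s _
    have := (hasDerivAt_pow (m + 1) s).const_mul (f (m + r))
    refine this.congr_deriv ?_
    push_cast
    ring
  · intro m s hs
    have hs' : |s| ≤ ρ := (abs_lt.mpr hs).le
    rw [norm_mul, norm_mul, norm_pow, Real.norm_eq_abs, Real.norm_eq_abs, Real.norm_eq_abs,
      abs_of_pos (a := (m : ℝ) + 1) (by positivity)]
    calc ((m : ℝ) + 1) * |f (m + r)| * |s| ^ m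
        ≤ ((m : ℝ) + 1) * (((r : ℝ) + 1) ^ 2 * ((m : ℝ) + 1) ^ 2) * ρ ^ m := by
          apply mul_le_mul _ (pow_le_pow_left₀ (abs_nonneg _) hs' _) (by positivity)
            (by positivity)
          exact mul_le_mul_of_nonneg_left (hbd m) (by positivity)
      _ = _ := by ring
  · refine Summable.of_norm_bounded (g := fun m => ((r : ℝ) + 1) ^ 2 *
      (((m : ℝ) + 1) ^ 3 * ρ ^ m)) hsum fun m => ?_
    rw [norm_mul, norm_pow, Real.norm_eq_abs, Real.norm_eq_abs]
    have e1 : |t| ^ (m + 1) ≤ ρ ^ m := by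
      rw [pow_succ]
      calc |t| ^ m * |t| ≤ |t| ^ m * 1 := mul_le_mul_of_nonneg_left ht.le (by positivity)
        _ = |t| ^ m := mul_one _
        _ ≤ ρ ^ m := pow_le_pow_left₀ (abs_nonneg _) h1.le _
    have e2 : |f (m + r)| ≤ ((r : ℝ) + 1) ^ 2 * ((m : ℝ) + 1) ^ 3 := by
      refine (hbd m).trans ?_
      apply mul_le_mul_of_nonneg_left _ (by positivity)
      have : (1 : ℝ) ≤ (m : ℝ) + 1 := by
        have := (Nat.cast_nonneg m : (0 : ℝ) ≤ m); linarith
      calc ((m : ℝ) + 1) ^ 2 = ((m : ℝ) + 1) ^ 2 * 1 := by ring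
        _ ≤ ((m : ℝ) + 1) ^ 2 * ((m : ℝ) + 1) := mul_le_mul_of_nonneg_left this (by positivity)
        _ = _ := by ring
    calc |f (m + r)| * |t| ^ (m + 1) ≤ (((r : ℝ) + 1) ^ 2 * ((m : ℝ) + 1) ^ 3) * ρ ^ m :=
          mul_le_mul e2 e1 (by positivity) (by positivity)
      _ = _ := by ring

lemma tsum_split {f : ℕ → ℝ} (hf : Growth f) {r : ℕ} (hr : 1 ≤ r) (h1 : ∀ j < r, f j = 1)
    {t : ℝ} (ht : |t| < 1) :
    (1 - t) * ∑' n, f n * t ^ n = 1 - t ^ r + (1 - t) * t ^ (r - 1) *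
      ∑' m : ℕ, f (m + r) * t ^ (m + 1) := by
  rw [← (hf.summable ht).sum_add_tsum_nat_add r]
  have e1 : ∑ i ∈ Finset.range r, f i * t ^ i = ∑ i ∈ Finset.range r, t ^ i := by
    apply Finset.sum_congr rfl
    intro i hi
    rw [h1 i (Finset.mem_range.mp hi), one_mul]
  have e2 : (1 - t) * ∑ i ∈ Finset.range r, t ^ i = 1 - t ^ r := mul_neg_geom_sum t r
  have e3 : ∑' m : ℕ, f (m + r) * t ^ (m + r)
      = t ^ (r - 1) * ∑' m : ℕ, f (m + r) * t ^ (m + 1) := by
    rw [← tsum_mul_left]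
    apply tsum_congr
    intro m
    have : t ^ (m + r) = t ^ (r - 1) * t ^ (m + 1) := by
      rw [← pow_add]; congr 1; omega
    rw [this]; ring
  rw [e1, e3, mul_add, e2]
  ring

lemma tsum_partial {f : ℕ → ℝ} (hf : Growth f) {t : ℝ} (ht : |t| < 1) :
    ∑' m : ℕ, (∑ j ∈ Finset.range (m + 1), f j) * t ^ m
      = (∑' n, f n * t ^ n) * (1 - t)⁻¹ := by
  have hg : Summable fun n : ℕ => ‖t ^ n‖ := by
    simp only [norm_pow]
    exact summable_geometric_of_lt_one (norm_nonneg _) (by simpa using ht)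
  rw [← tsum_geometric_of_norm_lt_one (ξ := t) (by simpa using ht),
    tsum_mul_tsum_eq_tsum_sum_range_of_summable_norm (hf.summable_norm ht) hg]
  apply tsum_congr
  intro m
  rw [Finset.sum_mul]
  apply Finset.sum_congr rfl
  intro j hj
  rw [Finset.mem_range] at hj
  have : t ^ m = t ^ j * t ^ (m - j) := by rw [← pow_add]; congr 1; omega
  rw [this]; ring

lemma tsum_convol {f : ℕ → ℝ} (hf : Growth f) {t : ℝ} (ht : |t| < 1) :
    ∑' m : ℕ, (∑ j ∈ Finset.range (m + 1), f j * f (m - j)) * t ^ m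
      = (∑' n, f n * t ^ n) ^ 2 := by
  rw [sq, tsum_mul_tsum_eq_tsum_sum_range_of_summable_norm (hf.summable_norm ht)
    (hf.summable_norm ht)]
  apply tsum_congr
  intro m
  rw [Finset.sum_mul]
  apply Finset.sum_congr rfl
  intro j hj
  rw [Finset.mem_range] at hj
  have : t ^ m = t ^ j * t ^ (m - j) := by rw [← pow_add]; congr 1; omega
  rw [this]; ring

lemma summable_partial {f : ℕ → ℝ} (hf : Growth f) {t : ℝ} (ht : |t| < 1) :
    Summable fun m : ℕ => (∑ j ∈ Finset.range (m + 1), f j) * t ^ m := by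
  have hg : Summable fun n : ℕ => ‖t ^ n‖ := by
    simp only [norm_pow]
    exact summable_geometric_of_lt_one (norm_nonneg _) (by simpa using ht)
  refine (summable_norm_sum_mul_range_of_summable_norm (hf.summable_norm ht) hg).of_norm.congr
    fun m => ?_
  rw [Finset.sum_mul]
  apply Finset.sum_congr rfl
  intro j hj
  rw [Finset.mem_range] at hj
  have : t ^ m = t ^ j * t ^ (m - j) := by rw [← pow_add]; congr 1; omega
  rw [this]; ring

lemma summable_convol {f : ℕ → ℝ} (hf : Growth f) {t : ℝ} (ht : |t| < 1) :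
    Summable fun m : ℕ => (∑ j ∈ Finset.range (m + 1), f j * f (m - j)) * t ^ m := by
  refine (summable_norm_sum_mul_range_of_summable_norm (hf.summable_norm ht)
    (hf.summable_norm ht)).of_norm.congr fun m => ?_
  rw [Finset.sum_mul]
  apply Finset.sum_congr rfl
  intro j hj
  rw [Finset.mem_range] at hj
  have : t ^ m = t ^ j * t ^ (m - j) := by rw [← pow_add]; congr 1; omega
  rw [this]; ring

/-! ### The kernel -/

/-- `E r x = exp (-2 ∑_{k=1}^{r-1} (1 - x^k)/k)` -/
noncomputable def E (r : ℕ) (x : ℝ) : ℝ :=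
  Real.exp (-2 * ∑ k ∈ Finset.Icc 1 (r - 1), (1 - x ^ k) / k)

/-- `F r x = ∫₀ˣ E r` -/
noncomputable def F (r : ℕ) (x : ℝ) : ℝ := ∫ s in (0 : ℝ)..x, E r s

/-- `p r x = 1 + x + ⋯ + x^(r-2)` -/
noncomputable def p (r : ℕ) (x : ℝ) : ℝ := ∑ k ∈ Finset.range (r - 1), x ^ k

/-- the derivative of `p r` -/
noncomputable def p' (r : ℕ) (x : ℝ) : ℝ := ∑ k ∈ Finset.range (r - 1), k * x ^ (k - 1)

lemma hasDerivAt_p (r : ℕ) (x : ℝ) : HasDerivAt (p r) (p' r x) x := by
  unfold p p'
  exact HasDerivAt.fun_sum fun k _ => hasDerivAt_pow k x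

lemma p_mul (r : ℕ) (x : ℝ) : (1 - x) * p r x = 1 - x ^ (r - 1) := mul_neg_geom_sum x (r - 1)

lemma p_one {r : ℕ} (hr : 1 ≤ r) : p r 1 = (r : ℝ) - 1 := by
  simp [p, Nat.cast_sub hr]

lemma E_pos (r : ℕ) (x : ℝ) : 0 < E r x := Real.exp_pos _

lemma E_one (r : ℕ) : E r 1 = 1 := by simp [E]

lemma hasDerivAt_E (r : ℕ) (x : ℝ) : HasDerivAt (E r) (2 * p r x * E r x) x := by
  have h1 : HasDerivAt (fun x : ℝ => -2 * ∑ k ∈ Finset.Icc 1 (r - 1), (1 - x ^ k) / k)
      (2 * p r x) x := by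
    have h2 : HasDerivAt (fun x : ℝ => ∑ k ∈ Finset.Icc 1 (r - 1), (1 - x ^ k) / k)
        (∑ k ∈ Finset.Icc 1 (r - 1), -(x ^ (k - 1))) x := by
      apply HasDerivAt.fun_sum
      intro k hk
      have hk' : (k : ℝ) ≠ 0 := by
        have := (Finset.mem_Icc.mp hk).1
        exact_mod_cast (by omega : k ≠ 0)
      have := ((hasDerivAt_pow k x).const_sub 1).div_const (k : ℝ)
      refine this.congr_deriv ?_
      field_simp
    refine (h2.const_mul (-2)).congr_deriv ?_
    rw [Finset.sum_neg_distrib, p]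
    have : ∑ k ∈ Finset.Icc 1 (r - 1), x ^ (k - 1) = ∑ k ∈ Finset.range (r - 1), x ^ k := by
      rw [Finset.range_eq_Ico, Finset.sum_Ico_eq_sum_range, ← Finset.Ico_succ_right_eq_Icc,
        Finset.sum_Ico_eq_sum_range]
      simp
    rw [this]
    ring
  refine h1.exp.congr_deriv ?_
  rw [E]
  ring

lemma continuous_p (r : ℕ) : Continuous (p r) := by unfold p; fun_prop

lemma continuous_p' (r : ℕ) : Continuous (p' r) := by unfold p'; fun_prop

lemma continuous_E (r : ℕ) : Continuous (E r) :=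
  continuous_iff_continuousAt.mpr fun x => (hasDerivAt_E r x).continuousAt

lemma hasDerivAt_F (r : ℕ) (x : ℝ) : HasDerivAt (F r) (E r x) x :=
  intervalIntegral.integral_hasDerivAt_right ((continuous_E r).intervalIntegrable _ _)
    ((continuous_E r).stronglyMeasurableAtFilter _ _) (continuous_E r).continuousAt

lemma continuous_F (r : ℕ) : Continuous (F r) :=
  continuous_iff_continuousAt.mpr fun x => (hasDerivAt_F r x).continuousAt

lemma F_zero (r : ℕ) : F r 0 = 0 := by simp [F]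

/-- the integrand of the variance formula -/
noncomputable def g (r : ℕ) (x : ℝ) : ℝ := p' r x * F r x ^ 2 / E r x - 2 * (p r x * F r x)

lemma continuous_g (r : ℕ) : Continuous (g r) := by
  unfold g
  have h1 := continuous_p r
  have h2 := continuous_p' r
  have h3 := continuous_F r
  have h4 := continuous_E r
  exact ((h2.mul (h3.pow 2)).div h4 fun x => (E_pos r x).ne').sub
    (continuous_const.mul (h1.mul h3))

/-- `G r x = ∫₀ˣ g r` -/
noncomputable def G (r : ℕ) (x : ℝ) : ℝ := ∫ s in (0 : ℝ)..x, g r s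

lemma hasDerivAt_G (r : ℕ) (x : ℝ) : HasDerivAt (G r) (g r x) x :=
  intervalIntegral.integral_hasDerivAt_right ((continuous_g r).intervalIntegrable _ _)
    ((continuous_g r).stronglyMeasurableAtFilter _ _) (continuous_g r).continuousAt

lemma continuous_G (r : ℕ) : Continuous (G r) :=
  continuous_iff_continuousAt.mpr fun x => (hasDerivAt_G r x).continuousAt

lemma G_zero (r : ℕ) : G r 0 = 0 := by simp [G]

/-- two functions on `[0,1)` with the same derivative and initial value agree -/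
lemma eq_of_deriv {A B D : ℝ → ℝ} (hA : ∀ t ∈ Set.Ico (0 : ℝ) 1, HasDerivAt A (D t) t)
    (hB : ∀ t ∈ Set.Ico (0 : ℝ) 1, HasDerivAt B (D t) t) (h0 : A 0 = B 0) :
    ∀ t ∈ Set.Ico (0 : ℝ) 1, A t = B t := by
  intro t ht
  have hd : ∀ s ∈ Set.Ico (0 : ℝ) 1, HasDerivAt (fun s => A s - B s) 0 s := by
    intro s hs
    have := (hA s hs).fun_sub (hB s hs)
    rwa [sub_self] at this
  have := constant_of_has_deriv_right_zero (f := fun s => A s - B s) (a := 0) (b := t)
    (fun s hs => (hd s ⟨hs.1, lt_of_le_of_lt hs.2 ht.2⟩).continuousAt.continuousWithinAt)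
    (fun s hs => (hd s ⟨hs.1, hs.2.trans ht.2⟩).hasDerivWithinAt) t ⟨ht.1, le_rfl⟩
  linarith

section Closed

variable {r : ℕ} {x y : ℕ → ℝ}

/-- The hypotheses on the moment sequences. -/
structure Rec (r : ℕ) (x y : ℕ → ℝ) : Prop where
  hr : 1 ≤ r
  gx : Growth x
  gy : Growth y
  x1 : ∀ j < r, x j = 1
  y1 : ∀ j < r, y j = 1
  recx : ∀ m : ℕ, ((m : ℝ) + 1) * x (m + r) = 2 * ∑ j ∈ Finset.range (m + 1), x j
  recy : ∀ m : ℕ, ((m : ℝ) + 1) * y (m + r) = 2 * ∑ j ∈ Finset.range (m + 1), y j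
      + 2 * ∑ j ∈ Finset.range (m + 1), x j * x (m - j)

lemma Rec.derivX (h : Rec r x y) {t : ℝ} (ht : |t| < 1) :
    HasDerivAt (fun s : ℝ => ∑' m : ℕ, x (m + r) * s ^ (m + 1))
      (2 * (∑' n, x n * t ^ n) * (1 - t)⁻¹) t := by
  have := hasDerivAt_shift h.gx r ht
  convert this using 1
  simp only [h.recx, mul_assoc]
  rw [tsum_mul_left, tsum_partial h.gx ht]

lemma Rec.derivY (h : Rec r x y) {t : ℝ} (ht : |t| < 1) :
    HasDerivAt (fun s : ℝ => ∑' m : ℕ, y (m + r) * s ^ (m + 1))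
      (2 * (∑' n, y n * t ^ n) * (1 - t)⁻¹ + 2 * (∑' n, x n * t ^ n) ^ 2) t := by
  have := hasDerivAt_shift h.gy r ht
  convert this using 1
  simp only [h.recy, mul_assoc, add_mul]
  rw [Summable.tsum_add, tsum_mul_left, tsum_mul_left, tsum_partial h.gy ht,
    tsum_convol h.gx ht]
  · exact (summable_partial h.gy ht).mul_left 2
  · exact (summable_convol h.gx ht).mul_left 2

/-- closed form for the first moments -/
lemma Rec.closedX (h : Rec r x y) : ∀ t ∈ Set.Ico (0 : ℝ) 1,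
    (1 - t) ^ 2 * E r t * ∑' m : ℕ, x (m + r) * t ^ (m + 1)
      = t * (1 - t) * E r t + F r t := by
  apply eq_of_deriv (D := fun t => ((1 - 2 * t) + t * (1 - t) * (2 * p r t) + 1) * E r t)
  · intro t ht
    have ht' : |t| < 1 := by rw [abs_of_nonneg ht.1]; exact ht.2
    have hne : (1 - t) ≠ 0 := by linarith [ht.2]
    have h1 := (((hasDerivAt_id t).const_sub 1).pow 2).mul (hasDerivAt_E r t)
    have h2 := h1.mul (h.derivX ht')
    refine h2.congr_deriv ?_
    have e1 := tsum_split h.gx h.hr h.x1 ht'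
    have e2 := p_mul r t
    have e3 : t ^ r = t * t ^ (r - 1) := by
      rw [← pow_succ']; congr 1; have := h.hr; omega
    set X := ∑' n, x n * t ^ n with hX
    set W := ∑' m : ℕ, x (m + r) * t ^ (m + 1) with hW
    have e4 : X * (1 - t)⁻¹ * (1 - t) ^ 2 = (1 - t) * X := by field_simp
    have e5 : t ^ (r - 1) = 1 - (1 - t) * p r t := by linarith
    rw [e3, e5] at e1
    simp only [id_eq, Pi.pow_apply, Pi.mul_apply]
    push_cast
    linear_combination (2 * E r t) * e4 + (2 * E r t) * e1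
  · intro t ht
    have h1 := ((hasDerivAt_id t).mul ((hasDerivAt_id t).const_sub 1)).mul (hasDerivAt_E r t)
    have h2 := h1.add (hasDerivAt_F r t)
    refine h2.congr_deriv ?_
    simp only [id_eq, Pi.mul_apply]
    ring
  · simp [F_zero]

lemma Rec.closedX' (h : Rec r x y) {t : ℝ} (ht : t ∈ Set.Ico (0 : ℝ) 1) :
    (1 - t) ^ 2 * ∑' n, x n * t ^ n = (1 - t) + t ^ (r - 1) * F r t / E r t := by
  have ht' : |t| < 1 := by rw [abs_of_nonneg ht.1]; exact ht.2
  have hE := (E_pos r t).ne'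
  have e1 := tsum_split h.gx h.hr h.x1 ht'
  have e2 := h.closedX t ht
  have e3 : t ^ r = t * t ^ (r - 1) := by
    rw [← pow_succ']; congr 1; have := h.hr; omega
  rw [e3] at e1
  field_simp
  linear_combination (1 - t) * E r t * e1 + t ^ (r - 1) * e2

/-- closed form for the second moments -/
lemma Rec.closedY (h : Rec r x y) : ∀ t ∈ Set.Ico (0 : ℝ) 1,
    (1 - t) ^ 2 * E r t * ∑' m : ℕ, y (m + r) * t ^ (m + 1)
      = t * (1 - t) * E r t + 3 * F r t + G r t - p r t * F r t ^ 2 / E r t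
        + 2 * (F r t ^ 2 / (E r t * (1 - t))) := by
  apply eq_of_deriv (D := fun t => 2 * E r t * (1 - t ^ r)
    + 2 * E r t * (1 + t ^ (r - 1) * F r t / (E r t * (1 - t))) ^ 2)
  · intro t ht
    have ht' : |t| < 1 := by rw [abs_of_nonneg ht.1]; exact ht.2
    have hne : (1 - t) ≠ 0 := by linarith [ht.2]
    have hE := (E_pos r t).ne'
    have h1 := (((hasDerivAt_id t).const_sub 1).pow 2).mul (hasDerivAt_E r t)
    have h2 := h1.mul (h.derivY ht')
    refine h2.congr_deriv ?_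
    have e1 := tsum_split h.gy h.hr h.y1 ht'
    have e2 := p_mul r t
    have e0 := h.closedX' ht
    have e3 : t ^ r = t * t ^ (r - 1) := by
      rw [← pow_succ']; congr 1; have := h.hr; omega
    set X := ∑' n, x n * t ^ n with hX
    set Y := ∑' n, y n * t ^ n with hY
    set W := ∑' m : ℕ, y (m + r) * t ^ (m + 1) with hW
    have e4 : Y * (1 - t)⁻¹ * (1 - t) ^ 2 = (1 - t) * Y := by field_simp
    have e5 : t ^ (r - 1) = 1 - (1 - t) * p r t := by linarith
    have e6 : 1 + t ^ (r - 1) * F r t / (E r t * (1 - t)) = (1 - t) * X := by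
      have : X = ((1 - t) + t ^ (r - 1) * F r t / E r t) / (1 - t) ^ 2 := by
        rw [← e0]; field_simp
      rw [this]
      field_simp
    rw [e6]
    rw [e3, e5] at e1
    rw [e3, e5]
    simp only [id_eq, Pi.pow_apply, Pi.mul_apply]
    push_cast
    linear_combination (2 * E r t) * e4 + (2 * E r t) * e1
  · intro t ht
    have ht' : |t| < 1 := by rw [abs_of_nonneg ht.1]; exact ht.2
    have hne : (1 - t) ≠ 0 := by linarith [ht.2]
    have hE := (E_pos r t).ne'
    have h1 := ((hasDerivAt_id t).mul ((hasDerivAt_id t).const_sub 1)).mul (hasDerivAt_E r t)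
    have h2 := (h1.add ((hasDerivAt_F r t).const_mul 3)).add (hasDerivAt_G r t)
    have h3 := ((hasDerivAt_p r t).mul ((hasDerivAt_F r t).pow 2)).div (hasDerivAt_E r t) hE
    have h4 := (((hasDerivAt_F r t).pow 2).div
      ((hasDerivAt_E r t).mul ((hasDerivAt_id t).const_sub 1)) (by simpa using ⟨hE, hne⟩)).const_mul 2
    have h5 := (h2.sub h3).add h4
    refine h5.congr_deriv ?_
    have e3 : t ^ r = t * t ^ (r - 1) := by
      rw [← pow_succ']; congr 1; have := h.hr; omega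
    have e2 := p_mul r t
    have e5 : t ^ (r - 1) = 1 - (1 - t) * p r t := by linarith
    rw [e3, e5]
    simp only [id_eq, Pi.pow_apply, Pi.mul_apply, g]
    push_cast
    field_simp
    ring
  · simp [F_zero, G_zero]

end Closed

end Pool.Agent.H96.Rsa
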