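import Pool.Agent.H96.RsaD

/-! The limit of the variance for sequences satisfying the RSA moment recursions. -/

open Filter Topology MeasureTheory

namespace Pool.Agent.H96.Rsa

lemma sum_succ_real (m : ℕ) :
    ∑ j ∈ Finset.range (m + 1), ((j : ℝ) + 1) = ((m : ℝ) + 1) * (m + 2) / 2 := by
  induction m with
  | zero => simp
  | succ m ih => rw [Finset.sum_range_succ, ih]; push_cast; ring

lemma sum_add_real (r m : ℕ) :
    ∑ j ∈ Finset.range (m + 1), ((j : ℝ) + r) = ((m : ℝ) + 1) * (m + 2 * r) / 2 := by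
  induction m with
  | zero => simp
  | succ m ih => rw [Finset.sum_range_succ, ih]; push_cast; ring

lemma growth_x {r : ℕ} {x : ℕ → ℝ} (hr : 1 ≤ r) (x1 : ∀ j < r, x j = 1)
    (recx : ∀ m : ℕ, ((m : ℝ) + 1) * x (m + r) = 2 * ∑ j ∈ Finset.range (m + 1), x j) :
    ∀ n : ℕ, 0 ≤ x n ∧ x n ≤ (n : ℝ) + 1 := by
  intro n
  induction n using Nat.strong_induction_on with
  | _ n ih =>
    by_cases hn : n < r
    · rw [x1 n hn]
      have : (0 : ℝ) ≤ n := Nat.cast_nonneg n
      constructor <;> linarith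
    · obtain ⟨m, rfl⟩ : ∃ m, n = m + r := ⟨n - r, by omega⟩
      have hm : (0 : ℝ) < (m : ℝ) + 1 := by positivity
      have h1 := recx m
      have hr' : (1 : ℝ) ≤ r := by exact_mod_cast hr
      constructor
      · have h2 : 0 ≤ ((m : ℝ) + 1) * x (m + r) := by
          rw [h1]
          apply mul_nonneg (by norm_num)
          apply Finset.sum_nonneg
          intro j hj
          rw [Finset.mem_range] at hj
          exact (ih j (by omega)).1
        exact nonneg_of_mul_nonneg_right h2 hm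
      · have h2 : ((m : ℝ) + 1) * x (m + r) ≤ ((m : ℝ) + 1) * (m + 2) := by
          rw [h1]
          have h3 : ∑ j ∈ Finset.range (m + 1), x j ≤ ∑ j ∈ Finset.range (m + 1), ((j : ℝ) + 1) := by
            apply Finset.sum_le_sum
            intro j hj
            rw [Finset.mem_range] at hj
            exact (ih j (by omega)).2
          rw [sum_succ_real] at h3
          linarith
        have h4 := le_of_mul_le_mul_left h2 hm
        push_cast
        linarith

lemma growth_y {r : ℕ} {x y : ℕ → ℝ} (hr : 1 ≤ r) (y1 : ∀ j < r, y j = 1)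
    (hx : ∀ n : ℕ, 0 ≤ x n ∧ x n ≤ (n : ℝ) + 1)
    (recy : ∀ m : ℕ, ((m : ℝ) + 1) * y (m + r) = 2 * ∑ j ∈ Finset.range (m + 1), y j
      + 2 * ∑ j ∈ Finset.range (m + 1), x j * x (m - j)) :
    ∀ n : ℕ, 0 ≤ y n ∧ y n ≤ ((n : ℝ) + 1) ^ 2 := by
  intro n
  induction n using Nat.strong_induction_on with
  | _ n ih =>
    by_cases hn : n < r
    · rw [y1 n hn]
      have : (0 : ℝ) ≤ n := Nat.cast_nonneg n
      constructor <;> nlinarith
    · obtain ⟨m, rfl⟩ : ∃ m, n = m + r := ⟨n - r, by omega⟩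
      have hm : (0 : ℝ) < (m : ℝ) + 1 := by positivity
      have h1 := recy m
      have hr' : (1 : ℝ) ≤ r := by exact_mod_cast hr
      constructor
      · have h2 : 0 ≤ ((m : ℝ) + 1) * y (m + r) := by
          rw [h1]
          apply add_nonneg
          · apply mul_nonneg (by norm_num)
            apply Finset.sum_nonneg
            intro j hj
            rw [Finset.mem_range] at hj
            exact (ih j (by omega)).1
          · apply mul_nonneg (by norm_num)
            apply Finset.sum_nonneg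
            intro j hj
            exact mul_nonneg (hx _).1 (hx _).1
        exact nonneg_of_mul_nonneg_right h2 hm
      · have h2 : ((m : ℝ) + 1) * y (m + r) ≤ ((m : ℝ) + 1) * (m + 2) ^ 2 := by
          rw [h1, ← mul_add, ← Finset.sum_add_distrib]
          have h3 : ∑ j ∈ Finset.range (m + 1), (y j + x j * x (m - j))
              ≤ ∑ j ∈ Finset.range (m + 1), ((m : ℝ) + 2) * ((j : ℝ) + 1) := by
            apply Finset.sum_le_sum
            intro j hj
            rw [Finset.mem_range] at hj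
            have e1 := (ih j (by omega)).2
            have e2 : x j * x (m - j) ≤ ((j : ℝ) + 1) * (((m - j : ℕ) : ℝ) + 1) :=
              mul_le_mul (hx j).2 (hx _).2 (hx _).1 (by positivity)
            rw [Nat.cast_sub (by omega)] at e2
            nlinarith
          rw [← Finset.mul_sum, sum_succ_real] at h3
          linarith
        have h4 := le_of_mul_le_mul_left h2 hm
        push_cast
        have hm0 : (0 : ℝ) ≤ m := Nat.cast_nonneg m
        nlinarith

lemma mkRec {r : ℕ} {x y : ℕ → ℝ} (hr : 1 ≤ r) (x1 : ∀ j < r, x j = 1) (y1 : ∀ j < r, y j = 1)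
    (recx : ∀ m : ℕ, ((m : ℝ) + 1) * x (m + r) = 2 * ∑ j ∈ Finset.range (m + 1), x j)
    (recy : ∀ m : ℕ, ((m : ℝ) + 1) * y (m + r) = 2 * ∑ j ∈ Finset.range (m + 1), y j
      + 2 * ∑ j ∈ Finset.range (m + 1), x j * x (m - j)) : Rec r x y where
  hr := hr
  gx := by
    intro n
    have := growth_x hr x1 recx n
    rw [abs_of_nonneg this.1]
    have h0 : (0 : ℝ) ≤ n := Nat.cast_nonneg n
    nlinarith [this.2]
  gy := by
    intro n
    have := growth_y hr y1 (growth_x hr x1 recx) recy n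
    rw [abs_of_nonneg this.1]
    exact this.2
  x1 := x1
  y1 := y1
  recx := recx
  recy := recy

lemma tendsto_sub_of_bound {u : ℕ → ℝ} {r : ℕ} {L K : ℝ} {q : ℝ} (hq0 : 0 ≤ q) (hq1 : q < 1)
    (h : ∀ n : ℕ, |u n - L * (n + r)| ≤ K * q ^ n) :
    Tendsto (fun n => u (n + 1) - u n) atTop (𝓝 L) := by
  have h1 : Tendsto (fun n : ℕ => u n - L * (n + r)) atTop (𝓝 0) := by
    apply squeeze_zero_norm (a := fun n => K * q ^ n) h
    simpa using (tendsto_pow_atTop_nhds_zero_of_lt_one hq0 hq1).const_mul K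
  have h2 := (tendsto_add_atTop_iff_nat 1).mpr h1
  have h3 := (h2.sub h1).add_const L
  simp only [sub_self, zero_add] at h3
  refine h3.congr fun n => ?_
  push_cast
  ring

lemma tsum_sq_shift (r : ℕ) {t : ℝ} (h0 : 0 ≤ t) (ht : t < 1) :
    HasSum (fun n : ℕ => ((n : ℝ) + r) ^ 2 * t ^ n)
      (2 / (1 - t) ^ 3 + (2 * r - 3) / (1 - t) ^ 2 + ((r : ℝ) - 1) ^ 2 / (1 - t)) := by
  have hn : ‖t‖ < 1 := by rw [Real.norm_of_nonneg h0]; exact ht
  have a0 := hasSum_choose_mul_geometric_of_norm_lt_one 0 hn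
  have a1 := hasSum_choose_mul_geometric_of_norm_lt_one 1 hn
  have a2 := hasSum_choose_mul_geometric_of_norm_lt_one 2 hn
  have h := ((a2.mul_left 2).add (a1.mul_left (2 * (r : ℝ) - 3))).add
    (a0.mul_left (((r : ℝ) - 1) ^ 2))
  have e1 : (fun n : ℕ => ((n : ℝ) + r) ^ 2 * t ^ n) = fun n : ℕ =>
      2 * (((n + 2).choose 2 : ℕ) * t ^ n) + (2 * (r : ℝ) - 3) * (((n + 1).choose 1 : ℕ) * t ^ n)
        + ((r : ℝ) - 1) ^ 2 * (((n + 0).choose 0 : ℕ) * t ^ n) := by
    funext n
    rw [Nat.cast_choose_two, Nat.choose_one_right, Nat.choose_zero_right]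
    push_cast
    ring
  have e2 : 2 / (1 - t) ^ 3 + (2 * r - 3) / (1 - t) ^ 2 + ((r : ℝ) - 1) ^ 2 / (1 - t)
      = 2 * (1 / (1 - t) ^ (2 + 1)) + (2 * (r : ℝ) - 3) * (1 / (1 - t) ^ (1 + 1))
        + ((r : ℝ) - 1) ^ 2 * (1 / (1 - t) ^ (0 + 1)) := by
    ring
  rw [e1, e2]
  exact h

/-- The limit of the closed form. -/
lemma limit_closed {r : ℕ} (hr : 1 ≤ r) :
    Tendsto (fun t : ℝ => (1 - t) * (1 - t ^ r) + t ^ (r - 1) / E r t *
        (t * (1 - t) * E r t + 3 * F r t + G r t - p r t * F r t ^ 2 / E r t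
          + 2 * (F r t ^ 2 / (E r t * (1 - t))))
        - F r 1 ^ 2 * (2 / (1 - t) + (2 * r - 3) + ((r : ℝ) - 1) ^ 2 * (1 - t)))
      (𝓝[<] 1) (𝓝 ((3 * r - 2) * F r 1 ^ 2 - F r 1 + G r 1)) := by
  have hE1 := E_one r
  -- the slope part
  have hφ : HasDerivAt (fun t : ℝ => t ^ (r - 1) * (F r t / E r t) ^ 2)
      (2 * F r 1 - 3 * ((r : ℝ) - 1) * F r 1 ^ 2) 1 := by
    have h1 := (hasDerivAt_pow (r - 1) (1 : ℝ)).mul
      (((hasDerivAt_F r 1).div (hasDerivAt_E r 1) (E_pos r 1).ne').pow 2)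
    refine h1.congr_deriv ?_
    simp only [Pi.pow_apply, Pi.div_apply, hE1, p_one hr]
    rw [Nat.cast_sub hr]
    push_cast
    simp
    ring
  have h1 := hφ.tendsto_slope
  have h2 : Tendsto (slope (fun t : ℝ => t ^ (r - 1) * (F r t / E r t) ^ 2) 1) (𝓝[<] 1)
      (𝓝 (2 * F r 1 - 3 * ((r : ℝ) - 1) * F r 1 ^ 2)) :=
    h1.mono_left (nhdsWithin_mono _ fun t ht => (ne_of_lt ht))
  have h3 : Continuous fun t : ℝ => (1 - t) * (1 - t ^ r) + t ^ (r - 1) / E r t *
        (t * (1 - t) * E r t + 3 * F r t + G r t - p r t * F r t ^ 2 / E r t)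
        - F r 1 ^ 2 * ((2 * r - 3) + ((r : ℝ) - 1) ^ 2 * (1 - t)) := by
    have c1 := continuous_E r
    have c2 := continuous_F r
    have c3 := continuous_G r
    have c4 := continuous_p r
    have c5 : ∀ t, E r t ≠ 0 := fun t => (E_pos r t).ne'
    fun_prop (disch := assumption)
  have h4 := (h3.tendsto 1).mono_left (nhdsWithin_le_nhds (s := Set.Iio (1 : ℝ)))
  have h5 := h4.sub (h2.const_mul 2)
  have e1 : (1 - (1 : ℝ)) * (1 - 1 ^ r) + 1 ^ (r - 1) / E r 1 *
        (1 * (1 - 1) * E r 1 + 3 * F r 1 + G r 1 - p r 1 * F r 1 ^ 2 / E r 1)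
        - F r 1 ^ 2 * ((2 * r - 3) + ((r : ℝ) - 1) ^ 2 * (1 - 1))
        - 2 * (2 * F r 1 - 3 * ((r : ℝ) - 1) * F r 1 ^ 2)
      = (3 * r - 2) * F r 1 ^ 2 - F r 1 + G r 1 := by
    rw [hE1, p_one hr]
    simp only [one_pow]
    ring
  rw [e1] at h5
  refine h5.congr' ?_
  filter_upwards [self_mem_nhdsWithin] with t ht
  have hne : (1 - t) ≠ 0 := by
    have : t < 1 := ht
    linarith
  have hne' : (t - 1) ≠ 0 := by
    have : t < 1 := ht
    linarith
  have hE := (E_pos r t).ne'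
  rw [slope_def_field, hE1]
  have e2 : (t ^ (r - 1) * (F r t / E r t) ^ 2 - 1 ^ (r - 1) * (F r 1 / 1) ^ 2) / (t - 1)
      = -(t ^ (r - 1) * (F r t / E r t) ^ 2 - F r 1 ^ 2) / (1 - t) := by
    rw [div_eq_div_iff hne' hne]
    simp only [one_pow, div_one, one_mul]
    ring
  rw [e2]
  field_simp
  ring

/-- The main analytic theorem. -/
theorem Rec.bound {r : ℕ} {x y : ℕ → ℝ} (h : Rec r x y) :
    ∃ K : ℝ, ∀ n : ℕ, |y n - x n ^ 2
      - ((3 * r - 2) * F r 1 ^ 2 - F r 1 + G r 1) * ((n : ℝ) + r)| ≤ K * (1 / 2) ^ n := by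
  have hr := h.hr
  have hr0 : (1 : ℝ) ≤ r := by exact_mod_cast hr
  -- first moments
  obtain ⟨L, K, hK0, hK⟩ := conv (u := x) (c := fun _ => 0) (r := r) (q := 1 / 16) (K := 0) hr
    (by norm_num) (by norm_num) (by simp) (fun m => by rw [add_zero]; exact h.recx m)
  have hb : ∀ n : ℕ, |x n - L * (n + r)| ≤ (K * (1 + r)) * (1 / 8) ^ n := by
    intro n
    refine (hK n).trans ?_
    have := lin_geom r n (q := 1 / 8) (by norm_num)
    rw [mul_assoc]
    apply mul_le_mul_of_nonneg_left _ hK0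
    have e : (1 / 8 / 2 : ℝ) = 1 / 16 := by norm_num
    rwa [e] at this
  have hL : L = F r 1 := by
    have t1 := abel2 (f := x) (L := L)
      (fun t h0 h1 => h.gx.summable (by rwa [abs_of_nonneg h0]))
      (tendsto_sub_of_bound (r := r) (by norm_num) (by norm_num) hb)
    have c1 : Continuous fun t : ℝ => (1 - t) + t ^ (r - 1) * F r t / E r t := by
      have c1 := continuous_E r
      have c2 := continuous_F r
      have c5 : ∀ t, E r t ≠ 0 := fun t => (E_pos r t).ne'
      fun_prop (disch := assumption)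
    have t2 := (c1.tendsto 1).mono_left (nhdsWithin_le_nhds (s := Set.Iio (1 : ℝ)))
    rw [E_one] at t2
    simp only [sub_self, one_pow, one_mul, div_one, zero_add] at t2
    refine tendsto_nhds_unique t1 (t2.congr' ?_)
    have : Set.Ioo (0 : ℝ) 1 ∈ 𝓝[<] (1 : ℝ) := Ioo_mem_nhdsLT (by norm_num)
    filter_upwards [this] with t ht
    exact (h.closedX' ⟨ht.1.le, ht.2⟩).symm
  set ρ := L with hρ
  set b : ℕ → ℝ := fun n => x n - ρ * (n + r) with hbdef
  set B := K * (1 + r) with hB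
  have hB0 : 0 ≤ B := by positivity
  -- second moments, centred
  set z : ℕ → ℝ := fun n => y n - 2 * ρ * (n + r) * x n + ρ ^ 2 * (n + r) ^ 2 with hz
  set c : ℕ → ℝ := fun m => 2 * ∑ j ∈ Finset.range (m + 1), b j * b (m - j) with hc
  have hcb : ∀ m, |c m| ≤ (2 * B ^ 2 * (1 + 1)) * (1 / 4) ^ m := by
    intro m
    have e1 : |∑ j ∈ Finset.range (m + 1), b j * b (m - j)|
        ≤ ∑ j ∈ Finset.range (m + 1), B ^ 2 * (1 / 8) ^ m := by
      refine (Finset.abs_sum_le_sum_abs _ _).trans (Finset.sum_le_sum ?_)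
      intro j hj
      rw [Finset.mem_range] at hj
      rw [abs_mul]
      calc |b j| * |b (m - j)| ≤ (B * (1 / 8) ^ j) * (B * (1 / 8) ^ (m - j)) :=
            mul_le_mul (hb j) (hb _) (abs_nonneg _) (by positivity)
        _ = B ^ 2 * ((1 / 8) ^ j * (1 / 8) ^ (m - j)) := by ring
        _ = B ^ 2 * (1 / 8) ^ m := by rw [← pow_add]; congr 2; omega
    rw [Finset.sum_const, Finset.card_range, nsmul_eq_mul] at e1
    push_cast at e1
    have e2 := lin_geom 1 m (q := 1 / 4) (by norm_num)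
    have e : (1 / 4 / 2 : ℝ) = 1 / 8 := by norm_num
    rw [e] at e2
    push_cast at e2
    rw [hc]
    simp only
    rw [abs_mul, abs_of_pos (by norm_num : (0 : ℝ) < 2)]
    have e3 := mul_le_mul_of_nonneg_left e2 (sq_nonneg B)
    nlinarith
  have hzrec : ∀ m : ℕ, ((m : ℝ) + 1) * z (m + r)
      = 2 * ∑ j ∈ Finset.range (m + 1), z j + c m := by
    intro m
    have hrefl : ∑ j ∈ Finset.range (m + 1), (((j : ℝ) + r) * x (m - j))
        = ∑ j ∈ Finset.range (m + 1), (((m : ℝ) - j + r) * x j) := by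
      rw [← Finset.sum_range_reflect]
      apply Finset.sum_congr rfl
      intro j hj
      rw [Finset.mem_range] at hj
      have e1 : m + 1 - 1 - j = m - j := by omega
      have e2 : m - (m - j) = j := by omega
      rw [e1, e2, Nat.cast_sub (by omega)]
    have e1 : ∑ j ∈ Finset.range (m + 1), b j * b (m - j)
        = ∑ j ∈ Finset.range (m + 1), x j * x (m - j)
          - ρ * ∑ j ∈ Finset.range (m + 1), (((m : ℝ) - j + r) * x j)
          - ρ * ∑ j ∈ Finset.range (m + 1), (((j : ℝ) + r) * x (m - j))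
          + ρ ^ 2 * ∑ j ∈ Finset.range (m + 1), (((j : ℝ) + r) * ((m : ℝ) - j + r)) := by
      simp only [Finset.mul_sum]
      rw [← Finset.sum_sub_distrib, ← Finset.sum_sub_distrib, ← Finset.sum_add_distrib]
      apply Finset.sum_congr rfl
      intro j hj
      rw [Finset.mem_range] at hj
      simp only [hbdef]
      rw [Nat.cast_sub (by omega)]
      ring
    have e2 : ∑ j ∈ Finset.range (m + 1), z j
        = ∑ j ∈ Finset.range (m + 1), y j
          - 2 * ρ * ∑ j ∈ Finset.range (m + 1), (((j : ℝ) + r) * x j)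
          + ρ ^ 2 * ∑ j ∈ Finset.range (m + 1), ((j : ℝ) + r) ^ 2 := by
      simp only [Finset.mul_sum]
      rw [← Finset.sum_sub_distrib, ← Finset.sum_add_distrib]
      apply Finset.sum_congr rfl
      intro j hj
      simp only [hz]
      ring
    have e3 : ∑ j ∈ Finset.range (m + 1), (((j : ℝ) + r) * x j)
        + ∑ j ∈ Finset.range (m + 1), (((m : ℝ) - j + r) * x j)
        = ((m : ℝ) + 2 * r) * ∑ j ∈ Finset.range (m + 1), x j := by
      rw [← Finset.sum_add_distrib, Finset.mul_sum]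
      apply Finset.sum_congr rfl
      intro j hj
      ring
    have e4 : ∑ j ∈ Finset.range (m + 1), ((j : ℝ) + r) ^ 2
        + ∑ j ∈ Finset.range (m + 1), (((j : ℝ) + r) * ((m : ℝ) - j + r))
        = ((m : ℝ) + 2 * r) * (((m : ℝ) + 1) * (m + 2 * r) / 2) := by
      rw [← sum_add_real, ← Finset.sum_add_distrib, Finset.mul_sum]
      apply Finset.sum_congr rfl
      intro j hj
      ring
    rw [hc]
    simp only
    rw [e1, e2, hrefl]
    simp only [hz]
    push_cast
    have r1 := h.recx m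
    have r2 := h.recy m
    linear_combination r2 - 2 * ρ * ((m : ℝ) + r + r) * r1 + 4 * ρ * e3 - 2 * ρ ^ 2 * e4
  obtain ⟨L', K', hK'0, hK'⟩ := conv (u := z) (c := c) (r := r) (q := 1 / 4) hr
    (by norm_num) (by norm_num) hcb hzrec
  have hzb : ∀ n : ℕ, |z n - L' * (n + r)| ≤ (K' * (1 + r)) * (1 / 2) ^ n := by
    intro n
    refine (hK' n).trans ?_
    have := lin_geom r n (q := 1 / 2) (by norm_num)
    rw [mul_assoc]
    apply mul_le_mul_of_nonneg_left _ hK'0
    have e : (1 / 2 / 2 : ℝ) = 1 / 4 := by norm_num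
    rwa [e] at this
  -- the comparison sequence `y n - ρ² (n + r)²`
  have hD : Tendsto (fun n : ℕ => (y (n + 1) - ρ ^ 2 * (((n + 1 : ℕ) : ℝ) + r) ^ 2)
      - (y n - ρ ^ 2 * ((n : ℝ) + r) ^ 2)) atTop (𝓝 L') := by
    have hdb : ∀ n : ℕ, |(y n - ρ ^ 2 * ((n : ℝ) + r) ^ 2) - L' * (n + r)|
        ≤ (K' * (1 + r) + 2 * |ρ| * (B * (1 + r))) * (1 / 2) ^ n := by
      intro n
      have e1 : (y n - ρ ^ 2 * ((n : ℝ) + r) ^ 2) - L' * (n + r)
          = (z n - L' * (n + r)) + 2 * ρ * (((n : ℝ) + r) * b n) := by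
        simp only [hz, hbdef]
        ring
      rw [e1]
      refine (abs_add_le _ _).trans ?_
      have e2 : |2 * ρ * (((n : ℝ) + r) * b n)| ≤ 2 * |ρ| * (B * (1 + r)) * (1 / 2) ^ n := by
        rw [abs_mul, abs_mul, abs_mul, abs_of_pos (by norm_num : (0 : ℝ) < 2),
          abs_of_pos (by positivity : (0 : ℝ) < (n : ℝ) + r)]
        have e3 := lin_geom r n (q := 1 / 4) (by norm_num)
        have e4 : (1 / 4 / 2 : ℝ) = 1 / 8 := by norm_num
        rw [e4] at e3
        have e5 : ((1 : ℝ) / 4) ^ n ≤ (1 / 2) ^ n := pow_le_pow_left₀ (by norm_num) (by norm_num) _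
        have e6 : ((n : ℝ) + r) * |b n| ≤ (B * (1 + r)) * (1 / 2) ^ n := by
          calc ((n : ℝ) + r) * |b n| ≤ ((n : ℝ) + r) * (B * (1 / 8) ^ n) :=
                mul_le_mul_of_nonneg_left (hb n) (by positivity)
            _ = B * (((n : ℝ) + r) * (1 / 8) ^ n) := by ring
            _ ≤ B * ((1 + r) * (1 / 4) ^ n) := mul_le_mul_of_nonneg_left e3 hB0
            _ ≤ B * ((1 + r) * (1 / 2) ^ n) := by
                apply mul_le_mul_of_nonneg_left _ hB0
                exact mul_le_mul_of_nonneg_left e5 (by positivity)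
            _ = _ := by ring
        calc 2 * |ρ| * (((n : ℝ) + r) * |b n|) ≤ 2 * |ρ| * ((B * (1 + r)) * (1 / 2) ^ n) :=
              mul_le_mul_of_nonneg_left e6 (by positivity)
          _ = _ := by ring
      have e7 := hzb n
      linarith
    exact tendsto_sub_of_bound (u := fun n : ℕ => y n - ρ ^ 2 * ((n : ℝ) + r) ^ 2) (r := r)
      (by norm_num) (by norm_num) hdb
  have hv : L' = (3 * r - 2) * F r 1 ^ 2 - F r 1 + G r 1 := by
    have t1 := abel2 (f := fun n : ℕ => y n - ρ ^ 2 * ((n : ℝ) + r) ^ 2) (L := L')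
      (fun t h0 h1 => by
        have s1 := h.gy.summable (t := t) (by rwa [abs_of_nonneg h0])
        have s2 := (tsum_sq_shift r h0 h1).summable.mul_left (ρ ^ 2)
        refine (s1.sub s2).congr fun n => ?_
        ring) hD
    refine tendsto_nhds_unique t1 ((limit_closed hr).congr' ?_)
    have : Set.Ioo (0 : ℝ) 1 ∈ 𝓝[<] (1 : ℝ) := Ioo_mem_nhdsLT (by norm_num)
    filter_upwards [this] with t ht
    have ht' : |t| < 1 := by rw [abs_of_nonneg ht.1.le]; exact ht.2
    have s1 := h.gy.summable ht'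
    have s2 := tsum_sq_shift r ht.1.le ht.2
    have e1 : ∑' n : ℕ, (y n - ρ ^ 2 * ((n : ℝ) + r) ^ 2) * t ^ n
        = ∑' n : ℕ, y n * t ^ n - ρ ^ 2 * ∑' n : ℕ, ((n : ℝ) + r) ^ 2 * t ^ n := by
      rw [← tsum_mul_left, ← s1.tsum_sub (s2.summable.mul_left _)]
      apply tsum_congr
      intro n
      ring
    rw [e1, s2.tsum_eq, mul_sub ((1 - t) ^ 2)]
    have e2 := tsum_split h.gy hr h.y1 ht'
    have e3 := h.closedY t ⟨ht.1.le, ht.2⟩
    have hne : (1 - t) ≠ 0 := by linarith [ht.2]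
    have hE := (E_pos r t).ne'
    have e4 : (1 - t) ^ 2 * ∑' n, y n * t ^ n = (1 - t) * (1 - t ^ r) + t ^ (r - 1) / E r t *
        (t * (1 - t) * E r t + 3 * F r t + G r t - p r t * F r t ^ 2 / E r t
          + 2 * (F r t ^ 2 / (E r t * (1 - t)))) := by
      rw [← e3]
      have e5 : t ^ (r - 1) / E r t *
          ((1 - t) ^ 2 * E r t * ∑' m : ℕ, y (m + r) * t ^ (m + 1))
          = t ^ (r - 1) * (1 - t) ^ 2 * ∑' m : ℕ, y (m + r) * t ^ (m + 1) := by
        field_simp
      rw [e5]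
      linear_combination (1 - t) * e2
    rw [e4, hL]
    congr 1
    field_simp
  -- conclusion
  rw [← hv]
  refine ⟨K' * (1 + r) + B ^ 2, fun n => ?_⟩
  have e1 : y n - x n ^ 2 - L' * ((n : ℝ) + r) = (z n - L' * (n + r)) - b n ^ 2 := by
    simp only [hz, hbdef]
    ring
  rw [e1]
  refine (abs_sub _ _).trans ?_
  have e2 : |b n ^ 2| ≤ B ^ 2 * (1 / 2) ^ n := by
    rw [abs_pow]
    calc |b n| ^ 2 ≤ (B * (1 / 8) ^ n) ^ 2 := pow_le_pow_left₀ (abs_nonneg _) (hb n) 2
      _ = B ^ 2 * (1 / 64) ^ n := by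
        rw [mul_pow, ← pow_mul, mul_comm n 2, pow_mul]; norm_num
      _ ≤ B ^ 2 * (1 / 2) ^ n :=
        mul_le_mul_of_nonneg_left (pow_le_pow_left₀ (by norm_num) (by norm_num) _) (sq_nonneg _)
  have e3 := hzb n
  linarith

lemma tendsto_div_of_bound {u : ℕ → ℝ} {r : ℕ} {L K : ℝ}
    (h : ∀ n : ℕ, |u n - L * ((n : ℝ) + r)| ≤ K * (1 / 2) ^ n) :
    Tendsto (fun n : ℕ => u n / n) atTop (𝓝 L) := by
  have l1 : Tendsto (fun n : ℕ => (u n - L * ((n : ℝ) + r))) atTop (𝓝 0) := by
    apply squeeze_zero_norm (a := fun n => K * (1 / 2) ^ n) h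
    simpa using (tendsto_pow_atTop_nhds_zero_of_lt_one (r := (1 : ℝ) / 2) (by norm_num)
      (by norm_num)).const_mul K
  have l3 : Tendsto (fun n : ℕ => ((n : ℝ))⁻¹) atTop (𝓝 0) := tendsto_inv_atTop_nhds_zero_nat
  have l4 := (((l1.add_const (L * r)).mul l3).add_const L)
  simp only [mul_zero, zero_add] at l4
  refine l4.congr' ?_
  filter_upwards [eventually_gt_atTop 0] with n hn
  have hn' : (n : ℝ) ≠ 0 := by exact_mod_cast hn.ne'
  field_simp
  ring

end Pool.Agent.H96.Rsa
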